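import Pool.Agent.J6H67.DB.Stm

/-!
# Project DB, module DB-8: ABS, DEB
-/

set_option autoImplicit false

namespace J6H67.DB

open Finset Filter Topology Pool.Agent.W76.MO Pool.Agent.Q240.KS
open scoped Classical

theorem t_ABS : S_ABS := by
  intro d τ N R bad hτ hgood hbad h0
  set Φ : ℕ → ℕ := fun k => ⌈(d k - τ) / (3 * τ)⌉₊ with hΦ
  set b : ℕ → ℕ := fun n => ((range n).filter (fun k => k ∈ bad)).card with hb
  set z : ℕ → ℕ := fun n => ((range n).filter (fun k => Φ k ≠ 0)).card with hz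
  have h3 : 0 < 3 * τ := by positivity
  have hd : ∀ k, d k ≤ τ + 3 * τ * Φ k := by
    intro k
    have h1 := Nat.le_ceil ((d k - τ) / (3 * τ))
    rw [div_le_iff₀ h3] at h1
    have : ((⌈(d k - τ) / (3 * τ)⌉₊ : ℕ) : ℝ) = (Φ k : ℝ) := rfl
    rw [this] at h1
    linarith
  have hle : ∀ k (m : ℕ), d k ≤ τ + 3 * τ * m → Φ k ≤ m := by
    intro k m h
    apply Nat.ceil_le.2
    rw [div_le_iff₀ h3]
    linarith
  have hΦ0 : Φ 0 ≤ R := hle 0 R h0
  have hpos : ∀ k, τ < d k → Φ k ≠ 0 := by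
    intro k hk h
    have := hd k
    rw [h] at this
    push_cast at this
    linarith
  have hg : ∀ k, k < N → k ∉ bad → Φ (k + 1) ≤ Φ k - 1 := by
    intro k hk hkb
    apply hle
    rcases le_total τ (d k - 3 * τ) with h | h
    · have h1 := hgood k hk hkb
      rw [max_eq_right h] at h1
      have h2 : Φ k ≠ 0 := hpos k (by linarith)
      have h4 : ((Φ k - 1 : ℕ) : ℝ) = (Φ k : ℝ) - 1 := by
        rw [Nat.cast_sub (Nat.one_le_iff_ne_zero.2 h2)]
        simp
      rw [h4]
      have := hd k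
      nlinarith
    · have h1 := hgood k hk hkb
      rw [max_eq_left h] at h1
      have h4 : (0 : ℝ) ≤ ((Φ k - 1 : ℕ) : ℝ) := Nat.cast_nonneg _
      nlinarith [mul_nonneg h3.le h4]
  have hbd : ∀ k, k < N → k ∈ bad → Φ (k + 1) ≤ Φ k + 1 := by
    intro k hk hkb
    apply hle
    have h1 := hbad k hk hkb
    have := hd k
    push_cast
    nlinarith
  have hbs : ∀ n, b (n + 1) = b n + if n ∈ bad then 1 else 0 := by
    intro n
    simp only [hb, range_add_one, filter_insert]
    split_ifs with h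
    · rw [card_insert_of_notMem (by simp)]
    · rfl
  have hzs : ∀ n, z (n + 1) = z n + if Φ n ≠ 0 then 1 else 0 := by
    intro n
    simp only [hz, range_add_one, filter_insert]
    split_ifs with h
    · rw [card_insert_of_notMem (by simp)]
    · rfl
  have hA : ∀ n, n ≤ N → Φ n + z n ≤ R + 2 * b n := by
    intro n
    induction n with
    | zero => intro _; simpa [hz, hb] using hΦ0
    | succ n ih =>
      intro hn
      have h1 := ih (by omega)
      have h2 := hbs n
      have h3' := hzs n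
      by_cases hn' : n ∈ bad
      · have h4 := hbd n (by omega) hn'
        rw [if_pos hn'] at h2
        split_ifs at h3' <;> omega
      · have h4 := hg n (by omega) hn'
        rw [if_neg hn'] at h2
        split_ifs at h3' <;> omega
  have hB : ∀ n, n ≤ N → Φ n ≤ R + b n := by
    intro n
    induction n with
    | zero => intro _; simpa [hb] using hΦ0
    | succ n ih =>
      intro hn
      have h1 := ih (by omega)
      have h2 := hbs n
      by_cases hn' : n ∈ bad
      · have h4 := hbd n (by omega) hn'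
        rw [if_pos hn'] at h2
        omega
      · have h4 := hg n (by omega) hn'
        rw [if_neg hn'] at h2
        omega
  have hbN : ∀ n, b n ≤ bad.card := by
    intro n
    apply card_le_card
    intro k hk
    exact (mem_filter.1 hk).2
  refine ⟨?_, ?_, ?_⟩
  · have h1 := hA N le_rfl
    have h2 : ((range N).filter (fun k => τ < d k)).card ≤ z N := by
      apply card_le_card
      intro k hk
      rw [mem_filter] at hk ⊢
      exact ⟨hk.1, hpos k hk.2⟩
    have := hbN N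
    omega
  · intro k hk
    have h1 := hB k hk
    have h2 := hbN k
    have h4 : (Φ k : ℝ) ≤ R + bad.card := by
      have : Φ k ≤ R + bad.card := by omega
      exact_mod_cast this
    have := hd k
    nlinarith [mul_le_mul_of_nonneg_left h4 h3.le]
  · intro hN
    obtain ⟨k, hk, hk0⟩ : ∃ k, k < N ∧ Φ k = 0 := by
      by_contra hc
      push Not at hc
      have h1 : z N = N := by
        simp only [hz]
        rw [filter_true_of_mem (fun k hk => hc k (mem_range.1 hk)), card_range]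
      have h2 := hA N le_rfl
      have := hbN N
      omega
    have hC : ∀ n, k ≤ n → n ≤ N → Φ n ≤ b n := by
      intro n hn
      induction n, hn using Nat.le_induction with
      | base => intro _; omega
      | succ n hn ih =>
        intro hn'
        have h1 := ih (by omega)
        have h2 := hbs n
        by_cases hn'' : n ∈ bad
        · have h4 := hbd n (by omega) hn''
          rw [if_pos hn''] at h2
          omega
        · have h4 := hg n (by omega) hn''
          rw [if_neg hn''] at h2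
          omega
    have h1 := hC N hk.le le_rfl
    have h2 := hbN N
    have h4 : (Φ N : ℝ) ≤ bad.card := by
      have : Φ N ≤ bad.card := by omega
      exact_mod_cast this
    have := hd N
    nlinarith [mul_le_mul_of_nonneg_left h4 h3.le]

/-! ### DEB -/

theorem hh_mul_nc {δ : ℝ} (h0 : 0 ≤ 1 / 2 - δ) (h1 : 1 / 2 - δ ≤ 1) (i : ℕ) :
    nc δ i * hh δ i = 2 ^ i ∧ hh δ i ≤ hh δ (i + 1) ∧
      (2 : ℝ) ^ ((1 - (1 / 2 - δ)) * i) ≤ nc δ i := by
  have hfl : ⌊(1 / 2 - δ) * i⌋₊ ≤ i := by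
    have : (1 / 2 - δ) * i ≤ i := mul_le_of_le_one_left (Nat.cast_nonneg _) h1
    calc ⌊(1 / 2 - δ) * i⌋₊ ≤ ⌊(i : ℝ)⌋₊ := Nat.floor_le_floor this
      _ = i := Nat.floor_natCast i
  have hdvd : hh δ i ∣ 2 ^ i := pow_dvd_pow 2 hfl
  have hmul : nc δ i * hh δ i = 2 ^ i := Nat.div_mul_cancel hdvd
  refine ⟨hmul, ?_, ?_⟩
  · apply Nat.pow_le_pow_right (by norm_num)
    apply Nat.floor_le_floor
    apply mul_le_mul_of_nonneg_left _ h0
    push_cast
    linarith
  · have hh0 : (0 : ℝ) < hh δ i := by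
      have : 0 < hh δ i := by unfold hh; positivity
      exact_mod_cast this
    have h2 : (hh δ i : ℝ) ≤ (2 : ℝ) ^ ((1 / 2 - δ) * i) := by
      unfold hh
      push_cast
      rw [← Real.rpow_natCast]
      apply Real.rpow_le_rpow_of_exponent_le (by norm_num)
      exact Nat.floor_le (mul_nonneg h0 (Nat.cast_nonneg _))
    have h3 : (nc δ i : ℝ) * hh δ i = (2 : ℝ) ^ i := by exact_mod_cast hmul
    have h4 : (2 : ℝ) ^ ((1 - (1 / 2 - δ)) * i) * (2 : ℝ) ^ ((1 / 2 - δ) * i) = (2 : ℝ) ^ i := by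
      rw [← Real.rpow_add (by norm_num), ← Real.rpow_natCast]
      congr 1
      ring
    have h5 : (0 : ℝ) < (2 : ℝ) ^ ((1 - (1 / 2 - δ)) * (i : ℝ)) := by positivity
    by_contra hc
    push Not at hc
    have h6 : (nc δ i : ℝ) * hh δ i < (2 : ℝ) ^ ((1 - (1 / 2 - δ)) * (i : ℝ)) * (2 : ℝ) ^ ((1 / 2 - δ) * (i : ℝ)) :=
      mul_lt_mul hc h2 hh0 h5.le
    linarith

theorem t_DEB (hABS : S_ABS) : S_DEB := by
  intro c ε η lam e hc hε hε1 hη hηe helam hlam
  set δ : ℝ := lam - 1 / 2 + η / 2 with hδ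
  have hth : (1 : ℝ) / 2 - δ = 1 - lam - η / 2 := by rw [hδ]; ring
  have hlam0 : 0 < lam := by linarith
  have hA0 : (0 : ℝ) ≤ 1 / 2 - δ := by rw [hth]; linarith
  have hA1 : (1 : ℝ) / 2 - δ ≤ 1 := by rw [hth]; linarith
  have hN := fun i => hh_mul_nc (δ := δ) hA0 hA1 i
  -- large i
  have hlarge1 : ∀ᶠ i : ℕ in atTop, (4 : ℝ) / 3 ≤ c / 32 * (2 : ℝ) ^ (ε * (i : ℝ)) / (i : ℝ) ^ 3 := by
    have h1 : Tendsto (fun x : ℝ => Real.exp ((ε * Real.log 2) * x) / x ^ (3 : ℝ)) atTop atTop :=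
      tendsto_exp_mul_div_rpow_atTop 3 (ε * Real.log 2) (by positivity)
    have h2 := (h1.comp tendsto_natCast_atTop_atTop).eventually_ge_atTop (4 / 3 * (32 / c))
    filter_upwards [h2] with i hi
    have h3 : (2 : ℝ) ^ (ε * (i : ℝ)) = Real.exp ((ε * Real.log 2) * i) := by
      rw [Real.rpow_def_of_pos (by norm_num)]
      congr 1
      ring
    have h4 : ((i : ℝ)) ^ (3 : ℝ) = (i : ℝ) ^ 3 := by
      rw [← Real.rpow_natCast]
      norm_num
    simp only [Function.comp_apply] at hi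
    rw [h4, ← h3] at hi
    have h5 : c / 32 * (4 / 3 * (32 / c)) = 4 / 3 := by
      field_simp
    calc (4 : ℝ) / 3 = c / 32 * (4 / 3 * (32 / c)) := h5.symm
      _ ≤ c / 32 * ((2 : ℝ) ^ (ε * (i : ℝ)) / (i : ℝ) ^ 3) :=
        mul_le_mul_of_nonneg_left hi (by positivity)
      _ = _ := by ring
  have hlarge2 : ∀ᶠ i : ℕ in atTop, (26 : ℝ) < (2 : ℝ) ^ ((3 * η / 2) * (i : ℝ)) := by
    have h1 : Tendsto (fun i : ℕ => (2 : ℝ) ^ ((3 * η / 2) * (i : ℝ))) atTop atTop := by
      have h2 : Tendsto (fun i : ℕ => (3 * η / 2) * (i : ℝ)) atTop atTop :=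
        Tendsto.const_mul_atTop (by positivity) tendsto_natCast_atTop_atTop
      exact (tendsto_rpow_atTop_of_base_gt_one 2 (by norm_num)).comp h2
    exact h1.eventually_gt_atTop 26
  obtain ⟨I, hI⟩ := eventually_atTop.1 (hlarge1.and hlarge2)
  refine ⟨max I 3, le_max_right _ _, ?_⟩
  intro i0 hi0 f hf1 hstep hBB i1 hi1
  have hI0 : I ≤ i0 := (le_max_left _ _).trans hi0
  have h30 : 3 ≤ i0 := (le_max_right _ _).trans hi0
  -- notation
  set b : ℕ → ℝ := fun i => (2 : ℝ) ^ ((e - η) * (i : ℝ)) with hb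
  have hb1 : ∀ i, 1 ≤ b i := fun i => Real.one_le_rpow (by norm_num) (mul_nonneg (by linarith) (Nat.cast_nonneg _))
  have hbm : ∀ i, b i ≤ b (i + 1) := fun i => by
    apply Real.rpow_le_rpow_of_exponent_le (by norm_num)
    apply mul_le_mul_of_nonneg_left _ (by linarith)
    push_cast
    linarith
  have h26 : ∀ i, i0 ≤ i → 26 * b i < nc δ i := by
    intro i hi
    have h1 := (hI i (hI0.trans hi)).2
    have h2 := (hN i).2.2
    have h3 : (2 : ℝ) ^ ((3 * η / 2) * (i : ℝ)) * b i ≤ (2 : ℝ) ^ ((1 - (1 / 2 - δ)) * (i : ℝ)) := by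
      rw [hb]
      simp only
      rw [← Real.rpow_add (by norm_num)]
      apply Real.rpow_le_rpow_of_exponent_le (by norm_num)
      rw [hth]
      have hi' : (0 : ℝ) ≤ i := Nat.cast_nonneg _
      nlinarith
    have h4 : 26 * b i < (2 : ℝ) ^ ((3 * η / 2) * (i : ℝ)) * b i :=
      mul_lt_mul_of_pos_right h1 (by linarith [hb1 i])
    linarith
  have hhpos : ∀ i, (0 : ℝ) < hh δ i := fun i => by
    have : 0 < hh δ i := by unfold hh; positivity
    exact_mod_cast this
  have htau : ∀ i, i0 ≤ i → 0 < tau c ε δ i := by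
    intro i hi
    have h1 : (0 : ℝ) < i := by
      have : 0 < i := by omega
      exact_mod_cast this
    have h2 := hhpos i
    unfold tau
    positivity
  have htau16 : ∀ i, i0 ≤ i → tau c ε δ i ≤ 16 * tau c ε δ (i + 1) := by
    intro i hi
    have h1 : (1 : ℝ) ≤ i := by
      have : 1 ≤ i := by omega
      exact_mod_cast this
    have h2 : (hh δ i : ℝ) ≤ hh δ (i + 1) := by exact_mod_cast (hN i).2.1
    have h3 : (2 : ℝ) ^ ((ε - 1) * (i : ℝ)) ≤ 2 * (2 : ℝ) ^ ((ε - 1) * ((i + 1 : ℕ) : ℝ)) := by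
      have h4 : (2 : ℝ) ^ ((ε - 1) * (i : ℝ)) = (2 : ℝ) ^ (1 - ε) * (2 : ℝ) ^ ((ε - 1) * ((i + 1 : ℕ) : ℝ)) := by
        rw [← Real.rpow_add (by norm_num)]
        congr 1
        push_cast
        ring
      rw [h4]
      apply mul_le_mul_of_nonneg_right _ (by positivity)
      calc (2 : ℝ) ^ (1 - ε) ≤ (2 : ℝ) ^ (1 : ℝ) :=
            Real.rpow_le_rpow_of_exponent_le (by norm_num) (by linarith)
        _ = 2 := Real.rpow_one 2
    have h5 : (((i + 1 : ℕ) : ℝ)) ^ 3 ≤ 8 * (i : ℝ) ^ 3 := by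
      have h6 : (((i + 1 : ℕ) : ℝ)) ≤ 2 * i := by push_cast; linarith
      calc (((i + 1 : ℕ) : ℝ)) ^ 3 ≤ (2 * (i : ℝ)) ^ 3 := pow_le_pow_left₀ (by positivity) h6 3
        _ = 8 * (i : ℝ) ^ 3 := by ring
    unfold tau
    rw [div_le_iff₀ (by positivity)]
    have h7 : c / 32 * (hh δ i : ℝ) * (2 : ℝ) ^ ((ε - 1) * (i : ℝ)) ≤
        c / 32 * (hh δ (i + 1) : ℝ) * (2 * (2 : ℝ) ^ ((ε - 1) * ((i + 1 : ℕ) : ℝ))) := by
      gcongr
    have hX : 0 ≤ c / 32 * (hh δ (i + 1) : ℝ) * (2 : ℝ) ^ ((ε - 1) * ((i + 1 : ℕ) : ℝ)) := by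
      have := (hhpos (i + 1)).le
      positivity
    set X := c / 32 * (hh δ (i + 1) : ℝ) * (2 : ℝ) ^ ((ε - 1) * ((i + 1 : ℕ) : ℝ)) with hXd
    have hY : (0 : ℝ) < ((i + 1 : ℕ) : ℝ) ^ 3 := by positivity
    have h8 : c / 32 * (hh δ (i + 1) : ℝ) * (2 * (2 : ℝ) ^ ((ε - 1) * ((i + 1 : ℕ) : ℝ))) = 2 * X := by
      rw [hXd]; ring
    rw [h8] at h7
    refine h7.trans ?_
    rw [show 16 * (X / (((i + 1 : ℕ) : ℝ)) ^ 3) * (i : ℝ) ^ 3 = 2 * X * (8 * (i : ℝ) ^ 3) / (((i + 1 : ℕ) : ℝ)) ^ 3 by ring,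
      le_div_iff₀ hY]
    exact mul_le_mul_of_nonneg_left h5 (by positivity)
  have hABSi : ∀ i, i0 ≤ i → ∀ R : ℕ, |SS f (2 ^ i)| ≤ tau c ε δ i + 3 * tau c ε δ i * R →
      (((range (nc δ i)).filter (fun k => tau c ε δ i < |SS f (2 ^ i + k * hh δ i)|)).card ≤
        R + 2 * (BB c δ i).card) ∧
      (∀ k, k ≤ nc δ i → |SS f (2 ^ i + k * hh δ i)| ≤
        tau c ε δ i + 3 * tau c ε δ i * (R + (BB c δ i).card)) ∧
      (R + 2 * (BB c δ i).card < nc δ i → |SS f (2 ^ (i + 1))| ≤
        tau c ε δ i + 3 * tau c ε δ i * (BB c δ i).card) := by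
    intro i hi R hR
    have h1 := hABS (fun k => |SS f (2 ^ i + k * hh δ i)|) (tau c ε δ i) (nc δ i) R (BB c δ i) (htau i hi)
      (fun k hk hkb => (hstep i hi k hk).2 hkb)
      (fun k hk _ => by
        have h2 := (hstep i hi k hk).1 (hh δ i) le_rfl
        have h3 : 2 ^ i + (k + 1) * hh δ i = 2 ^ i + k * hh δ i + hh δ i := by ring
        rw [h3]
        exact h2)
      (by simpa using hR)
    refine ⟨h1.1, h1.2.1, fun h => ?_⟩
    have h2 := h1.2.2 h
    have h3 : 2 ^ i + nc δ i * hh δ i = 2 ^ (i + 1) := by rw [(hN i).1]; ring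
    rw [h3] at h2
    exact h2
  have hBBr : ∀ i, i0 ≤ i → ((BB c δ i).card : ℝ) ≤ b i := fun i hi => hBB i hi
  -- the induction
  have hind : ∀ i, i0 ≤ i → ∃ R : ℕ, |SS f (2 ^ i)| ≤ tau c ε δ i + 3 * tau c ε δ i * R ∧
      R + 2 * (BB c δ i).card < nc δ i ∧ (i0 < i → (R : ℝ) ≤ 24 * b i) := by
    intro i hi
    induction i, hi using Nat.le_induction with
    | base =>
      have ht := htau i0 le_rfl
      refine ⟨⌈1 / (3 * tau c ε δ i0)⌉₊, ?_, ?_, fun h => absurd h (lt_irrefl _)⟩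
      · rw [hf1, abs_one]
        have h1 := Nat.le_ceil (1 / (3 * tau c ε δ i0))
        rw [div_le_iff₀ (by positivity)] at h1
        nlinarith
      · have h1 := (Nat.ceil_lt_add_one (a := 1 / (3 * tau c ε δ i0)) (by positivity)).le
        have h2 : 1 / (3 * tau c ε δ i0) ≤ (nc δ i0 : ℝ) / 4 := by
          rw [div_le_iff₀ (by positivity)]
          have h3 : (4 : ℝ) / 3 ≤ (nc δ i0 : ℝ) * tau c ε δ i0 := by
            have h4 := (hI i0 hI0).1
            have h5 : (nc δ i0 : ℝ) * tau c ε δ i0 = c / 32 * (2 : ℝ) ^ (ε * (i0 : ℝ)) / (i0 : ℝ) ^ 3 := by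
              have h6 : (nc δ i0 : ℝ) * hh δ i0 = (2 : ℝ) ^ i0 := by exact_mod_cast (hN i0).1
              have h7 : (2 : ℝ) ^ (ε * (i0 : ℝ)) = (2 : ℝ) ^ i0 * (2 : ℝ) ^ ((ε - 1) * (i0 : ℝ)) := by
                rw [← Real.rpow_natCast, ← Real.rpow_add (by norm_num)]
                congr 1
                ring
              unfold tau
              rw [h7, ← h6]
              ring
            rw [h5]
            exact h4
          nlinarith
        have h3 := hBBr i0 le_rfl
        have h4 := h26 i0 le_rfl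
        have h5 := hb1 i0
        have h6 : ((⌈1 / (3 * tau c ε δ i0)⌉₊ + 2 * (BB c δ i0).card : ℕ) : ℝ) < nc δ i0 := by
          push_cast
          linarith
        exact_mod_cast h6
    | succ i hi ih =>
      obtain ⟨R, hR, hRN, -⟩ := ih
      have h1 := (hABSi i hi R hR).2.2 hRN
      have ht := htau i hi
      have ht' := htau (i + 1) (by omega)
      have h2 := hBBr i hi
      have h3 := hb1 i
      have h4 := htau16 i hi
      have h5 : |SS f (2 ^ (i + 1))| ≤ 64 * b i * tau c ε δ (i + 1) := by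
        have h6 : tau c ε δ i + 3 * tau c ε δ i * (BB c δ i).card ≤ 4 * b i * tau c ε δ i := by
          have : tau c ε δ i * (BB c δ i).card ≤ tau c ε δ i * b i := mul_le_mul_of_nonneg_left h2 ht.le
          nlinarith
        have h7 : 4 * b i * tau c ε δ i ≤ 4 * b i * (16 * tau c ε δ (i + 1)) :=
          mul_le_mul_of_nonneg_left h4 (by positivity)
        linarith
      have hbb := hbm i
      refine ⟨⌈64 * b i / 3⌉₊, ?_, ?_, fun _ => ?_⟩
      · have h6 := Nat.le_ceil (64 * b i / 3)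
        have h7 := mul_le_mul_of_nonneg_left h6 ht'.le
        nlinarith
      · have h6 := (Nat.ceil_lt_add_one (a := 64 * b i / 3) (by positivity)).le
        have h7 := hBBr (i + 1) (by omega)
        have h8 := h26 (i + 1) (by omega)
        have h9 : ((⌈64 * b i / 3⌉₊ + 2 * (BB c δ (i + 1)).card : ℕ) : ℝ) < nc δ (i + 1) := by
          push_cast
          linarith
        exact_mod_cast h9
      · have h6 := (Nat.ceil_lt_add_one (a := 64 * b i / 3) (by positivity)).le
        linarith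
  obtain ⟨R, hR, -, hR24⟩ := hind i1 hi1.le
  have h24 := hR24 hi1
  have h1 := hABSi i1 hi1.le R hR
  have h2 := hBBr i1 hi1.le
  have h3 := hb1 i1
  have ht := htau i1 hi1.le
  constructor
  · have h4 : ((((range (nc δ i1)).filter (fun k => tau c ε δ i1 < |SS f (2 ^ i1 + k * hh δ i1)|)).card : ℕ) : ℝ) ≤
        ((R + 2 * (BB c δ i1).card : ℕ) : ℝ) := by exact_mod_cast h1.1
    push_cast at h4
    change _ ≤ 50 * b i1
    linarith
  · intro k hk
    have h4 := h1.2.1 k hk.le
    have h5 : 3 * tau c ε δ i1 * (R + (BB c δ i1).card) ≤ 3 * tau c ε δ i1 * (25 * b i1) :=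
      mul_le_mul_of_nonneg_left (by linarith) (by positivity)
    change _ ≤ 150 * (tau c ε δ i1 * b i1)
    nlinarith [mul_le_mul_of_nonneg_left h3 ht.le]

end J6H67.DB
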