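import Pool.Agent.J6H67.DB.Stm

/-!
# Project DB: GW, SPL (helper19)
-/

set_option autoImplicit false

namespace J6H67.DB

open Q236.CM

theorem gw_nonneg_GW (i0 p : ℕ) : 0 ≤ gw i0 p := by
  unfold gw
  split_ifs
  · positivity
  · exact le_rfl

theorem gw_cases (i0 p : ℕ) (h3 : 3 ≤ i0) :
    gw i0 p = 0 ∨ (2 ≤ Real.log p ∧ gw i0 p = 1 / Real.log p ^ 2) := by
  unfold gw
  split_ifs with h
  · right
    refine ⟨?_, rfl⟩
    have h1 : (2 : ℝ) ^ i0 ≤ (p : ℝ) := by exact_mod_cast h.le
    have h2 : Real.log ((2 : ℝ) ^ i0) ≤ Real.log p :=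
      Real.log_le_log (by positivity) h1
    rw [Real.log_pow] at h2
    have h4 : (3 : ℝ) ≤ (i0 : ℝ) := by exact_mod_cast h3
    have h5 := Real.log_two_gt_d9
    nlinarith
  · exact Or.inl rfl

theorem gw_aux (i0 : ℕ) (h3 : 3 ≤ i0) (n : ℕ) (h0 : n ≠ 0) (h1 : n ≠ 1) :
    LP (gw i0) n = 0 ∨ (2 ≤ Real.log n ∧ LP (gw i0) n ≤ 1 / Real.log n ^ 2) := by
  induction n using induction_on_primes with
  | zero => exact absurd rfl h0
  | one => exact absurd rfl h1
  | prime_mul p a hp ih =>
    have ha : a ≠ 0 := by rintro rfl; simp at h0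
    rw [LP_mul _ hp.ne_zero ha, LP_prime _ hp]
    rcases gw_cases i0 p h3 with hg | ⟨hlp, hg⟩
    · left
      rw [hg, zero_mul]
    · by_cases ha1 : a = 1
      · right
        subst ha1
        rw [mul_one, LP_one, mul_one, hg]
        exact ⟨hlp, le_rfl⟩
      · rcases ih ha ha1 with hz | ⟨hla, hGa⟩
        · left
          rw [hz, mul_zero]
        · right
          have hp0 : (p : ℝ) ≠ 0 := by exact_mod_cast hp.ne_zero
          have ha0 : (a : ℝ) ≠ 0 := by exact_mod_cast ha
          have hlog : Real.log ((p * a : ℕ) : ℝ) = Real.log p + Real.log a := by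
            push_cast
            exact Real.log_mul hp0 ha0
          rw [hlog, hg]
          refine ⟨by linarith, ?_⟩
          have hnn : (0 : ℝ) ≤ 1 / Real.log p ^ 2 := by positivity
          refine (mul_le_mul_of_nonneg_left hGa hnn).trans ?_
          rw [one_div_mul_one_div, ← mul_pow]
          have h5 : Real.log p + Real.log a ≤ Real.log p * Real.log a := by nlinarith
          have h6 : (0 : ℝ) < Real.log p + Real.log a := by linarith
          exact one_div_le_one_div_of_le (by positivity) (pow_le_pow_left₀ h6.le h5 2)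

theorem t_GW : S_GW := by
  intro i0 n h3 h2
  rcases gw_aux i0 h3 n (by omega) (by omega) with h | ⟨_, h⟩
  · rw [h]
    positivity
  · exact h

theorem t_SPL : S_SPL := by
  classical
  intro s n hs hn
  have hex : ∃ u : ℕ, s ≤ u ∧ u ∣ n := ⟨n, hn, dvd_rfl⟩
  obtain ⟨hu1, hu2⟩ := Nat.find_spec hex
  have hmin := fun w (hw : w < Nat.find hex) => Nat.find_min hex hw
  set u := Nat.find hex with hu
  obtain ⟨v, hv⟩ := hu2
  by_cases hsv : s ≤ v
  · exact Or.inl ⟨u, v, hv, hu1, hsv⟩
  · right
    have hvs : v < s := not_le.1 hsv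
    have hu1' : u ≠ 1 := by
      intro h
      rw [h, one_mul] at hv
      omega
    have hp := Nat.minFac_prime hu1'
    obtain ⟨w, hw⟩ := Nat.minFac_dvd u
    have hw0 : 0 < w := by
      rcases Nat.eq_zero_or_pos w with h | h
      · rw [h, mul_zero] at hw
        omega
      · exact h
    refine ⟨u.minFac, hp, (Nat.minFac_dvd u).trans ⟨v, hv⟩, ?_⟩
    have hwu : w < u := by
      have h1 : 2 * w ≤ u.minFac * w := Nat.mul_le_mul_right w hp.two_le
      rw [← hw] at h1
      omega
    have hws : w < s := by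
      by_contra hcon
      refine hmin w hwu ⟨not_lt.1 hcon, ⟨u.minFac * v, ?_⟩⟩
      rw [hv]
      conv_lhs => rw [hw]
      ring
    have hnp : n / u.minFac = w * v := by
      apply Nat.div_eq_of_eq_mul_right hp.pos
      rw [hv]
      conv_lhs => rw [hw]
      ring
    rw [hnp, pow_two]
    calc w * v ≤ w * s := Nat.mul_le_mul_left w hvs.le
      _ < s * s := Nat.mul_lt_mul_of_pos_right hws (by omega)

end J6H67.DB
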