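import Pool.Agent.J6H67.DB.Stm

/-!
# Project DB: composites with a large prime factor in short intervals (`S_KA`)
-/

set_option autoImplicit false

namespace J6H67.DB

open Finset Pool.Agent.W76.MO Pool.Agent.Q240.KS
open scoped Classical

namespace KAx

theorem gw_nonneg (i0 p : ℕ) : 0 ≤ gw i0 p := by
  unfold gw
  split_ifs
  · positivity
  · exact le_rfl

theorem gw_le {i0 p i : ℕ} (hi : 1 ≤ i) (h : 2 ^ i < p ^ 2) : gw i0 p ≤ 9 / (i : ℝ) ^ 2 := by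
  unfold gw
  split_ifs
  · have hp : 0 < p := by
      rcases Nat.eq_zero_or_pos p with h0 | h0
      · simp [h0] at h
      · exact h0
    have h1 : (2 : ℝ) ^ i ≤ (p : ℝ) ^ 2 := by exact_mod_cast h.le
    have h2 := Real.log_le_log (by positivity) h1
    rw [Real.log_pow, Real.log_pow] at h2
    have h3 := Real.log_two_gt_d9
    have hi0 : (0 : ℝ) < i := by exact_mod_cast hi
    have h4 : (i : ℝ) ≤ 3 * Real.log p := by
      push_cast at h2
      nlinarith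
    have h5 : (0 : ℝ) < Real.log p := by linarith
    rw [div_le_div_iff₀ (by positivity) (by positivity)]
    nlinarith
  · positivity

theorem sq_lt {i m p e : ℕ} (he : e ≤ i) (hm : m < 2 ^ (e / 4) ^ 1 * 2 ^ (e / 4)) (h : 2 ^ i < p * m) :
    2 ^ i < p ^ 2 := by
  rw [pow_one] at hm
  have h1 : 2 ^ (e / 4) * 2 ^ (e / 4) * (2 ^ (e / 4) * 2 ^ (e / 4)) ≤ 2 ^ i := by
    rw [← pow_add, ← pow_add]
    exact Nat.pow_le_pow_right (by norm_num) (by omega)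
  have hp : 0 < p := by
    rcases Nat.eq_zero_or_pos p with h0 | h0
    · simp [h0] at h
    · exact h0
  have h2 : 2 ^ i < p * (2 ^ (e / 4) * 2 ^ (e / 4)) :=
    h.trans (Nat.mul_lt_mul_of_pos_left hm hp)
  have h3 : 2 ^ i * 2 ^ i < p ^ 2 * 2 ^ i := by
    calc 2 ^ i * 2 ^ i < p * (2 ^ (e / 4) * 2 ^ (e / 4)) * (p * (2 ^ (e / 4) * 2 ^ (e / 4))) :=
          Nat.mul_lt_mul'' h2 h2
      _ = p ^ 2 * (2 ^ (e / 4) * 2 ^ (e / 4) * (2 ^ (e / 4) * 2 ^ (e / 4))) := by ring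
      _ ≤ _ := Nat.mul_le_mul_left _ h1
  exact Nat.lt_of_mul_lt_mul_right h3

/-- the counting -/
theorem card_le {CB θ : ℝ} {i e a m : ℕ} (hCB : 0 < CB) (hi : 1 ≤ i)
    (hB : ∀ a L : ℕ, (2 : ℝ) ^ (θ / 3 * i) ≤ L →
      (((Ioc a (a + L)).filter (fun n => Rough ((2 : ℝ) ^ ((1 / 2 : ℝ) * i)) n)).card : ℝ) ≤ CB * L / i)
    (he : e ≤ i) (heθ : θ * i < e + 1) (hθi : 3 ≤ θ * i) (ha : 2 ^ i ≤ a)
    (hm2 : 2 ≤ m) (hm : m < 2 ^ (e / 4) * 2 ^ (e / 4)) :
    (((Ioc a (a + 2 ^ e)).filter (fun n => m ∣ n ∧ (n / m).Prime)).card : ℝ) ≤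
      2 * CB * 2 ^ e / (m * i) := by
  have hm0 : 0 < m := by omega
  have hi0 : (0 : ℝ) < i := by exact_mod_cast hi
  have hmR : (0 : ℝ) < m := by exact_mod_cast hm0
  have hmh : m ≤ 2 ^ e := by
    refine hm.le.trans ?_
    rw [← pow_add]
    exact Nat.pow_le_pow_right (by norm_num) (by omega)
  -- the image
  have h1 : ((Ioc a (a + 2 ^ e)).filter (fun n => m ∣ n ∧ (n / m).Prime)).card ≤
      ((Ioc (a / m) (a / m + (2 ^ e / m + 1))).filter
        (fun n => Rough ((2 : ℝ) ^ ((1 / 2 : ℝ) * i)) n)).card := by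
    apply Finset.card_le_card_of_injOn (fun n => n / m)
    · intro n hn
      rw [Finset.mem_coe, Finset.mem_filter, Finset.mem_Ioc] at hn
      obtain ⟨⟨hn1, hn2⟩, ⟨p, rfl⟩, hp⟩ := hn
      rw [Nat.mul_div_cancel_left p hm0] at hp
      show m * p / m ∈ _
      rw [Nat.mul_div_cancel_left p hm0, Finset.mem_coe, Finset.mem_filter, Finset.mem_Ioc]
      refine ⟨⟨?_, ?_⟩, ?_⟩
      · rw [Nat.div_lt_iff_lt_mul hm0, mul_comm]
        exact hn1
      · have h2 : p ≤ (a + 2 ^ e) / m := by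
          rw [Nat.le_div_iff_mul_le hm0, mul_comm]
          exact hn2
        have h3 : (a + 2 ^ e) / m ≤ a / m + 2 ^ e / m + 1 := by
          have := Nat.add_div hm0 (a := a) (b := 2 ^ e)
          rw [this]
          split_ifs <;> omega
        omega
      · intro q hq hqp
        have h4 : q = p := (Nat.prime_dvd_prime_iff_eq hq hp).1 hqp
        rw [h4]
        have h5 : 2 ^ i < p ^ 2 := by
          refine sq_lt (m := m) he (by rw [pow_one]; exact hm) ?_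
          rw [mul_comm]
          exact lt_of_le_of_lt ha hn1
        have h6 : ((2 : ℝ) ^ ((1 / 2 : ℝ) * i)) ^ 2 ≤ (p : ℝ) ^ 2 := by
          rw [← Real.rpow_natCast, ← Real.rpow_mul (by norm_num)]
          have e1 : (1 / 2 : ℝ) * i * ((2 : ℕ) : ℝ) = (i : ℝ) := by push_cast; ring
          rw [e1, Real.rpow_natCast]
          exact_mod_cast h5.le
        exact (pow_le_pow_iff_left₀ (by positivity) (by positivity) two_ne_zero).1 h6
    · intro x hx y hy hxy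
      rw [Finset.mem_coe, Finset.mem_filter] at hx hy
      have h2 : x / m = y / m := hxy
      rw [← Nat.div_mul_cancel hx.2.1, ← Nat.div_mul_cancel hy.2.1, h2]
  -- the length
  have hL1 : (2 : ℝ) ^ (θ / 3 * i) ≤ ((2 ^ e / m + 1 : ℕ) : ℝ) := by
    have h2 : (2 : ℝ) ^ e / m ≤ ((2 ^ e / m + 1 : ℕ) : ℝ) := by
      have h3 : 2 ^ e < (2 ^ e / m + 1) * m := by
        rw [mul_comm]
        exact Nat.lt_mul_div_succ _ hm0
      rw [div_le_iff₀ hmR]
      exact_mod_cast h3.le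
    have h4 : (2 : ℝ) ^ (θ / 3 * i) * m ≤ 2 ^ e := by
      have h5 : (m : ℝ) ≤ (2 : ℝ) ^ ((e : ℝ) / 2) := by
        have h6 : (m : ℝ) ≤ (2 : ℝ) ^ (e / 4) * 2 ^ (e / 4) := by exact_mod_cast hm.le
        refine h6.trans ?_
        rw [← pow_add, ← Real.rpow_natCast]
        apply Real.rpow_le_rpow_of_exponent_le (by norm_num)
        have h7 : 4 * (e / 4) ≤ e := Nat.mul_div_le e 4
        have h8 : (4 : ℝ) * ((e / 4 : ℕ) : ℝ) ≤ e := by exact_mod_cast h7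
        push_cast
        linarith
      calc (2 : ℝ) ^ (θ / 3 * i) * m ≤ (2 : ℝ) ^ (θ / 3 * i) * (2 : ℝ) ^ ((e : ℝ) / 2) := by
            gcongr
        _ = (2 : ℝ) ^ (θ / 3 * i + (e : ℝ) / 2) := by
            rw [← Real.rpow_add (by norm_num)]
        _ ≤ (2 : ℝ) ^ (e : ℝ) := by
            apply Real.rpow_le_rpow_of_exponent_le (by norm_num)
            linarith
        _ = _ := Real.rpow_natCast _ _
    rw [← le_div_iff₀ hmR] at h4
    exact h4.trans h2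
  have hL2 : ((2 ^ e / m + 1 : ℕ) : ℝ) ≤ 2 * 2 ^ e / m := by
    have h3 : (2 ^ e / m + 1) * m ≤ 2 * 2 ^ e := by
      have h4 : 2 ^ e / m * m ≤ 2 ^ e := Nat.div_mul_le_self _ _
      nlinarith
    rw [le_div_iff₀ hmR]
    exact_mod_cast h3
  have h2 := hB (a / m) (2 ^ e / m + 1) hL1
  calc (((Ioc a (a + 2 ^ e)).filter (fun n => m ∣ n ∧ (n / m).Prime)).card : ℝ) ≤
      (((Ioc (a / m) (a / m + (2 ^ e / m + 1))).filter
        (fun n => Rough ((2 : ℝ) ^ ((1 / 2 : ℝ) * i)) n)).card : ℝ) := by exact_mod_cast h1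
    _ ≤ CB * ((2 ^ e / m + 1 : ℕ) : ℝ) / i := h2
    _ ≤ CB * (2 * 2 ^ e / m) / i := by gcongr
    _ = _ := by field_simp

end KAx

open KAx in
/-- **KA** -/
theorem t_KA (hBTR : Pool.Agent.W76.MO.BTR) (hTS : S_TS) : S_KA := by
  intro δ hδ1 hδ2
  obtain ⟨θ, hθ⟩ : ∃ θ : ℝ, θ = 1 / 2 - δ := ⟨_, rfl⟩
  have hθ0 : 0 < θ := by linarith
  have hθ1 : θ < 1 := by linarith
  obtain ⟨CB, hCB, iB, hiB, hB⟩ := hBTR (1 / 2) (θ / 3) (by norm_num) (by positivity)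
  refine ⟨18 * CB, by positivity, max (max iB 3) ⌈3 / θ⌉₊,
    (le_max_right _ _).trans (le_max_left _ _), ?_⟩
  intro i0 i hi0 hi a ha
  have hiB' : iB ≤ i := ((le_max_left _ _).trans (le_max_left _ _)).trans hi
  have hi3 : 3 ≤ i := ((le_max_right _ _).trans (le_max_left _ _)).trans hi
  have hθi : 3 ≤ θ * i := by
    have h1 : 3 / θ ≤ i := (Nat.le_ceil _).trans (by exact_mod_cast (le_max_right _ _).trans hi)
    rw [div_le_iff₀ hθ0] at h1
    linarith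
  have hi1 : 1 ≤ i := by omega
  have hiR : (0 : ℝ) < i := by exact_mod_cast hi1
  obtain ⟨e, he⟩ : ∃ e : ℕ, e = ⌊θ * i⌋₊ := ⟨_, rfl⟩
  have hhe : hh δ i = 2 ^ e := by unfold hh; rw [he, hθ]
  have hse : sq δ i ^ 2 = 2 ^ (e / 4) * 2 ^ (e / 4) := by unfold sq; rw [he, hθ]; ring
  have hei : e ≤ i := by
    have h1 : (e : ℝ) ≤ θ * i := by rw [he]; exact Nat.floor_le (by positivity)
    have h2 : θ * i ≤ 1 * i := by gcongr
    have h3 : (e : ℝ) ≤ i := by linarith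
    exact_mod_cast h3
  have heθ : θ * i < e + 1 := by rw [he]; exact Nat.lt_floor_add_one _
  rw [hhe, hse]
  set s2 : ℕ := 2 ^ (e / 4) * 2 ^ (e / 4) with hs2
  set G : ℕ → ℝ := Q236.CM.LP (gw i0) with hG
  have hG0 : ∀ n, 0 ≤ G n := fun n => Q236.CM.LP_nonneg _ (gw_nonneg i0) n
  -- first bound
  have h1 : ∑ n ∈ (Ioc a (a + 2 ^ e)).filter (fun n => ∃ p : ℕ, p.Prime ∧ p ∣ n ∧ 1 < n / p ∧
      n / p < s2), G n ≤ ∑ n ∈ Ioc a (a + 2 ^ e),
        ∑ m ∈ (Ico 2 s2).filter (fun m => m ∣ n ∧ (n / m).Prime), G m * (9 / (i : ℝ) ^ 2) := by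
    refine (Finset.sum_le_sum (g := fun n => ∑ m ∈ (Ico 2 s2).filter
      (fun m => m ∣ n ∧ (n / m).Prime), G m * (9 / (i : ℝ) ^ 2)) fun n hn => ?_).trans
      (Finset.sum_le_sum_of_subset_of_nonneg (Finset.filter_subset _ _) fun n _ _ =>
        Finset.sum_nonneg fun m _ => mul_nonneg (hG0 m) (by positivity))
    rw [Finset.mem_filter, Finset.mem_Ioc] at hn
    obtain ⟨⟨hn1, hn2⟩, p, hp, hpn, h2, h3⟩ := hn
    have hn0 : n ≠ 0 := by omega
    have e1 : n / (n / p) = p := Nat.div_div_self hpn hn0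
    have hmem : n / p ∈ (Ico 2 s2).filter (fun m => m ∣ n ∧ (n / m).Prime) := by
      rw [Finset.mem_filter, Finset.mem_Ico]
      exact ⟨⟨h2, h3⟩, Nat.div_dvd_of_dvd hpn, by rw [e1]; exact hp⟩
    refine le_trans ?_ (Finset.single_le_sum (f := fun m => G m * (9 / (i : ℝ) ^ 2))
      (fun m _ => mul_nonneg (hG0 m) (by positivity)) hmem)
    show G n ≤ G (n / p) * (9 / (i : ℝ) ^ 2)
    rw [hG, Q236.CM.LP_div _ hn0 hp hpn, mul_comm]
    apply mul_le_mul_of_nonneg_left _ (hG0 _)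
    apply gw_le hi1
    refine sq_lt (m := n / p) hei (by rw [pow_one]; exact h3) ?_
    rw [mul_comm, Nat.div_mul_cancel hpn]
    exact lt_of_le_of_lt ha hn1
  -- interchange
  have h2 : ∑ n ∈ Ioc a (a + 2 ^ e), ∑ m ∈ (Ico 2 s2).filter (fun m => m ∣ n ∧ (n / m).Prime),
      G m * (9 / (i : ℝ) ^ 2) = ∑ m ∈ Ico 2 s2,
      (((Ioc a (a + 2 ^ e)).filter (fun n => m ∣ n ∧ (n / m).Prime)).card : ℝ) *
        (G m * (9 / (i : ℝ) ^ 2)) := by
    rw [Finset.sum_comm' (s' := fun m => (Ioc a (a + 2 ^ e)).filter (fun n => m ∣ n ∧ (n / m).Prime))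
      (t' := Ico 2 s2)]
    · refine Finset.sum_congr rfl fun m _ => ?_
      rw [Finset.sum_const, nsmul_eq_mul]
    · intro n m
      simp only [Finset.mem_filter]
      tauto
  have h3 : ∑ m ∈ Ico 2 s2,
      (((Ioc a (a + 2 ^ e)).filter (fun n => m ∣ n ∧ (n / m).Prime)).card : ℝ) *
        (G m * (9 / (i : ℝ) ^ 2)) ≤ ∑ m ∈ Ico 2 s2, 18 * CB * 2 ^ e / (i : ℝ) ^ 3 * (G m / m) := by
    refine Finset.sum_le_sum fun m hm => ?_
    rw [Finset.mem_Ico] at hm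
    have hmR : (0 : ℝ) < m := by exact_mod_cast (by omega : 0 < m)
    have h4 := card_le hCB hi1 (hB i hiB') hei heθ hθi ha hm.1 hm.2
    calc (((Ioc a (a + 2 ^ e)).filter (fun n => m ∣ n ∧ (n / m).Prime)).card : ℝ) *
        (G m * (9 / (i : ℝ) ^ 2)) ≤ 2 * CB * 2 ^ e / (m * i) * (G m * (9 / (i : ℝ) ^ 2)) :=
          mul_le_mul_of_nonneg_right h4 (mul_nonneg (hG0 m) (by positivity))
      _ = _ := by
          field_simp
          ring
  have h4 : ∑ m ∈ Ico 2 s2, G m / m ≤ 4 / i0 := by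
    refine le_trans (Finset.sum_le_sum_of_subset_of_nonneg ?_ fun m _ _ => ?_) (hTS i0 s2 hi0)
    · intro m hm
      rw [Finset.mem_Ico] at hm
      rw [Finset.mem_Icc]
      exact ⟨hm.1, hm.2.le⟩
    · exact div_nonneg (hG0 m) (Nat.cast_nonneg _)
  calc ∑ n ∈ (Ioc a (a + 2 ^ e)).filter (fun n => ∃ p : ℕ, p.Prime ∧ p ∣ n ∧ 1 < n / p ∧
      n / p < s2), G n ≤ ∑ m ∈ Ico 2 s2, 18 * CB * 2 ^ e / (i : ℝ) ^ 3 * (G m / m) :=
        h1.trans (h2.le.trans h3)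
    _ = 18 * CB * 2 ^ e / (i : ℝ) ^ 3 * ∑ m ∈ Ico 2 s2, G m / m := by rw [Finset.mul_sum]
    _ ≤ 18 * CB * 2 ^ e / (i : ℝ) ^ 3 * (4 / i0) := by gcongr
    _ = _ := by push_cast; ring

end J6H67.DB
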