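import Pool.Agent.J6H67.DB.Stm

/-! Module DB-6 (helper17): KEY. -/

set_option autoImplicit false

namespace J6H67.DB

open Finset Pool.Agent.W76.MO Pool.Agent.Q240.KS
open scoped Classical

theorem gw_nn (i0 p : ℕ) : 0 ≤ gw i0 p := by
  unfold gw
  split_ifs
  · positivity
  · exact le_rfl

theorem log_sq_ge {θ : ℝ} (hθ0 : 0 < θ) (δ : ℝ) (hδ : θ = 1 / 2 - δ) (i : ℕ) (hi : 10 / θ ≤ i) :
    2 ≤ sq δ i ∧ θ / 10 * i ≤ Real.log (sq δ i) := by
  have h1 : 10 ≤ θ * i := by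
    rw [div_le_iff₀ hθ0] at hi
    linarith
  set m := ⌊(1 / 2 - δ) * i⌋₊ with hm
  have hm1 : θ * i - 1 ≤ m := by
    have := Nat.sub_one_lt_floor ((1 / 2 - δ) * (i : ℝ))
    rw [← hm, ← hδ] at this
    linarith
  have hq : (m : ℝ) ≤ 4 * ((m / 4 : ℕ) : ℝ) + 3 := by
    have : m ≤ 4 * (m / 4) + 3 := by omega
    exact_mod_cast this
  have hq1 : 1 ≤ m / 4 := by
    have : (9 : ℝ) ≤ m := by linarith
    have h9 : 9 ≤ m := by exact_mod_cast this
    omega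
  constructor
  · unfold sq
    rw [← hm]
    calc 2 = 2 ^ 1 := by norm_num
      _ ≤ 2 ^ (m / 4) := Nat.pow_le_pow_right (by norm_num) hq1
  · have h2 : Real.log (sq δ i) = ((m / 4 : ℕ) : ℝ) * Real.log 2 := by
      unfold sq
      rw [← hm]
      push_cast
      rw [Real.log_pow]
    rw [h2]
    have h3 : (0.69 : ℝ) ≤ Real.log 2 := by
      have := Real.log_two_gt_d9
      linarith
    have h4 : (0 : ℝ) ≤ ((m / 4 : ℕ) : ℝ) := Nat.cast_nonneg _
    have h5 : ((m / 4 : ℕ) : ℝ) * 0.69 ≤ ((m / 4 : ℕ) : ℝ) * Real.log 2 :=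
      mul_le_mul_of_nonneg_left h3 h4
    nlinarith

theorem t_KEY (hGW : S_GW) (hSPL : S_SPL) (hKA : S_KA) : S_KEY := by
  intro δ h1 h2 κ hκ
  obtain ⟨C, hC, I0, hI0, hK⟩ := hKA δ h1 h2
  obtain ⟨θ, hθ⟩ : ∃ θ : ℝ, θ = 1 / 2 - δ := ⟨_, rfl⟩
  have hθ0 : 0 < θ := by rw [hθ]; linarith
  have hθ1 : θ < 1 := by rw [hθ]; linarith
  refine ⟨I0 + ⌈10 / θ⌉₊ + ⌈2 / (κ * (θ / 10) ^ 4)⌉₊ + ⌈8 * C / κ⌉₊, by omega, ?_⟩
  intro i0 i hi0 hi a ha
  have hi03 : 3 ≤ i0 := by omega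
  have hiI : I0 ≤ i := by omega
  have hi10 : 10 / θ ≤ i := by
    have e1 := Nat.le_ceil (10 / θ)
    have e2 : ⌈10 / θ⌉₊ ≤ i := by omega
    have e3 : ((⌈10 / θ⌉₊ : ℕ) : ℝ) ≤ i := by exact_mod_cast e2
    linarith
  have hiκ : 2 / (κ * (θ / 10) ^ 4) ≤ i := by
    have e1 := Nat.le_ceil (2 / (κ * (θ / 10) ^ 4))
    have e2 : ⌈2 / (κ * (θ / 10) ^ 4)⌉₊ ≤ i := by omega
    have e3 : ((⌈2 / (κ * (θ / 10) ^ 4)⌉₊ : ℕ) : ℝ) ≤ i := by exact_mod_cast e2
    linarith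
  have hi0C : 8 * C / κ ≤ i0 := by
    have e1 := Nat.le_ceil (8 * C / κ)
    have e2 : ⌈8 * C / κ⌉₊ ≤ i0 := by omega
    have e3 : ((⌈8 * C / κ⌉₊ : ℕ) : ℝ) ≤ i0 := by exact_mod_cast e2
    linarith
  obtain ⟨hs2, hlogs⟩ := log_sq_ge hθ0 δ hθ i hi10
  have hipos : (0 : ℝ) < i := by
    have : 0 < i := by omega
    exact_mod_cast this
  have hi0pos : (0 : ℝ) < i0 := by
    have : 0 < i0 := by omega
    exact_mod_cast this
  have hci : 0 < θ / 10 * i := by positivity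
  have hsi : sq δ i ≤ 2 ^ i := by
    unfold sq
    apply Nat.pow_le_pow_right (by norm_num)
    refine (Nat.div_le_self _ _).trans ?_
    apply Nat.floor_le_of_le
    rw [← hθ]
    nlinarith
  have hGnn : ∀ n, 0 ≤ Q236.CM.LP (gw i0) n := Q236.CM.LP_nonneg _ (gw_nn i0)
  set Qf := (Ioc a (a + hh δ i)).filter (fun n => ∃ p : ℕ, p.Prime ∧ p ∣ n ∧ 1 < n / p ∧
    n / p < sq δ i ^ 2) with hQf
  have hKi := hK i0 i hi03 hiI a ha
  have key : ∀ n ∈ (Ioc a (a + hh δ i)).filter (fun n => ¬ n.Prime),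
      Q236.CM.LP (gw i0) n ≤ 1 / (θ / 10 * i) ^ 4 +
        (if n ∈ Qf then Q236.CM.LP (gw i0) n else 0) := by
    intro n hn
    rw [Finset.mem_filter, Finset.mem_Ioc] at hn
    obtain ⟨⟨hn1, hn2⟩, hnp⟩ := hn
    have hsn : sq δ i ≤ n := by omega
    rcases hSPL (sq δ i) n (by omega) hsn with ⟨u, v, huv, hu, hv⟩ | ⟨p, hp, hpn, hlt⟩
    · have e1 : Q236.CM.LP (gw i0) n = Q236.CM.LP (gw i0) u * Q236.CM.LP (gw i0) v := by
        rw [huv, Q236.CM.LP_mul _ (by omega) (by omega)]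
      have hb : ∀ w : ℕ, sq δ i ≤ w → Q236.CM.LP (gw i0) w ≤ 1 / (θ / 10 * i) ^ 2 := by
        intro w hw
        refine (hGW i0 w hi03 (by omega)).trans ?_
        apply one_div_le_one_div_of_le (by positivity)
        apply pow_le_pow_left₀ hci.le
        refine hlogs.trans ?_
        apply Real.log_le_log
        · have : 0 < sq δ i := by omega
          exact_mod_cast this
        · exact_mod_cast hw
      have e2 : Q236.CM.LP (gw i0) n ≤ 1 / (θ / 10 * i) ^ 4 := by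
        rw [e1]
        calc _ ≤ 1 / (θ / 10 * i) ^ 2 * (1 / (θ / 10 * i) ^ 2) :=
              mul_le_mul (hb u hu) (hb v hv) (hGnn v) (by positivity)
          _ = 1 / (θ / 10 * i) ^ 4 := by
              field_simp
      have e3 : 0 ≤ (if n ∈ Qf then Q236.CM.LP (gw i0) n else 0) := by
        split_ifs
        · exact hGnn n
        · exact le_rfl
      linarith
    · have hmem : n ∈ Qf := by
        rw [hQf, Finset.mem_filter, Finset.mem_Ioc]
        refine ⟨⟨hn1, hn2⟩, p, hp, hpn, ?_, hlt⟩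
        obtain ⟨m, hm⟩ := hpn
        rw [hm, Nat.mul_div_cancel_left m hp.pos]
        by_contra hcon
        have hm1 : m = 0 ∨ m = 1 := by omega
        rcases hm1 with h | h
        · rw [h, Nat.mul_zero] at hm
          omega
        · rw [h, Nat.mul_one] at hm
          rw [hm] at hnp
          exact hnp hp
      rw [if_pos hmem]
      have : (0 : ℝ) ≤ 1 / (θ / 10 * i) ^ 4 := by positivity
      linarith
  refine (Finset.sum_le_sum key).trans ?_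
  rw [Finset.sum_add_distrib, Finset.sum_const, nsmul_eq_mul]
  have hcard : ((((Ioc a (a + hh δ i)).filter (fun n => ¬ n.Prime)).card : ℕ) : ℝ) ≤ hh δ i := by
    have e1 := Finset.card_filter_le (Ioc a (a + hh δ i)) (fun n => ¬ n.Prime)
    rw [Nat.card_Ioc] at e1
    have e2 : ((Ioc a (a + hh δ i)).filter (fun n => ¬ n.Prime)).card ≤ hh δ i := by omega
    exact_mod_cast e2
  have hhnn : (0 : ℝ) ≤ hh δ i := Nat.cast_nonneg _
  have hA : ((((Ioc a (a + hh δ i)).filter (fun n => ¬ n.Prime)).card : ℕ) : ℝ) *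
      (1 / (θ / 10 * i) ^ 4) ≤ κ / 2 * hh δ i / (i : ℝ) ^ 3 := by
    have e1 : 1 / (θ / 10 * i) ^ 4 ≤ κ / 2 / (i : ℝ) ^ 3 := by
      rw [div_le_div_iff₀ (by positivity) (by positivity)]
      rw [div_le_iff₀ (by positivity)] at hiκ
      have e2 : (θ / 10 * (i : ℝ)) ^ 4 = (θ / 10) ^ 4 * i * (i : ℝ) ^ 3 := by ring
      rw [e2]
      have e3 : (0 : ℝ) ≤ (i : ℝ) ^ 3 := by positivity
      nlinarith [mul_le_mul_of_nonneg_right hiκ e3]
    calc _ ≤ (hh δ i : ℝ) * (κ / 2 / (i : ℝ) ^ 3) :=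
          mul_le_mul hcard e1 (by positivity) hhnn
      _ = _ := by ring
  have hB : ∑ n ∈ (Ioc a (a + hh δ i)).filter (fun n => ¬ n.Prime),
      (if n ∈ Qf then Q236.CM.LP (gw i0) n else 0) ≤ κ / 2 * hh δ i / (i : ℝ) ^ 3 := by
    have e1 : ∑ n ∈ (Ioc a (a + hh δ i)).filter (fun n => ¬ n.Prime),
        (if n ∈ Qf then Q236.CM.LP (gw i0) n else 0) ≤ ∑ n ∈ Qf, Q236.CM.LP (gw i0) n := by
      rw [← Finset.sum_filter]
      apply Finset.sum_le_sum_of_subset_of_nonneg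
      · intro n hn
        exact (Finset.mem_filter.1 hn).2
      · intro n _ _
        exact hGnn n
    refine e1.trans (hKi.trans ?_)
    have e2 : C * (4 / (i0 : ℝ)) ≤ κ / 2 := by
      rw [div_le_iff₀ hκ] at hi0C
      rw [← mul_div_assoc, div_le_iff₀ hi0pos]
      linarith
    have e3 : (0 : ℝ) ≤ (hh δ i : ℝ) / (i : ℝ) ^ 3 := by positivity
    calc C * hh δ i / (i : ℝ) ^ 3 * (4 / i0) = C * (4 / (i0 : ℝ)) * (hh δ i / (i : ℝ) ^ 3) := by
          ring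
      _ ≤ κ / 2 * (hh δ i / (i : ℝ) ^ 3) := mul_le_mul_of_nonneg_right e2 e3
      _ = _ := by ring
  calc _ ≤ κ / 2 * hh δ i / (i : ℝ) ^ 3 + κ / 2 * hh δ i / (i : ℝ) ^ 3 := add_le_add hA hB
    _ = κ * hh δ i / (i : ℝ) ^ 3 := by ring

end J6H67.DB
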