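import Pool.Agent.J6H67.DB.Stm

/-!
# Project DB: CELL and SC (greedy process on a cell)
-/

set_option autoImplicit false

namespace J6H67.DB

open Finset Pool.Agent.W76.MO Pool.Agent.Q240.KS
open scoped Classical

theorem SS_succ_SC (f : ℕ → ℝ) (n : ℕ) : SS f (n + 1) = SS f n + f (n + 1) := by
  unfold SS
  rw [Finset.sum_Icc_succ_top (by omega)]

theorem t_CELL : S_CELL := by
  intro f cap a h τ hcap hstep hτ
  set A : ℕ → ℝ := fun j => ∑ n ∈ (Ioc a (a + j)).filter (fun n => ¬ n.Prime), |f n| with hA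
  set Q : ℕ → ℝ := fun j => ∑ p ∈ (Ioc a (a + j)).filter Nat.Prime, cap p with hQ
  have hA0 : ∀ j, 0 ≤ A j := fun j => Finset.sum_nonneg fun n _ => abs_nonneg _
  have hQ0 : ∀ j, 0 ≤ Q j := fun j => Finset.sum_nonneg fun n _ => hcap n
  have hAs : ∀ j, A (j + 1) = A j + if (a + j + 1).Prime then 0 else |f (a + j + 1)| := by
    intro j
    simp only [hA, Finset.sum_filter]
    rw [show a + (j + 1) = a + j + 1 from rfl, Finset.sum_Ioc_succ_top (by omega)]
    congr 1
    by_cases hp : (a + j + 1).Prime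
    · simp [hp]
    · simp [hp]
  have hQs : ∀ j, Q (j + 1) = Q j + if (a + j + 1).Prime then cap (a + j + 1) else 0 := by
    intro j
    simp only [hQ, Finset.sum_filter]
    rw [show a + (j + 1) = a + j + 1 from rfl, Finset.sum_Ioc_succ_top (by omega)]
  have hAm : ∀ j, j ≤ h → A j ≤ A h := by
    intro j hj
    apply Finset.sum_le_sum_of_subset_of_nonneg
    · apply Finset.filter_subset_filter
      exact Finset.Ioc_subset_Ioc_right (by omega)
    · intro n _ _
      exact abs_nonneg _
  have main : ∀ j, |SS f (a + j)| ≤ max (A j) (|SS f a| + A j - Q j) := by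
    intro j
    induction j with
    | zero =>
      have h1 : A 0 = 0 := by simp [hA]
      have h2 : Q 0 = 0 := by simp [hQ]
      rw [h1, h2]
      simp
    | succ j ih =>
      rw [show a + (j + 1) = (a + j) + 1 from rfl]
      by_cases hp : (a + j + 1).Prime
      · have h1 := hstep (a + j + 1) hp
        rw [Nat.add_sub_cancel] at h1
        rw [hAs, hQs, if_pos hp, if_pos hp, add_zero]
        refine h1.trans (max_le ((hA0 j).trans (le_max_left _ _)) ?_)
        have hc := hcap (a + j + 1)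
        rcases le_total (|SS f a| + A j - Q j) (A j) with h2 | h2
        · rw [max_eq_left h2] at ih
          exact le_trans (by linarith) (le_max_left _ _)
        · rw [max_eq_right h2] at ih
          exact le_trans (by linarith) (le_max_right _ _)
      · rw [hAs, hQs, if_neg hp, if_neg hp, add_zero, SS_succ_SC]
        have h1 : |SS f (a + j) + f (a + j + 1)| ≤ |SS f (a + j)| + |f (a + j + 1)| := abs_add_le _ _
        rcases le_total (|SS f a| + A j - Q j) (A j) with h2 | h2
        · rw [max_eq_left h2] at ih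
          exact le_trans (by linarith) (le_max_left _ _)
        · rw [max_eq_right h2] at ih
          exact le_trans (by linarith) (le_max_right _ _)
  have hAτ : A h ≤ τ := hτ
  refine ⟨fun j hj => (main j).trans (max_le ?_ ?_), fun h4 => (main h).trans (max_le_max hAτ ?_)⟩
  · have := hAm j hj
    have := abs_nonneg (SS f a)
    linarith
  · have := hAm j hj
    have := hQ0 j
    linarith
  · have h4' : 4 * τ ≤ Q h := h4
    linarith

theorem t_SC (hKEY : S_KEY) (hCELL : S_CELL) : S_SC := by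
  intro c ε δ hc hε hε1 hδ1 hδ2
  obtain ⟨I, hI3, hI⟩ := hKEY δ hδ1 hδ2 (c / 32) (by positivity)
  refine ⟨I, hI3, fun i0 hi0 f hf i hi k hk => ?_⟩
  obtain ⟨hf1, hfm, hfb, hfp⟩ := hf
  have hgw0 : ∀ p, 0 ≤ gw i0 p := by
    intro p
    unfold gw
    split_ifs
    · positivity
    · exact le_refl _
  set cap : ℕ → ℝ := fun p => (p : ℝ) ^ (ε - 1) * gw i0 p with hcapdef
  have hcap0 : ∀ p, 0 ≤ cap p := fun p => mul_nonneg (Real.rpow_nonneg (Nat.cast_nonneg p) _) (hgw0 p)
  set h := hh δ i with hh_def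
  have hhpos : 0 < h := by rw [hh_def]; unfold hh; positivity
  set a := 2 ^ i + k * h with ha_def
  set T : ℝ := (2 : ℝ) ^ ((ε - 1) * i) with hT
  have hTpos : 0 < T := by positivity
  have hTeq : ((2 : ℝ) ^ i) ^ (ε - 1) = T := by
    rw [hT, ← Real.rpow_natCast, ← Real.rpow_mul (by norm_num)]
    congr 1
    ring
  have hiI : I ≤ i := hi0.trans hi
  have hi3 : 3 ≤ i := hI3.trans hiI
  have hiR : (3 : ℝ) ≤ i := by exact_mod_cast hi3
  have hipos : (0 : ℝ) < i := by linarith
  have hak : 2 ^ i ≤ a := Nat.le_add_right _ _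
  have hkey := hI i0 i hi0 hi a hak
  have hG0 : ∀ n, 0 ≤ Q236.CM.LP (gw i0) n := fun n => Q236.CM.LP_nonneg _ hgw0 n
  have htau : tau c ε δ i = c / 32 * h * T / (i : ℝ) ^ 3 := rfl
  have hcomp : ∑ n ∈ (Ioc a (a + h)).filter (fun n => ¬ n.Prime), |f n| ≤ tau c ε δ i := by
    have h1 : ∀ n ∈ (Ioc a (a + h)).filter (fun n => ¬ n.Prime),
        |f n| ≤ T * Q236.CM.LP (gw i0) n := by
      intro n hn
      have hn1 := (Finset.mem_Ioc.1 (Finset.mem_filter.1 hn).1).1
      have hn2 : 2 ^ i < n := lt_of_le_of_lt hak hn1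
      have hn3 : 1 ≤ n := Nat.one_le_two_pow.trans hn2.le
      refine (hfb n hn3).trans (mul_le_mul_of_nonneg_right ?_ (hG0 n))
      rw [← hTeq]
      apply Real.rpow_le_rpow_of_nonpos (by positivity)
      · exact_mod_cast hn2.le
      · linarith
    refine (Finset.sum_le_sum h1).trans ?_
    rw [← Finset.mul_sum, htau]
    have h2 := mul_le_mul_of_nonneg_left hkey hTpos.le
    refine h2.trans (le_of_eq ?_)
    rw [hh_def]
    ring
  obtain ⟨hA, hB⟩ := hCELL f cap a h (tau c ε δ i) hcap0 hfp hcomp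
  refine ⟨fun j hj => hA j hj, fun hkB => ?_⟩
  have heq : 2 ^ i + (k + 1) * h = a + h := by rw [ha_def]; ring
  rw [heq]
  apply hB
  -- primes
  have hcard : c * h / i ≤ (((cell δ i k).filter Nat.Prime).card : ℝ) := by
    by_contra hcon
    apply hkB
    unfold BB
    rw [Finset.mem_filter, Finset.mem_range]
    exact ⟨hk, not_le.1 hcon⟩
  have hcell : cell δ i k = Ioc a (a + h) := by
    unfold cell
    rw [← hh_def, heq]
  rw [hcell] at hcard
  have hk2 : (k + 1) * h ≤ 2 ^ i := by
    have h1 : k + 1 ≤ 2 ^ i / h := hk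
    calc (k + 1) * h ≤ (2 ^ i / h) * h := Nat.mul_le_mul_right _ h1
      _ ≤ 2 ^ i := Nat.div_mul_le_self _ _
  have hlow : ∀ p ∈ (Ioc a (a + h)).filter Nat.Prime, T / (8 * (i : ℝ) ^ 2) ≤ cap p := by
    intro p hp
    obtain ⟨hp1, hp2⟩ := Finset.mem_Ioc.1 (Finset.mem_filter.1 hp).1
    have hp3 : 2 ^ i < p := lt_of_le_of_lt hak hp1
    have hp4 : p ≤ 2 ^ (i + 1) := by
      rw [pow_succ]
      have : a + h = 2 ^ i + (k + 1) * h := heq.symm
      omega
    have hp5 : 2 ^ i0 < p := lt_of_le_of_lt (Nat.pow_le_pow_right (by norm_num) hi) hp3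
    have hgw : gw i0 p = 1 / Real.log p ^ 2 := by
      unfold gw
      rw [if_pos hp5]
    have hp1' : (1 : ℝ) < p := by
      have : 1 < p := lt_of_le_of_lt Nat.one_le_two_pow hp3
      exact_mod_cast this
    have hlogpos : 0 < Real.log p := Real.log_pos hp1'
    have hlog : Real.log p ≤ 2 * i := by
      have h1 : Real.log p ≤ Real.log ((2 : ℝ) ^ (i + 1)) := by
        apply Real.log_le_log (by linarith)
        exact_mod_cast hp4
      rw [Real.log_pow] at h1
      have h2 : Real.log 2 ≤ 1 := by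
        have := Real.log_two_lt_d9
        linarith
      push_cast at h1
      have h3 : ((i : ℝ) + 1) * Real.log 2 ≤ ((i : ℝ) + 1) * 1 :=
        mul_le_mul_of_nonneg_left h2 (by positivity)
      linarith
    have hgwlow : 1 / (4 * (i : ℝ) ^ 2) ≤ gw i0 p := by
      rw [hgw]
      apply one_div_le_one_div_of_le (by positivity)
      calc Real.log p ^ 2 ≤ (2 * (i : ℝ)) ^ 2 := by
            apply pow_le_pow_left₀ hlogpos.le hlog
        _ = 4 * (i : ℝ) ^ 2 := by ring
    have hpow : T / 2 ≤ (p : ℝ) ^ (ε - 1) := by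
      have h1 : ((2 : ℝ) ^ (i + 1)) ^ (ε - 1) ≤ (p : ℝ) ^ (ε - 1) := by
        apply Real.rpow_le_rpow_of_nonpos (by linarith)
        · exact_mod_cast hp4
        · linarith
      refine le_trans ?_ h1
      rw [pow_succ, Real.mul_rpow (by positivity) (by norm_num), hTeq]
      have h2 : (2 : ℝ)⁻¹ ≤ (2 : ℝ) ^ (ε - 1) := by
        rw [← Real.rpow_neg_one]
        apply Real.rpow_le_rpow_of_exponent_le (by norm_num)
        linarith
      calc T / 2 = T * (2 : ℝ)⁻¹ := by ring
        _ ≤ T * (2 : ℝ) ^ (ε - 1) := mul_le_mul_of_nonneg_left h2 hTpos.le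
    calc T / (8 * (i : ℝ) ^ 2) = (T / 2) * (1 / (4 * (i : ℝ) ^ 2)) := by
          field_simp
          norm_num
      _ ≤ (p : ℝ) ^ (ε - 1) * gw i0 p := mul_le_mul hpow hgwlow (by positivity) (by positivity)
  have hsum := Finset.card_nsmul_le_sum _ _ _ hlow
  rw [nsmul_eq_mul] at hsum
  refine le_trans ?_ hsum
  have h5 : 4 * tau c ε δ i = c * h / i * (T / (8 * (i : ℝ) ^ 2)) := by
    rw [htau]
    field_simp
    ring
  rw [h5]
  exact mul_le_mul_of_nonneg_right hcard (by positivity)

end J6H67.DB
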