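import Pool.Agent.J6H67.DB.Stm

/-!
# Module DB-4 (TS): the sum of `G m / m` over rough numbers
-/

set_option autoImplicit false

namespace J6H67.DB

open Finset Pool.Agent.W76.MO Pool.Agent.Q240.KS
open scoped Classical

lemma gw_nonneg_TS (i0 p : ℕ) : 0 ≤ gw i0 p := by
  unfold gw
  split_ifs
  · positivity
  · exact le_rfl

lemma log_term {n : ℕ} (hn : 2 ≤ n) :
    1 / (((n + 1 : ℕ) : ℝ) * Real.log ((n + 1 : ℕ) : ℝ) ^ 2) ≤
      1 / Real.log n - 1 / Real.log ((n + 1 : ℕ) : ℝ) := by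
  have hn1 : (2 : ℝ) ≤ n := by exact_mod_cast hn
  have hl : 0 < Real.log n := Real.log_pos (by linarith)
  have hcast : ((n + 1 : ℕ) : ℝ) = (n : ℝ) + 1 := by push_cast; ring
  rw [hcast]
  have hl2 : Real.log n ≤ Real.log ((n : ℝ) + 1) := Real.log_le_log (by linarith) (by linarith)
  have hl3 : 0 < Real.log ((n : ℝ) + 1) := hl.trans_le hl2
  have h1 : 1 / ((n : ℝ) + 1) ≤ Real.log ((n : ℝ) + 1) - Real.log n := by
    have h2 := Real.log_le_sub_one_of_pos (x := (n : ℝ) / ((n : ℝ) + 1)) (by positivity)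
    rw [Real.log_div (by linarith) (by linarith)] at h2
    have h3 : (n : ℝ) / ((n : ℝ) + 1) - 1 = - (1 / ((n : ℝ) + 1)) := by
      field_simp
      ring
    rw [h3] at h2
    linarith
  have h4 : 1 / Real.log n - 1 / Real.log ((n : ℝ) + 1) =
      (Real.log ((n : ℝ) + 1) - Real.log n) / (Real.log n * Real.log ((n : ℝ) + 1)) := by
    field_simp
  rw [h4, le_div_iff₀ (by positivity)]
  refine le_trans ?_ h1
  rw [div_mul_eq_mul_div, one_mul, div_le_div_iff₀ (by positivity) (by positivity), one_mul]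
  have h5 : Real.log n * Real.log ((n : ℝ) + 1) ≤ Real.log ((n : ℝ) + 1) ^ 2 := by
    rw [pow_two]
    exact mul_le_mul_of_nonneg_right hl2 hl3.le
  have h6 := mul_le_mul_of_nonneg_right h5 (show (0 : ℝ) ≤ (n : ℝ) + 1 by linarith)
  linarith

lemma log_sum {A : ℕ} (hA : 2 ≤ A) (k : ℕ) :
    ∑ n ∈ Ioc A (A + k), 1 / ((n : ℝ) * Real.log n ^ 2) ≤
      1 / Real.log A - 1 / Real.log ((A + k : ℕ) : ℝ) := by
  induction k with
  | zero => simp
  | succ k ih =>
    rw [← add_assoc, Finset.sum_Ioc_succ_top (by omega)]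
    have h := log_term (n := A + k) (by omega)
    linarith

lemma gw_sum (i0 M : ℕ) (hi : 3 ≤ i0) :
    ∑ n ∈ Icc 1 M, gw i0 n / n ≤ 1 / (i0 * Real.log 2) := by
  have hA : 2 ≤ 2 ^ i0 := by
    calc 2 = 2 ^ 1 := by norm_num
      _ ≤ 2 ^ i0 := Nat.pow_le_pow_right (by norm_num) (by omega)
  have h1 : ∑ n ∈ Icc 1 M, gw i0 n / n ≤
      ∑ n ∈ Ioc (2 ^ i0) (2 ^ i0 + M), 1 / ((n : ℝ) * Real.log n ^ 2) := by
    have h2 : ∑ n ∈ Icc 1 M, gw i0 n / n = ∑ n ∈ (Icc 1 M).filter (fun n => 2 ^ i0 < n),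
        1 / ((n : ℝ) * Real.log n ^ 2) := by
      rw [Finset.sum_filter]
      refine Finset.sum_congr rfl fun n _ => ?_
      unfold gw
      split_ifs
      · rw [div_div, mul_comm]
      · rw [zero_div]
    rw [h2]
    refine Finset.sum_le_sum_of_subset_of_nonneg ?_ fun n _ _ => by positivity
    intro n hn
    rw [Finset.mem_filter, Finset.mem_Icc] at hn
    rw [Finset.mem_Ioc]
    omega
  refine h1.trans ((log_sum hA M).trans ?_)
  have h3 : Real.log ((2 ^ i0 : ℕ) : ℝ) = i0 * Real.log 2 := by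
    push_cast
    rw [Real.log_pow]
  rw [h3]
  have h4 : 0 ≤ 1 / Real.log ((2 ^ i0 + M : ℕ) : ℝ) := by
    apply one_div_nonneg.2
    exact Real.log_natCast_nonneg _
  linarith

lemma G_sum (i0 M : ℕ) : ∑ m ∈ Icc 2 M, Q236.CM.LP (gw i0) m / m ≤
    (∑ n ∈ Icc 1 M, gw i0 n / n) * ∑ m ∈ Icc 1 M, Q236.CM.LP (gw i0) m / m := by
  classical
  have hG : ∀ m, 0 ≤ Q236.CM.LP (gw i0) m := Q236.CM.LP_nonneg _ (gw_nonneg_TS i0)
  rw [Finset.sum_mul_sum, ← Finset.sum_product']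
  let φ : ℕ → ℕ × ℕ := fun m => (m.minFac, m / m.minFac)
  have hinj : Set.InjOn φ (Icc 2 M : Finset ℕ) := by
    intro a _ b _ hab
    have h1 : a.minFac = b.minFac := congrArg Prod.fst hab
    have h2 : a / a.minFac = b / b.minFac := congrArg Prod.snd hab
    rw [← Nat.mul_div_cancel' (Nat.minFac_dvd a), ← Nat.mul_div_cancel' (Nat.minFac_dvd b), h2, h1]
  have h1 : ∑ m ∈ Icc 2 M, Q236.CM.LP (gw i0) m / m =
      ∑ x ∈ (Icc 2 M).image φ, gw i0 x.1 / x.1 * (Q236.CM.LP (gw i0) x.2 / x.2) := by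
    rw [Finset.sum_image hinj]
    refine Finset.sum_congr rfl fun m hm => ?_
    rw [Finset.mem_Icc] at hm
    have hp : m.minFac.Prime := Nat.minFac_prime (by omega)
    have h2 : m.minFac * (m / m.minFac) = m := Nat.mul_div_cancel' (Nat.minFac_dvd m)
    have h3 : m / m.minFac ≠ 0 := by
      intro h0
      rw [h0, mul_zero] at h2
      omega
    have h4 : Q236.CM.LP (gw i0) m = gw i0 m.minFac * Q236.CM.LP (gw i0) (m / m.minFac) := by
      conv_lhs => rw [← h2]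
      rw [Q236.CM.LP_mul _ hp.ne_zero h3, Q236.CM.LP_prime _ hp]
    have h5 : (m : ℝ) = (m.minFac : ℝ) * ((m / m.minFac : ℕ) : ℝ) := by
      exact_mod_cast h2.symm
    change _ = gw i0 m.minFac / (m.minFac : ℝ) *
      (Q236.CM.LP (gw i0) (m / m.minFac) / ((m / m.minFac : ℕ) : ℝ))
    rw [h4, div_mul_div_comm, ← h5]
  rw [h1]
  refine Finset.sum_le_sum_of_subset_of_nonneg ?_ fun x _ _ =>
    mul_nonneg (div_nonneg (gw_nonneg_TS _ _) (Nat.cast_nonneg _))
      (div_nonneg (hG _) (Nat.cast_nonneg _))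
  intro x hx
  obtain ⟨m, hm, rfl⟩ := Finset.mem_image.1 hx
  rw [Finset.mem_Icc] at hm
  rw [Finset.mem_product, Finset.mem_Icc, Finset.mem_Icc]
  have h6 : 0 < m.minFac := Nat.minFac_pos m
  exact ⟨⟨h6, (Nat.minFac_le (by omega)).trans hm.2⟩,
    ⟨Nat.div_pos (Nat.minFac_le (by omega)) h6, (Nat.div_le_self _ _).trans hm.2⟩⟩

/-- MODULE DB-4 -/
theorem t_TS : S_TS := by
  intro i0 M hi
  rcases Nat.eq_zero_or_pos M with rfl | hM
  · simp
    positivity
  set S : ℝ := ∑ m ∈ Icc 2 M, Q236.CM.LP (gw i0) m / m with hS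
  set d : ℝ := ∑ n ∈ Icc 1 M, gw i0 n / n with hd
  have hT : ∑ m ∈ Icc 1 M, Q236.CM.LP (gw i0) m / m = 1 + S := by
    have h1 : Icc 1 M = insert 1 (Icc 2 M) := by
      ext a
      simp only [Finset.mem_insert, Finset.mem_Icc]
      omega
    rw [h1, Finset.sum_insert (by simp), Q236.CM.LP_one, hS]
    norm_num
  have h1 : S ≤ d * (1 + S) := by
    rw [← hT]
    exact G_sum i0 M
  have hS0 : 0 ≤ S := Finset.sum_nonneg fun m _ =>
    div_nonneg (Q236.CM.LP_nonneg _ (gw_nonneg_TS i0) m) (Nat.cast_nonneg _)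
  have hi3 : (3 : ℝ) ≤ i0 := by exact_mod_cast hi
  have hl2 := Real.log_two_gt_d9
  have h2 : d ≤ 3 / 2 / i0 := by
    refine (gw_sum i0 M hi).trans ?_
    rw [div_le_div_iff₀ (by positivity) (by positivity)]
    nlinarith
  have h3 : (3 : ℝ) / 2 / i0 ≤ 1 / 2 := by
    rw [div_le_iff₀ (by positivity)]
    linarith
  have h4 : S ≤ 2 * d := by nlinarith
  calc S ≤ 2 * d := h4
    _ ≤ 2 * (3 / 2 / i0) := by linarith
    _ = 3 / i0 := by ring
    _ ≤ 4 / i0 := by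
      apply div_le_div_of_nonneg_right _ (by linarith)
      norm_num

end J6H67.DB
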