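import Pool.Agent.J6H67.DB.Fin2
import Pool.Agent.J6H67.DB.BAD
import Pool.Agent.J6H67.DB.GW
import Pool.Agent.J6H67.DB.TS
import Pool.Agent.J6H67.DB.KA
import Pool.Agent.J6H67.DB.KEY
import Pool.Agent.J6H67.DB.SC
import Pool.Agent.J6H67.DB.DEB
import Pool.Agent.Q278.KT.Fin

/-!
# Project DB (helper67): the theorems without hypotheses
-/

set_option autoImplicit false

namespace J6H67.DB

open Finset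
open scoped Classical

theorem all_SC : S_SC := t_SC (t_KEY t_GW t_SPL (t_KA Pool.Agent.W761.MO.btr t_TS)) t_CELL

theorem all_main : ∃ c : ℝ, 0 < c ∧ ∀ ε : ℝ, 0 < ε → ∃ (f : ℕ → ℝ) (C : ℝ), f 1 = 1 ∧
    (∀ m n : ℕ, 1 ≤ m → 1 ≤ n → f (m * n) = f m * f n) ∧
    (∀ n : ℕ, 1 ≤ n → |f n| ≤ (n : ℝ) ^ (-1 + ε)) ∧
    (∀ N : ℕ, 1 ≤ N → |∑ n ∈ Icc 1 N, f n| ≤ C * (N : ℝ) ^ (-(0.385 + c))) ∧
    (∀ X : ℕ, 1 ≤ X → (((Icc 1 X).filter (fun N : ℕ =>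
      C * (N : ℝ) ^ (-(13 / 16 + c)) < |∑ n ∈ Icc 1 N, f n|)).card : ℝ) ≤ C * (X : ℝ) ^ (1 - c)) ∧
    (∀ X : ℕ, 1 ≤ X → (((Icc 1 X).filter (fun N : ℕ =>
      C * (N : ℝ) ^ (-(1 / 2 + c)) < |∑ n ∈ Icc 1 N, f n|)).card : ℝ) ≤ C * (X : ℝ) ^ (0.806 - c)) :=
  main t_BAD t_GF t_ONE all_SC (t_DEB t_ABS) t_OUT Pool.Agent.Q278.KT.mainp_1316 Pool.Agent.Q278.KT.mainp_half
    Pool.Agent.Q278.KT.mainp_043

end J6H67.DB
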