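import Pool.Agent.J6H67.DB.Stm

/-!
# Project DB (helper67): module OUT
-/

set_option autoImplicit false

namespace J6H67.DB

open Finset Pool.Agent.W76.MO Pool.Agent.Q240.KS
open scoped Classical

theorem hh_pos (δ : ℝ) (i : ℕ) : 0 < hh δ i := by
  unfold hh
  positivity

theorem hh_le {δ : ℝ} (hδ : δ < 1 / 2) (i : ℕ) : (hh δ i : ℝ) ≤ (2 : ℝ) ^ ((1 / 2 - δ) * i) := by
  unfold hh
  push_cast
  rw [← Real.rpow_natCast]
  apply Real.rpow_le_rpow_of_exponent_le (by norm_num)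
  apply Nat.floor_le
  have : 0 ≤ 1 / 2 - δ := by linarith
  positivity

theorem nc_mul {δ : ℝ} (h1 : -(1 / 2) ≤ δ) (i : ℕ) : nc δ i * hh δ i = 2 ^ i := by
  unfold nc
  apply Nat.div_mul_cancel
  unfold hh
  apply pow_dvd_pow
  have : ((1 / 2 - δ) * i : ℝ) ≤ i := by
    have h2 : (0 : ℝ) ≤ i := Nat.cast_nonneg i
    nlinarith
  calc ⌊(1 / 2 - δ) * i⌋₊ ≤ ⌊(i : ℝ)⌋₊ := Nat.floor_le_floor this
    _ = i := Nat.floor_natCast i

theorem locate {δ : ℝ} (h1 : -(1 / 2) ≤ δ) (i0 N : ℕ) (hN : 2 ^ (i0 + 1) < N) :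
    ∃ i k j : ℕ, i0 < i ∧ k < nc δ i ∧ 1 ≤ j ∧ j ≤ hh δ i ∧ N = 2 ^ i + k * hh δ i + j ∧ 2 ^ i < N ∧ N ≤ 2 ^ (i + 1) := by
  set i : ℕ := Nat.log 2 (N - 1) with hi
  have hN1 : N - 1 ≠ 0 := by
    have : 0 < 2 ^ (i0 + 1) := by positivity
    omega
  have ha : 2 ^ i ≤ N - 1 := Nat.pow_log_le_self 2 hN1
  have hb : N - 1 < 2 ^ (i + 1) := Nat.lt_pow_succ_log_self (by norm_num) _
  have hc : i0 + 1 ≤ i := (Nat.le_log_iff_pow_le (by norm_num) hN1).2 (by omega)
  set q : ℕ := N - 1 - 2 ^ i with hq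
  have hhp := hh_pos δ i
  have hq2 : q < nc δ i * hh δ i := by
    rw [nc_mul h1]
    rw [pow_succ] at hb
    omega
  refine ⟨i, q / hh δ i, q % hh δ i + 1, by omega, ?_, by omega, ?_, ?_, by omega, by omega⟩
  · exact Nat.div_lt_of_lt_mul (by rw [mul_comm]; exact hq2)
  · exact Nat.mod_lt _ hhp
  · have := Nat.div_add_mod q (hh δ i)
    rw [mul_comm] at this
    omega

theorem tau_le {c ε η lam : ℝ} (hc : 0 < c) (hεη : ε ≤ η / 8) (hlam : lam + η / 2 < 1) {i : ℕ} (hi : 1 ≤ i) :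
    tau c ε (lam - 1 / 2 + η / 2) i ≤ c / 32 * (2 : ℝ) ^ (-(lam + 3 * η / 8) * i) := by
  have hi1 : (1 : ℝ) ≤ i := by exact_mod_cast hi
  have h1 := hh_le (δ := lam - 1 / 2 + η / 2) (by linarith) i
  unfold tau
  have h2 : c / 32 * (hh (lam - 1 / 2 + η / 2) i : ℝ) * (2 : ℝ) ^ ((ε - 1) * i) / (i : ℝ) ^ 3 ≤
      c / 32 * (hh (lam - 1 / 2 + η / 2) i : ℝ) * (2 : ℝ) ^ ((ε - 1) * i) := by
    apply div_le_self (by positivity)
    exact one_le_pow₀ hi1
  refine h2.trans ?_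
  rw [mul_assoc]
  apply mul_le_mul_of_nonneg_left _ (by positivity)
  calc (hh (lam - 1 / 2 + η / 2) i : ℝ) * (2 : ℝ) ^ ((ε - 1) * i)
      ≤ (2 : ℝ) ^ ((1 / 2 - (lam - 1 / 2 + η / 2)) * i) * (2 : ℝ) ^ ((ε - 1) * i) :=
        mul_le_mul_of_nonneg_right h1 (by positivity)
    _ = (2 : ℝ) ^ ((1 / 2 - (lam - 1 / 2 + η / 2)) * i + (ε - 1) * i) := by
        rw [← Real.rpow_add (by norm_num)]
    _ ≤ (2 : ℝ) ^ (-(lam + 3 * η / 8) * i) := by
        apply Real.rpow_le_rpow_of_exponent_le (by norm_num)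
        nlinarith

theorem back {x : ℝ} (hx : 0 ≤ x) {i N : ℕ} (hN0 : 1 ≤ N) (hN : N ≤ 2 ^ (i + 1)) :
    (2 : ℝ) ^ (-x * i) ≤ (2 : ℝ) ^ x * (N : ℝ) ^ (-x) := by
  have h0 : (0 : ℝ) < N := by exact_mod_cast hN0
  have h1 : (N : ℝ) ≤ (2 : ℝ) ^ ((i : ℝ) + 1) := by
    have : (N : ℝ) ≤ (2 : ℝ) ^ (i + 1) := by exact_mod_cast hN
    rwa [← Real.rpow_natCast, Nat.cast_add, Nat.cast_one] at this
  have h2 : ((2 : ℝ) ^ ((i : ℝ) + 1)) ^ (-x) ≤ (N : ℝ) ^ (-x) :=
    Real.rpow_le_rpow_of_nonpos h0 h1 (by linarith)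
  calc (2 : ℝ) ^ (-x * i) = (2 : ℝ) ^ x * ((2 : ℝ) ^ ((i : ℝ) + 1)) ^ (-x) := by
        rw [← Real.rpow_mul (by norm_num), ← Real.rpow_add (by norm_num)]
        congr 1
        ring
    _ ≤ _ := mul_le_mul_of_nonneg_left h2 (by positivity)

theorem sum_pow_le {x z : ℝ} (hxz : x < z) (hz : 0 < z) : ∃ K : ℝ, 0 < K ∧ ∀ i0 X : ℕ, 1 ≤ X →
    ∑ i ∈ Ioc i0 (Nat.log 2 X), (2 : ℝ) ^ (x * i) ≤ K * (X : ℝ) ^ z := by
  set m : ℝ := max x 0 with hm
  have hmz : m < z := max_lt hxz hz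
  have hm0 : 0 ≤ m := le_max_right _ _
  have ha : 0 < z - m := by linarith
  refine ⟨2 / (z - m), by positivity, ?_⟩
  intro i0 X hX
  set L : ℕ := Nat.log 2 X with hL
  have h1 : ∑ i ∈ Ioc i0 L, (2 : ℝ) ^ (x * i) ≤ ∑ _i ∈ Ioc i0 L, (2 : ℝ) ^ (m * L) := by
    apply sum_le_sum
    intro i hi
    rw [mem_Ioc] at hi
    apply Real.rpow_le_rpow_of_exponent_le (by norm_num)
    have h2 : (i : ℝ) ≤ L := by exact_mod_cast hi.2
    have h3 : x ≤ m := le_max_left _ _
    have h4 : (0 : ℝ) ≤ i := Nat.cast_nonneg i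
    nlinarith
  refine h1.trans ?_
  rw [sum_const, nsmul_eq_mul]
  have h2 : (((Ioc i0 L).card : ℕ) : ℝ) ≤ L := by
    rw [Nat.card_Ioc]
    exact_mod_cast Nat.sub_le _ _
  have h3 : (L : ℝ) ≤ 2 / (z - m) * (2 : ℝ) ^ ((z - m) * L) := by
    have e1 : (2 : ℝ) ^ ((z - m) * L) = Real.exp (Real.log 2 * ((z - m) * L)) := by
      rw [Real.rpow_def_of_pos (by norm_num)]
    have e2 := Real.add_one_le_exp (Real.log 2 * ((z - m) * L))
    rw [e1, div_mul_eq_mul_div, le_div_iff₀ ha]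
    have e3 := Real.log_two_gt_d9
    have e4 : (0 : ℝ) ≤ L := Nat.cast_nonneg L
    have e5 : 0 ≤ (z - m) * L := by positivity
    nlinarith
  have hXL : (2 : ℝ) ^ (L : ℝ) ≤ X := by
    rw [Real.rpow_natCast]
    exact_mod_cast Nat.pow_log_le_self 2 (by omega)
  calc ((Ioc i0 L).card : ℝ) * (2 : ℝ) ^ (m * L) ≤ L * (2 : ℝ) ^ (m * L) :=
        mul_le_mul_of_nonneg_right h2 (by positivity)
    _ ≤ (2 / (z - m) * (2 : ℝ) ^ ((z - m) * L)) * (2 : ℝ) ^ (m * L) :=
        mul_le_mul_of_nonneg_right h3 (by positivity)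
    _ = 2 / (z - m) * ((2 : ℝ) ^ (L : ℝ)) ^ z := by
        rw [mul_assoc, ← Real.rpow_add (by norm_num), ← Real.rpow_mul (by norm_num)]
        congr 2
        ring
    _ ≤ 2 / (z - m) * (X : ℝ) ^ z := by
        apply mul_le_mul_of_nonneg_left _ (by positivity)
        exact Real.rpow_le_rpow (by positivity) hXL hz.le

theorem t_OUT : S_OUT := by
  intro c ε η lam e hc hε hεη hη hηe hel hlam i0 f hi0 hST hCO
  set δ : ℝ := lam - 1 / 2 + η / 2 with hδ
  have hlam0 : 0 < lam := by linarith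
  have hδ1 : -(1 / 2) ≤ δ := by rw [hδ]; linarith
  have hδ2 : δ < 1 / 2 := by rw [hδ]; linarith
  -- the key inequality
  have hstep : ∀ i k j : ℕ, i0 < i → k < nc δ i → j ≤ hh δ i →
      |SS f (2 ^ i + k * hh δ i + j)| ≤ |SS f (2 ^ i + k * hh δ i)| + tau c ε δ i :=
    fun i k j hi hk hj => (hST i hi.le k hk).1 j hj
  have htau : ∀ i : ℕ, i0 < i → tau c ε δ i ≤ c / 32 * (2 : ℝ) ^ (-(lam + 3 * η / 8) * i) := by
    intro i hi
    exact tau_le hc hεη hlam (by omega)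
  have htau0 : ∀ i : ℕ, 0 ≤ tau c ε δ i := by
    intro i
    unfold tau
    positivity
  -- (1)
  set x : ℝ := lam - e + η / 4 with hx
  have hx0 : 0 ≤ x := by rw [hx]; linarith
  have hA : ∀ N : ℕ, 2 ^ (i0 + 1) < N → |SS f N| ≤ (5 * c * (2 : ℝ) ^ x) * (N : ℝ) ^ (-x) := by
    intro N hN
    obtain ⟨i, k, j, hi, hk, hj1, hj2, hNe, hN1, hN2⟩ := locate hδ1 i0 N hN
    have hi1 : (0 : ℝ) ≤ i := Nat.cast_nonneg i
    have h1 : |SS f N| ≤ |SS f (2 ^ i + k * hh δ i)| + tau c ε δ i := by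
      rw [hNe]
      exact hstep i k j hi hk hj2
    have h2 := (hCO i hi).2 k hk
    have hb1 : (1 : ℝ) ≤ (2 : ℝ) ^ ((e - η) * i) := by
      apply Real.one_le_rpow (by norm_num)
      have : 0 ≤ e - η := by linarith
      positivity
    have h3 : tau c ε δ i ≤ tau c ε δ i * (2 : ℝ) ^ ((e - η) * i) :=
      le_mul_of_one_le_right (htau0 i) hb1
    have h4 : |SS f N| ≤ 151 * (tau c ε δ i * (2 : ℝ) ^ ((e - η) * i)) := by linarith
    have h5 : tau c ε δ i * (2 : ℝ) ^ ((e - η) * i) ≤ c / 32 * (2 : ℝ) ^ (-x * i) := by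
      calc tau c ε δ i * (2 : ℝ) ^ ((e - η) * i)
          ≤ (c / 32 * (2 : ℝ) ^ (-(lam + 3 * η / 8) * i)) * (2 : ℝ) ^ ((e - η) * i) :=
            mul_le_mul_of_nonneg_right (htau i hi) (by positivity)
        _ = c / 32 * (2 : ℝ) ^ (-(lam + 3 * η / 8) * i + (e - η) * i) := by
            rw [mul_assoc, ← Real.rpow_add (by norm_num)]
        _ ≤ c / 32 * (2 : ℝ) ^ (-x * i) := by
            apply mul_le_mul_of_nonneg_left _ (by positivity)
            apply Real.rpow_le_rpow_of_exponent_le (by norm_num)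
            rw [hx]
            nlinarith
    have h6 := back hx0 (i := i) (N := N) (by omega) hN2
    have h7 : (0 : ℝ) ≤ (2 : ℝ) ^ (-x * i) := by positivity
    calc |SS f N| ≤ 151 * (c / 32 * (2 : ℝ) ^ (-x * i)) := by linarith
      _ ≤ 5 * c * (2 : ℝ) ^ (-x * i) := by nlinarith [mul_nonneg hc.le h7]
      _ ≤ 5 * c * ((2 : ℝ) ^ x * (N : ℝ) ^ (-x)) := mul_le_mul_of_nonneg_left h6 (by positivity)
      _ = _ := by ring
  -- small N
  set M0 : ℝ := ∑ n ∈ Icc 1 (2 ^ (i0 + 1)), |f n| with hM0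
  have hM00 : 0 ≤ M0 := sum_nonneg fun _ _ => abs_nonneg _
  have hsmall : ∀ N : ℕ, N ≤ 2 ^ (i0 + 1) → |SS f N| ≤ M0 := by
    intro N hN
    unfold SS
    refine (abs_sum_le_sum_abs _ _).trans ?_
    apply sum_le_sum_of_subset_of_nonneg
    · exact Icc_subset_Icc_right hN
    · intro _ _ _
      exact abs_nonneg _
  set P : ℝ := (2 : ℝ) ^ (i0 + 1) with hP
  have hP0 : 0 < P := by positivity
  -- (2)
  set y : ℝ := lam + η / 4 with hy
  have hy0 : 0 ≤ y := by rw [hy]; linarith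
  set z : ℝ := 1 - lam + e - η with hz
  have hz0 : 0 < z := by rw [hz]; linarith
  obtain ⟨K, hK, hsum⟩ := sum_pow_le (x := 1 - lam + e - 3 * η / 2) (z := z) (by rw [hz]; linarith) hz0
  set C : ℝ := 5 * c * (2 : ℝ) ^ x + M0 * P ^ x + c / 16 * (2 : ℝ) ^ y + P + 50 * K with hC
  have p1 : 0 ≤ 5 * c * (2 : ℝ) ^ x := by positivity
  have p2 : 0 ≤ M0 * P ^ x := by positivity
  have p3 : 0 ≤ c / 16 * (2 : ℝ) ^ y := by positivity
  have p4 : 0 ≤ 50 * K := by positivity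
  refine ⟨C, by rw [hC]; linarith, ?_, ?_⟩
  · intro N hN
    have hN0 : (0 : ℝ) < N := by exact_mod_cast hN
    by_cases hb : 2 ^ (i0 + 1) < N
    · refine (hA N hb).trans ?_
      apply mul_le_mul_of_nonneg_right _ (by positivity)
      rw [hC]
      linarith
    · push Not at hb
      have h1 := hsmall N hb
      have h2 : P ^ (-x) ≤ (N : ℝ) ^ (-x) := by
        apply Real.rpow_le_rpow_of_nonpos hN0 _ (by linarith)
        rw [hP]
        exact_mod_cast hb
      have h3 : M0 = M0 * P ^ x * P ^ (-x) := by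
        rw [mul_assoc, ← Real.rpow_add hP0]
        simp
      calc |SS f N| ≤ M0 := h1
        _ = M0 * P ^ x * P ^ (-x) := h3
        _ ≤ M0 * P ^ x * (N : ℝ) ^ (-x) := mul_le_mul_of_nonneg_left h2 p2
        _ ≤ C * (N : ℝ) ^ (-x) := by
          apply mul_le_mul_of_nonneg_right _ (by positivity)
          rw [hC]
          linarith
  · intro X hX
    have hX1 : (1 : ℝ) ≤ X := by exact_mod_cast hX
    set dirty : ℕ → Finset ℕ := fun i =>
      (range (nc δ i)).filter (fun k => tau c ε δ i < |SS f (2 ^ i + k * hh δ i)|) with hdirty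
    have hsub : (Icc 1 X).filter (fun N : ℕ => C * (N : ℝ) ^ (-y) < |SS f N|) ⊆
        Icc 1 (2 ^ (i0 + 1)) ∪ (Ioc i0 (Nat.log 2 X)).biUnion (fun i => (dirty i).biUnion (fun k => cell δ i k)) := by
      intro N hN
      rw [mem_filter, mem_Icc] at hN
      obtain ⟨⟨hN1, hNX⟩, hNC⟩ := hN
      rw [mem_union]
      by_cases hb : 2 ^ (i0 + 1) < N
      · right
        obtain ⟨i, k, j, hi, hk, hj1, hj2, hNe, hNa, hNb⟩ := locate hδ1 i0 N hb
        rw [mem_biUnion]
        refine ⟨i, ?_, ?_⟩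
        · rw [mem_Ioc]
          refine ⟨hi, (Nat.le_log_iff_pow_le (by norm_num) (by omega)).2 (by omega)⟩
        · rw [mem_biUnion]
          refine ⟨k, ?_, ?_⟩
          · rw [hdirty]
            simp only [mem_filter, mem_range]
            refine ⟨hk, ?_⟩
            by_contra hcl
            push Not at hcl
            have h1 : |SS f N| ≤ |SS f (2 ^ i + k * hh δ i)| + tau c ε δ i := by
              rw [hNe]
              exact hstep i k j hi hk hj2
            have h2 := htau i hi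
            have hi1 : (0 : ℝ) ≤ i := Nat.cast_nonneg i
            have h3 : (2 : ℝ) ^ (-(lam + 3 * η / 8) * i) ≤ (2 : ℝ) ^ (-y * i) := by
              apply Real.rpow_le_rpow_of_exponent_le (by norm_num)
              rw [hy]
              nlinarith
            have h4 := back hy0 (i := i) (N := N) (by omega) hNb
            have hN0 : (0 : ℝ) ≤ (N : ℝ) ^ (-y) := by positivity
            have h5 : |SS f N| ≤ c / 16 * (2 : ℝ) ^ y * (N : ℝ) ^ (-y) := by
              calc |SS f N| ≤ 2 * (c / 32 * (2 : ℝ) ^ (-(lam + 3 * η / 8) * i)) := by linarith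
                _ ≤ 2 * (c / 32 * ((2 : ℝ) ^ y * (N : ℝ) ^ (-y))) := by
                    have h6 := h3.trans h4
                    have h7 : (0 : ℝ) < c / 32 := by positivity
                    nlinarith
                _ = _ := by ring
            have h6 : c / 16 * (2 : ℝ) ^ y * (N : ℝ) ^ (-y) ≤ C * (N : ℝ) ^ (-y) := by
              apply mul_le_mul_of_nonneg_right _ hN0
              rw [hC]
              linarith
            linarith
          · unfold cell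
            rw [mem_Ioc, hNe]
            constructor
            · omega
            · rw [add_mul, one_mul]
              omega
      · left
        rw [mem_Icc]
        omega
    have hcard := card_le_card hsub
    have h1 : ((Icc 1 X).filter (fun N : ℕ => C * (N : ℝ) ^ (-y) < |SS f N|)).card ≤
        2 ^ (i0 + 1) + ∑ i ∈ Ioc i0 (Nat.log 2 X), (dirty i).card * hh δ i := by
      refine hcard.trans ((card_union_le _ _).trans ?_)
      apply add_le_add
      · simp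
      · refine card_biUnion_le.trans ?_
        apply sum_le_sum
        intro i _
        refine card_biUnion_le.trans ?_
        have : ∀ k, (cell δ i k).card = hh δ i := by
          intro k
          unfold cell
          rw [Nat.card_Ioc, add_mul, one_mul]
          omega
        simp [this]
    have h2 : (((Icc 1 X).filter (fun N : ℕ => C * (N : ℝ) ^ (-y) < |SS f N|)).card : ℝ) ≤
        P + ∑ i ∈ Ioc i0 (Nat.log 2 X), ((dirty i).card : ℝ) * hh δ i := by
      rw [hP]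
      exact_mod_cast h1
    have h3 : ∑ i ∈ Ioc i0 (Nat.log 2 X), ((dirty i).card : ℝ) * hh δ i ≤
        50 * ∑ i ∈ Ioc i0 (Nat.log 2 X), (2 : ℝ) ^ ((1 - lam + e - 3 * η / 2) * i) := by
      rw [mul_sum]
      apply sum_le_sum
      intro i hi
      rw [mem_Ioc] at hi
      have h4 := (hCO i hi.1).1
      have h5 := hh_le hδ2 i
      calc ((dirty i).card : ℝ) * hh δ i
          ≤ (50 * (2 : ℝ) ^ ((e - η) * i)) * (2 : ℝ) ^ ((1 / 2 - δ) * i) :=
            mul_le_mul h4 h5 (by positivity) (by positivity)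
        _ = 50 * (2 : ℝ) ^ ((1 - lam + e - 3 * η / 2) * i) := by
            rw [mul_assoc, ← Real.rpow_add (by norm_num)]
            congr 2
            rw [hδ]
            ring
    have h4 := hsum i0 X hX
    have h5 : (1 : ℝ) ≤ (X : ℝ) ^ z := Real.one_le_rpow hX1 hz0.le
    have h6 : P ≤ P * (X : ℝ) ^ z := le_mul_of_one_le_right hP0.le h5
    have h7 : 0 ≤ (5 * c * (2 : ℝ) ^ x + M0 * P ^ x + c / 16 * (2 : ℝ) ^ y) * (X : ℝ) ^ z := by positivity
    calc _ ≤ P + ∑ i ∈ Ioc i0 (Nat.log 2 X), ((dirty i).card : ℝ) * hh δ i := h2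
      _ ≤ P * (X : ℝ) ^ z + 50 * (K * (X : ℝ) ^ z) := by linarith
      _ ≤ C * (X : ℝ) ^ z := by
        rw [hC]
        linarith

end J6H67.DB
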