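import Pool.Agent.J6H67.DB.Stm2
import Pool.Agent.J6H67.DB.OUT

/-!
# Project DB (helper67): module CNT
-/

set_option autoImplicit false

namespace J6H67.DB

open Finset Pool.Agent.W76.MO Pool.Agent.Q240.KS
open scoped Classical

/-- the last element of the support before `N` -/
theorem last_supp {ε : ℝ} {i0 : ℕ} {f : ℕ → ℝ} (hG : GQ ε i0 f) {N : ℕ} (hN : 1 ≤ N)
    (hS : SS f N ≠ 0) : ∃ z : ℕ, 1 ≤ z ∧ z ≤ N ∧ f z ≠ 0 ∧
      ∀ p : ℕ, p.Prime → 2 ^ i0 < p → z < p → p ≤ N → False := by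
  have hne : ((Icc 1 N).filter fun n => f n ≠ 0).Nonempty := by
    refine ⟨1, ?_⟩
    rw [mem_filter, mem_Icc]
    refine ⟨⟨le_rfl, hN⟩, ?_⟩
    rw [hG.1.1]
    exact one_ne_zero
  set z := ((Icc 1 N).filter fun n => f n ≠ 0).max' hne with hz
  have hzm : z ∈ (Icc 1 N).filter fun n => f n ≠ 0 := Finset.max'_mem _ _
  rw [mem_filter, mem_Icc] at hzm
  have hf0 : ∀ n : ℕ, z < n → n ≤ N → f n = 0 := by
    intro n h1 h2
    by_contra h3
    have h4 : n ∈ (Icc 1 N).filter fun n => f n ≠ 0 := by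
      rw [mem_filter, mem_Icc]
      exact ⟨⟨by omega, h2⟩, h3⟩
    have h5 := Finset.le_max' _ _ h4
    omega
  have hSS : ∀ n : ℕ, z ≤ n → n ≤ N → SS f n = SS f N := by
    intro n h1 h2
    unfold SS
    refine sum_subset (Icc_subset_Icc_right h2) ?_
    intro x hx hx'
    rw [mem_Icc] at hx hx'
    exact hf0 x (by omega) hx.2
  refine ⟨z, hzm.1.1, hzm.1.2, hzm.2, ?_⟩
  intro p hp hp0 hzp hpN
  have h1 := (hG.2 p hp).2
  have h2 := hSS p hzp.le hpN
  have h3 := hf0 p hzp hpN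
  rcases h1 with h1 | h1
  · rw [h2] at h1
    exact hS h1
  · rw [h3, abs_zero] at h1
    have h4 : 0 < (p : ℝ) ^ (ε - 1) * gw i0 p := by
      have hp1 : (1 : ℝ) < p := by exact_mod_cast hp.one_lt
      have hlog : 0 < Real.log p := Real.log_pos hp1
      unfold gw
      rw [if_pos hp0]
      positivity
    linarith

theorem t_CNT : S_CNT := by
  intro c ε η lam e α hc hε hε1 hη hηe hel hlam hα i0 f hi0 hG hgrow hBB
  set δ : ℝ := lam - 1 / 2 + η / 2 with hδ
  have hlam0 : 0 < lam := by linarith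
  have hδ1 : -(1 / 2) ≤ δ := by rw [hδ]; linarith
  have hδ2 : δ < 1 / 2 := by rw [hδ]; linarith
  -- the support is thin
  have hthin : ∀ M : ℕ, 1 ≤ M → ((((Icc 1 M).filter (fun n => f n ≠ 0)).card : ℕ) : ℝ) ≤
      2 * (M : ℝ) ^ α := by
    intro M hM
    have hM0 : (0 : ℝ) < M := by exact_mod_cast hM
    have h1 : ∑ _n ∈ (Icc 1 M).filter (fun n => f n ≠ 0), (M : ℝ) ^ (-α) ≤
        ∑ n ∈ (Icc 1 M).filter (fun n => f n ≠ 0), (n : ℝ) ^ (-α) := by
      apply sum_le_sum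
      intro n hn
      rw [mem_filter, mem_Icc] at hn
      have hn0 : (0 : ℝ) < n := by exact_mod_cast hn.1.1
      exact Real.rpow_le_rpow_of_nonpos hn0 (by exact_mod_cast hn.1.2) (by linarith)
    rw [sum_const, nsmul_eq_mul] at h1
    have h2 := h1.trans (hgrow M)
    have h3 : (M : ℝ) ^ (-α) * (M : ℝ) ^ α = 1 := by
      rw [← Real.rpow_add hM0]; simp
    have h4 : (0 : ℝ) < (M : ℝ) ^ α := by positivity
    calc (((Icc 1 M).filter (fun n => f n ≠ 0)).card : ℝ)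
        = (((Icc 1 M).filter (fun n => f n ≠ 0)).card : ℝ) * (M : ℝ) ^ (-α) * (M : ℝ) ^ α := by
          rw [mul_assoc, h3, mul_one]
      _ ≤ 2 * (M : ℝ) ^ α := mul_le_mul_of_nonneg_right h2 h4.le
  set P : ℝ := (2 : ℝ) ^ (i0 + 1) with hP
  have hP0 : 0 < P := by positivity
  set z1 : ℝ := 1 - lam + α with hz1
  set z2 : ℝ := 1 - lam + e - η with hz2
  have hz10 : 0 < z1 := by rw [hz1]; linarith
  have hz20 : 0 < z2 := by rw [hz2]; linarith
  obtain ⟨K1, hK1, hsum1⟩ := sum_pow_le (x := α + (1 / 2 - δ)) (z := z1)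
    (by rw [hz1, hδ]; linarith) hz10
  obtain ⟨K2, hK2, hsum2⟩ := sum_pow_le (x := (e - η) + (1 / 2 - δ)) (z := z2)
    (by rw [hz2, hδ]; linarith) hz20
  refine ⟨P + 4 * (2 : ℝ) ^ α * K1 + 2 * K2, by positivity, ?_⟩
  intro X hX
  have hX1 : (1 : ℝ) ≤ X := by exact_mod_cast hX
  -- the exceptional set of one dyadic interval
  set A : ℕ → Finset ℕ := fun i => cell δ i 0 ∪
    ((((Icc 1 (2 ^ (i + 1))).filter (fun n => f n ≠ 0)).biUnion
      fun z => Ico z (z + 2 * hh δ i)) ∪ (BB c δ i).biUnion fun k => cell δ i (k + 1)) with hA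
  have hsub : (Icc 1 X).filter (fun N : ℕ => SS f N ≠ 0) ⊆
      Icc 1 (2 ^ (i0 + 1)) ∪ (Ioc i0 (Nat.log 2 X)).biUnion A := by
    intro N hN
    rw [mem_filter, mem_Icc] at hN
    obtain ⟨⟨hN1, hNX⟩, hNS⟩ := hN
    rw [mem_union]
    by_cases hb : 2 ^ (i0 + 1) < N
    · right
      obtain ⟨i, k, j, hi, hk, hj1, hj2, hNe, hNa, hNb⟩ := locate hδ1 i0 N hb
      have hhp := hh_pos δ i
      rw [mem_biUnion]
      refine ⟨i, ?_, ?_⟩
      · rw [mem_Ioc]
        exact ⟨hi, (Nat.le_log_iff_pow_le (by norm_num) (by omega)).2 (by omega)⟩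
      · rw [hA]
        simp only [mem_union, mem_biUnion]
        have hcellN : N ∈ cell δ i k := by
          unfold cell
          rw [mem_Ioc, hNe]
          constructor
          · omega
          · rw [add_mul, one_mul]
            omega
        rcases Nat.eq_zero_or_pos k with hk0 | hk0
        · left
          rw [← hk0]; exact hcellN
        · right
          obtain ⟨z, hz1, hzN, hfz, hzp⟩ := last_supp hG hN1 hNS
          obtain ⟨k', rfl⟩ : ∃ k', k = k' + 1 := ⟨k - 1, by omega⟩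
          have hexp : (k' + 1) * hh δ i = k' * hh δ i + hh δ i := by ring
          by_cases hzc : z ≤ 2 ^ i + k' * hh δ i
          · right
            refine ⟨k', ?_, hcellN⟩
            unfold BB
            rw [mem_filter, mem_range]
            refine ⟨by omega, ?_⟩
            have hempty : (cell δ i k').filter Nat.Prime = ∅ := by
              rw [filter_eq_empty_iff]
              intro p hp hpp
              unfold cell at hp
              rw [mem_Ioc, hexp] at hp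
              refine hzp p hpp ?_ (by omega) (by omega)
              have h5 : 2 ^ i0 ≤ 2 ^ i := Nat.pow_le_pow_right (by norm_num) hi.le
              have h6 : 0 ≤ k' * hh δ i := Nat.zero_le _
              omega
            rw [hempty, card_empty, Nat.cast_zero]
            have hi1 : (0 : ℝ) < i := by
              have : 0 < i := by omega
              exact_mod_cast this
            have hhp' : (0 : ℝ) < hh δ i := by exact_mod_cast hhp
            positivity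
          · left
            push Not at hzc
            refine ⟨z, ?_, ?_⟩
            · rw [mem_filter, mem_Icc]
              exact ⟨⟨hz1, hzN.trans hNb⟩, hfz⟩
            · rw [mem_Ico]
              refine ⟨hzN, ?_⟩
              rw [hNe, hexp]
              omega
    · left
      rw [mem_Icc]
      omega
  have hcellc : ∀ i k, (cell δ i k).card = hh δ i := by
    intro i k
    unfold cell
    rw [Nat.card_Ioc, add_mul, one_mul]
    omega
  have hAcard : ∀ i, i0 < i → ((A i).card : ℝ) ≤ 4 * (2 : ℝ) ^ α * (2 : ℝ) ^ ((α + (1 / 2 - δ)) * i) +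
      2 * (2 : ℝ) ^ (((e - η) + (1 / 2 - δ)) * i) := by
    intro i hi
    have h1 : (A i).card ≤ hh δ i +
        ((((Icc 1 (2 ^ (i + 1))).filter (fun n => f n ≠ 0)).card * (2 * hh δ i)) +
          (BB c δ i).card * hh δ i) := by
      rw [hA]
      refine (card_union_le _ _).trans ?_
      refine add_le_add (hcellc i 0).le ?_
      refine (card_union_le _ _).trans ?_
      refine add_le_add ?_ ?_
      · refine card_biUnion_le.trans ?_
        rw [sum_congr rfl fun z _ => show (Ico z (z + 2 * hh δ i)).card = 2 * hh δ i by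
          rw [Nat.card_Ico]; omega]
        rw [sum_const, smul_eq_mul]
      · refine card_biUnion_le.trans ?_
        rw [sum_congr rfl fun k _ => hcellc i (k + 1)]
        rw [sum_const, smul_eq_mul]
    have h2 : ((A i).card : ℝ) ≤ hh δ i +
        ((((Icc 1 (2 ^ (i + 1))).filter (fun n => f n ≠ 0)).card : ℝ) * (2 * hh δ i) +
          ((BB c δ i).card : ℝ) * hh δ i) := by exact_mod_cast h1
    have h3 := hthin (2 ^ (i + 1)) Nat.one_le_two_pow
    have h4 := hBB i hi.le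
    have h5 := hh_le hδ2 i
    have hh0 : (0 : ℝ) ≤ hh δ i := Nat.cast_nonneg _
    have hi0' : (0 : ℝ) ≤ i := Nat.cast_nonneg _
    have h6 : (1 : ℝ) ≤ (2 : ℝ) ^ ((e - η) * i) := by
      apply Real.one_le_rpow (by norm_num)
      have : 0 ≤ e - η := by linarith
      positivity
    have h7 : (((2 ^ (i + 1) : ℕ) : ℝ)) ^ α = (2 : ℝ) ^ α * (2 : ℝ) ^ (α * i) := by
      push_cast
      rw [← Real.rpow_natCast, ← Real.rpow_mul (by norm_num), ← Real.rpow_add (by norm_num)]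
      congr 1
      push_cast
      ring
    rw [h7] at h3
    have h8 : (2 : ℝ) ^ ((α + (1 / 2 - δ)) * i) = (2 : ℝ) ^ (α * i) * (2 : ℝ) ^ ((1 / 2 - δ) * i) := by
      rw [← Real.rpow_add (by norm_num)]
      congr 1
      ring
    have h9 : (2 : ℝ) ^ (((e - η) + (1 / 2 - δ)) * i) =
        (2 : ℝ) ^ ((e - η) * i) * (2 : ℝ) ^ ((1 / 2 - δ) * i) := by
      rw [← Real.rpow_add (by norm_num)]
      congr 1
      ring
    rw [h8, h9]
    have t1 : (((Icc 1 (2 ^ (i + 1))).filter (fun n => f n ≠ 0)).card : ℝ) * (2 * hh δ i) ≤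
        (2 * ((2 : ℝ) ^ α * (2 : ℝ) ^ (α * i))) * (2 * (2 : ℝ) ^ ((1 / 2 - δ) * i)) :=
      mul_le_mul h3 (by linarith) (by positivity) (by positivity)
    have t2 : ((BB c δ i).card : ℝ) * hh δ i ≤
        (2 : ℝ) ^ ((e - η) * i) * (2 : ℝ) ^ ((1 / 2 - δ) * i) :=
      mul_le_mul h4 h5 hh0 (by positivity)
    have t3 : (hh δ i : ℝ) ≤ (2 : ℝ) ^ ((e - η) * i) * (2 : ℝ) ^ ((1 / 2 - δ) * i) := by
      calc (hh δ i : ℝ) ≤ 1 * (2 : ℝ) ^ ((1 / 2 - δ) * i) := by rw [one_mul]; exact h5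
        _ ≤ _ := mul_le_mul_of_nonneg_right h6 (by positivity)
    calc ((A i).card : ℝ) ≤ _ := h2
      _ ≤ (2 : ℝ) ^ ((e - η) * i) * (2 : ℝ) ^ ((1 / 2 - δ) * i) +
          ((2 * ((2 : ℝ) ^ α * (2 : ℝ) ^ (α * i))) * (2 * (2 : ℝ) ^ ((1 / 2 - δ) * i)) +
            (2 : ℝ) ^ ((e - η) * i) * (2 : ℝ) ^ ((1 / 2 - δ) * i)) := by linarith
      _ = _ := by ring
  have h1 : ((Icc 1 X).filter (fun N : ℕ => SS f N ≠ 0)).card ≤
      2 ^ (i0 + 1) + ∑ i ∈ Ioc i0 (Nat.log 2 X), (A i).card := by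
    refine (card_le_card hsub).trans ((card_union_le _ _).trans ?_)
    exact add_le_add (by simp) card_biUnion_le
  have h2 : (((Icc 1 X).filter (fun N : ℕ => SS f N ≠ 0)).card : ℝ) ≤
      P + ∑ i ∈ Ioc i0 (Nat.log 2 X), ((A i).card : ℝ) := by
    rw [hP]
    exact_mod_cast h1
  have h3 : ∑ i ∈ Ioc i0 (Nat.log 2 X), ((A i).card : ℝ) ≤
      4 * (2 : ℝ) ^ α * ∑ i ∈ Ioc i0 (Nat.log 2 X), (2 : ℝ) ^ ((α + (1 / 2 - δ)) * i) +
      2 * ∑ i ∈ Ioc i0 (Nat.log 2 X), (2 : ℝ) ^ (((e - η) + (1 / 2 - δ)) * i) := by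
    rw [mul_sum, mul_sum, ← sum_add_distrib]
    apply sum_le_sum
    intro i hi
    rw [mem_Ioc] at hi
    exact hAcard i hi.1
  have h4 := hsum1 i0 X hX
  have h5 := hsum2 i0 X hX
  have h6 : (1 : ℝ) ≤ (X : ℝ) ^ z1 := Real.one_le_rpow hX1 hz10.le
  have h7 : (0 : ℝ) ≤ (X : ℝ) ^ z1 := by positivity
  have h8 : (0 : ℝ) ≤ (X : ℝ) ^ z2 := by positivity
  have h9 : 4 * (2 : ℝ) ^ α * ∑ i ∈ Ioc i0 (Nat.log 2 X), (2 : ℝ) ^ ((α + (1 / 2 - δ)) * i) ≤
      4 * (2 : ℝ) ^ α * (K1 * (X : ℝ) ^ z1) := mul_le_mul_of_nonneg_left h4 (by positivity)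
  have h10 : P ≤ P * (X : ℝ) ^ z1 := le_mul_of_one_le_right hP0.le h6
  have q1 : 0 ≤ P * (X : ℝ) ^ z2 := by positivity
  have q2 : 0 ≤ 4 * (2 : ℝ) ^ α * K1 * (X : ℝ) ^ z2 := by positivity
  have q3 : 0 ≤ 2 * K2 * (X : ℝ) ^ z1 := by positivity
  have e1 : (P + 4 * (2 : ℝ) ^ α * K1 + 2 * K2) * ((X : ℝ) ^ z1 + (X : ℝ) ^ z2) =
      P * (X : ℝ) ^ z1 + P * (X : ℝ) ^ z2 + 4 * (2 : ℝ) ^ α * (K1 * (X : ℝ) ^ z1) +
      4 * (2 : ℝ) ^ α * K1 * (X : ℝ) ^ z2 + 2 * K2 * (X : ℝ) ^ z1 + 2 * (K2 * (X : ℝ) ^ z2) := by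
    ring
  rw [e1]
  linarith

end J6H67.DB
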