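import Pool.Agent.J6H67.DB.Stm

/-!
# Project DB (helper67), second part: the greedy function has `S_f(N) = 0` for almost all `N`

Now `ε ∈ (3/16, 1)`, so that `|f n| ≤ n^(-β)`, `β = 1 - ε < 13/16`. A debt is paid by very few primes, so the support
`Z = {n : f n ≠ 0}` (the semigroup generated by the primes with `f p ≠ 0`) is thin: `∑_{n ∈ Z} n^(-α) ≤ 2` for `α > β` (`S_GROW`).
`S_f(N) ≠ 0` only if there is no prime between the last element of `Z` before `N` and `N` (`S_CNT`).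
-/

set_option autoImplicit false

namespace J6H67.DB

open Finset Pool.Agent.W76.MO Pool.Agent.Q240.KS
open scoped Classical

/-- the exact properties of the greedy function -/
def GQ (ε : ℝ) (i0 : ℕ) (f : ℕ → ℝ) : Prop := GP ε i0 f ∧
  ∀ p : ℕ, p.Prime → |SS f p| = |SS f (p - 1)| - |f p| ∧ (SS f p = 0 ∨ |f p| = (p : ℝ) ^ (ε - 1) * gw i0 p)

/-- `∑ n^(-α)` over the primes `n ≤ M` with `f n ≠ 0` -/
noncomputable def pS (f : ℕ → ℝ) (α : ℝ) (M : ℕ) : ℝ :=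
  ∑ n ∈ (Icc 1 M).filter (fun n => n.Prime ∧ f n ≠ 0), (n : ℝ) ^ (-α)

/-- `∑ n^(-α)` over the composite `n ≤ M` with `f n ≠ 0` -/
noncomputable def qS (f : ℕ → ℝ) (α : ℝ) (M : ℕ) : ℝ :=
  ∑ n ∈ (Icc 1 M).filter (fun n => ¬ n.Prime ∧ 1 < n ∧ f n ≠ 0), (n : ℝ) ^ (-α)

/-- **FULL** full payments. Proof. Let `F(M)` be the left side. `f n = 0` for `1 < n ≤ 2^i0` (as in ONE). By induction on `M ≥ 2^i0`:
`F(M) ≤ 2^(-α i0) + qS f α M - u(M)`, `u(M) = 0` if `SS f M = 0` and `M^(-α)` otherwise. Start: `F = 0`, `SS f = 1`. Step to `N = M+1`: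
`f N = 0`: `SS` unchanged, `N^(-α) ≤ M^(-α)`. `N` composite, `f N ≠ 0`: `qS` grows by `N^(-α)` and `u(N) ≤ N^(-α)`.
`N` prime, `f N ≠ 0`: `|SS f M| = |SS f N| + |f N| > 0`, so `u(M) = M^(-α) ≥ N^(-α)`; if `SS f N = 0` then `F` grows by `N^(-α)` and `u(N) = 0`;
otherwise `F` is unchanged and `u(N) = N^(-α)`. -/
def S_FULL : Prop := ∀ (ε α : ℝ) (i0 : ℕ) (f : ℕ → ℝ), 0 < ε → ε < 1 → 0 < α → 3 ≤ i0 → GQ ε i0 f → ∀ M : ℕ,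
  ∑ n ∈ (Icc 1 M).filter (fun n => n.Prime ∧ f n ≠ 0 ∧ SS f n = 0), (n : ℝ) ^ (-α) ≤
    (2 : ℝ) ^ (-α * i0) + qS f α M

/-- **PART** payments with full capacity. Proof. `β = 1 - ε`, `w(t) = t^(-(α-β)) (log t)²`, decreasing for `log t ≥ 2/(α-β)`, so on
`t ≥ 2^i0` for `i0 ≥ I`. For such a prime `n > 2^i0` (`f n ≠ 0`), `n^(-α) = w(n) |f n|`. By induction on `M ≥ 2^i0`:
`∑_{p ≤ M, p prime} w(p)|f p| + w(M)|SS f M| ≤ w(2^i0) + ∑_{1 < n ≤ M, n composite} w(n)|f n|` (start: `SS f (2^i0) = 1`; for a composite `N = M+1`: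
`|SS f N| ≤ |SS f M| + |f N|`, `w(N) ≤ w(M)`; for a prime `N`: `|f N| + |SS f N| = |SS f M|`). For composite `n` with `f n ≠ 0`:
`|f n| ≤ n^(-β) G n`, `G = LP (gw i0)`, `n = p m` with `p = minFac n`, `G n = gw p * G m ≤ 1/((log p)² (log m)²)` by `S_GW`, and
`log p, log m ≥ i0 log 2` (all primes dividing `n` are `> 2^i0` since `f n ≠ 0`); so
`(log n)² G n ≤ (1/log p + 1/log m)² ≤ 4/(i0 log 2)² ≤ 9/i0² ≤ 1` and `w(n)|f n| ≤ n^(-α)`. Last `w(2^i0) ≤ i0² 2^(-(α-1+ε) i0)`. -/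
def S_PART : Prop := ∀ (ε α : ℝ), 0 < ε → ε < 1 → 1 - ε < α → ∃ I : ℕ, 3 ≤ I ∧ ∀ (i0 : ℕ) (f : ℕ → ℝ), I ≤ i0 → GQ ε i0 f →
  ∀ M : ℕ, ∑ n ∈ (Icc 1 M).filter (fun n => n.Prime ∧ f n ≠ 0 ∧ |f n| = (n : ℝ) ^ (ε - 1) * gw i0 n), (n : ℝ) ^ (-α) ≤
    (i0 : ℝ) ^ 2 * (2 : ℝ) ^ (-(α - 1 + ε) * i0) + qS f α M

/-- **GROW** (from FULL, PART). Proof. `p(M) = pS f α M`, `q(M) = qS f α M`, `ι = 2^(-α i0) + i0² 2^(-(α-1+ε) i0) ≤ 1/40` for `i0 ≥ I`.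
By FULL and PART (every prime with `f p ≠ 0` has `SS f p = 0` or `|f p| = cap`): `p(M) ≤ ι + 2 q(M)`. Each composite `n ≤ M+1` with
`f n ≠ 0` is `n = p m`, `p = minFac n`, `m = n/p`, `1 < p, m ≤ M`, `f p ≠ 0 ≠ f m`, and `n ↦ (p, m)` is injective: `q(M+1) ≤ p(M)(p(M) + q(M))`.
Induction: `p(M) ≤ 2ι`, `q(M) ≤ ι` (`q(M+1) ≤ 2ι · 3ι ≤ ι/4`, `p(M+1) ≤ ι + ι/2`). The sum is `1 + p(M) + q(M) ≤ 2`. -/
def S_GROW : Prop := ∀ (ε α : ℝ), 0 < ε → ε < 1 → 1 - ε < α → ∃ I : ℕ, 3 ≤ I ∧ ∀ (i0 : ℕ) (f : ℕ → ℝ), I ≤ i0 → GQ ε i0 f →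
  ∀ M : ℕ, ∑ n ∈ (Icc 1 M).filter (fun n => f n ≠ 0), (n : ℝ) ^ (-α) ≤ 2

/-- **CNT**. Proof. (Compare `Pool/Agent/J6H67/DB/OUT.lean`: `hh_pos`, `hh_le`, `nc_mul`, `locate`, `sum_pow_le`.) `δ = lam - 1/2 + η/2`, `h = hh δ i`.
Let `N ∈ (2^i, 2^(i+1)]`, `i > i0`, `SS f N ≠ 0`, and let `z ≤ N` be the largest number with `f z ≠ 0` (`f 1 = 1`). Then `SS f n = SS f N ≠ 0`
for `z ≤ n ≤ N`, and there is no prime `p > 2^i0` with `z < p ≤ N`: such a `p` has `f p = 0`, `SS f p ≠ 0`, `gw i0 p > 0`, against `GQ`.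
Let `N = 2^i + k h + j`, `1 ≤ j ≤ h`. Either `k = 0`, or `N ≤ z + 2 h`, or the cell `k - 1` lies in `(z, N]`, contains no prime and is in
`BB c δ i`. As `#{z ≤ M : f z ≠ 0} ≤ 2 M^α` (each term of the sum is `≥ M^(-α)`), the number of these `N` is at most
`2 (2^(i+1))^α (2 h + 1) + (2^((e-η) i) + 1) h ≤ 12 · 2^α · 2^((α + 1 - lam - η/2) i) + 2 · 2^((1 - lam - η/2 + e - η) i)`. Sum over `i0 < i ≤ Nat.log 2 X`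
(`sum_pow_le`) and add `2^(i0+1)`. -/
def S_CNT : Prop := ∀ c ε η lam e α : ℝ, 0 < c → 0 < ε → ε < 1 → 0 < η → η ≤ e → e ≤ lam → lam + η / 2 < 1 → 0 < α →
  ∀ (i0 : ℕ) (f : ℕ → ℝ), 3 ≤ i0 → GQ ε i0 f → (∀ M : ℕ, ∑ n ∈ (Icc 1 M).filter (fun n => f n ≠ 0), (n : ℝ) ^ (-α) ≤ 2) →
    (∀ i : ℕ, i0 ≤ i → ((BB c (lam - 1 / 2 + η / 2) i).card : ℝ) ≤ (2 : ℝ) ^ ((e - η) * i)) →
    ∃ C : ℝ, 0 < C ∧ ∀ X : ℕ, 1 ≤ X → (((Icc 1 X).filter (fun N : ℕ => SS f N ≠ 0)).card : ℝ) ≤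
      C * ((X : ℝ) ^ (1 - lam + α) + (X : ℝ) ^ (1 - lam + e - η))

end J6H67.DB
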