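import Pool.Agent.J6H67.DB.GF
import Pool.Agent.J6H67.DB.Stm2

/-! Project DB, module FULL: full payments (helper73). -/

set_option autoImplicit false

namespace J6H67.DB

open Finset Pool.Agent.W76.MO Pool.Agent.Q240.KS
open scoped Classical

/-- `f n = 0` for `1 < n ≤ 2^i0` -/
theorem f_zero {ε : ℝ} {i0 : ℕ} {f : ℕ → ℝ} (hf : GP ε i0 f) {n : ℕ} (h1 : 1 < n) (h2 : n ≤ 2 ^ i0) :
    f n = 0 := by
  obtain ⟨-, -, h3, -⟩ := hf
  have h4 := h3 n h1.le
  have hp := Nat.minFac_prime (by omega : n ≠ 1)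
  have h5 : n.minFac ≤ 2 ^ i0 := (Nat.minFac_le (by omega)).trans h2
  have h6 : gw i0 n.minFac = 0 := by
    unfold gw
    rw [if_neg (by omega)]
  rw [Q236.CM.LP_div _ (by omega) hp (Nat.minFac_dvd n), h6, zero_mul, mul_zero] at h4
  exact abs_nonpos_iff.1 h4

theorem SS_succ (f : ℕ → ℝ) (M : ℕ) : SS f (M + 1) = SS f M + f (M + 1) := by
  unfold SS
  rw [Finset.sum_Icc_succ_top (by omega)]

theorem filter_succ (P : ℕ → Prop) [DecidablePred P] (g : ℕ → ℝ) (M : ℕ) :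
    ∑ n ∈ (Icc 1 (M + 1)).filter P, g n = ∑ n ∈ (Icc 1 M).filter P, g n + if P (M + 1) then g (M + 1) else 0 := by
  rw [Finset.sum_filter, Finset.sum_filter, Finset.sum_Icc_succ_top (by omega)]

theorem qS_nonneg (f : ℕ → ℝ) (α : ℝ) (M : ℕ) : 0 ≤ qS f α M :=
  Finset.sum_nonneg fun n _ => Real.rpow_nonneg (Nat.cast_nonneg n) _

theorem t_FULL : S_FULL := by
  intro ε α i0 f _ _ hα _ hf
  obtain ⟨hgp, hgq⟩ := hf
  have hzero : ∀ M, M ≤ 2 ^ i0 → ∑ n ∈ (Icc 1 M).filter (fun n => n.Prime ∧ f n ≠ 0 ∧ SS f n = 0), (n : ℝ) ^ (-α) = 0 := by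
    intro M hM
    rw [Finset.filter_eq_empty_iff.2, Finset.sum_empty]
    intro n hn hP
    rw [Finset.mem_Icc] at hn
    exact hP.2.1 (f_zero hgp hP.1.one_lt (hn.2.trans hM))
  have key : ∀ k, ∑ n ∈ (Icc 1 (2 ^ i0 + k)).filter (fun n => n.Prime ∧ f n ≠ 0 ∧ SS f n = 0), (n : ℝ) ^ (-α) +
      (if SS f (2 ^ i0 + k) = 0 then 0 else ((2 ^ i0 + k : ℕ) : ℝ) ^ (-α)) ≤
      (2 : ℝ) ^ (-α * i0) + qS f α (2 ^ i0 + k) := by
    intro k
    induction k with
    | zero =>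
      rw [Nat.add_zero, hzero _ le_rfl, zero_add]
      have h1 : ((2 ^ i0 : ℕ) : ℝ) ^ (-α) = (2 : ℝ) ^ (-α * i0) := by
        push_cast
        rw [← Real.rpow_natCast, ← Real.rpow_mul (by norm_num)]
        congr 1
        ring
      have h2 : (0 : ℝ) ≤ (2 : ℝ) ^ (-α * i0) := by positivity
      have h3 := qS_nonneg f α (2 ^ i0)
      split_ifs
      · linarith
      · rw [h1]
        linarith
    | succ k ih =>
      set M := 2 ^ i0 + k with hM
      rw [show 2 ^ i0 + (k + 1) = M + 1 by omega]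
      have hM1 : 1 ≤ M := by
        have := Nat.one_le_two_pow (n := i0)
        omega
      have hM0 : (0 : ℝ) < (M : ℝ) := by exact_mod_cast hM1
      have hmono : ((M + 1 : ℕ) : ℝ) ^ (-α) ≤ (M : ℝ) ^ (-α) := by
        refine Real.rpow_le_rpow_of_nonpos hM0 ?_ (by linarith)
        push_cast
        linarith
      have hpos : (0 : ℝ) ≤ ((M + 1 : ℕ) : ℝ) ^ (-α) := Real.rpow_nonneg (Nat.cast_nonneg _) _
      have hpos' : (0 : ℝ) ≤ (M : ℝ) ^ (-α) := Real.rpow_nonneg (Nat.cast_nonneg _) _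
      rw [filter_succ]
      unfold qS at ih ⊢
      rw [filter_succ (fun n => ¬ n.Prime ∧ 1 < n ∧ f n ≠ 0)]
      by_cases hf0 : f (M + 1) = 0
      · have hA : ¬ ((M + 1).Prime ∧ f (M + 1) ≠ 0 ∧ SS f (M + 1) = 0) := fun h => h.2.1 hf0
        have hB : ¬ (¬ (M + 1).Prime ∧ 1 < M + 1 ∧ f (M + 1) ≠ 0) := fun h => h.2.2 hf0
        rw [if_neg hA, if_neg hB, SS_succ, hf0, add_zero, add_zero, add_zero]
        split_ifs at ih ⊢ <;> linarith
      · by_cases hp : (M + 1).Prime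
        · have hB : ¬ (¬ (M + 1).Prime ∧ 1 < M + 1 ∧ f (M + 1) ≠ 0) := fun h => h.1 hp
          rw [if_neg hB, add_zero]
          have h1 := (hgq (M + 1) hp).1
          rw [Nat.add_sub_cancel] at h1
          have h2 : SS f M ≠ 0 := by
            intro h
            rw [h, abs_zero] at h1
            have h3 := abs_nonneg (SS f (M + 1))
            have h4 := abs_pos.2 hf0
            linarith
          rw [if_neg h2] at ih
          by_cases h5 : SS f (M + 1) = 0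
          · have hA : (M + 1).Prime ∧ f (M + 1) ≠ 0 ∧ SS f (M + 1) = 0 := ⟨hp, hf0, h5⟩
            rw [if_pos hA, if_pos h5]
            linarith
          · have hA : ¬ ((M + 1).Prime ∧ f (M + 1) ≠ 0 ∧ SS f (M + 1) = 0) := fun h => h5 h.2.2
            rw [if_neg hA, if_neg h5]
            linarith
        · have hA : ¬ ((M + 1).Prime ∧ f (M + 1) ≠ 0 ∧ SS f (M + 1) = 0) := fun h => hp h.1
          have hB : ¬ (M + 1).Prime ∧ 1 < M + 1 ∧ f (M + 1) ≠ 0 := ⟨hp, by omega, hf0⟩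
          rw [if_neg hA, if_pos hB]
          split_ifs at ih ⊢ <;> linarith
  intro M
  rcases le_total M (2 ^ i0) with hM | hM
  · rw [hzero M hM]
    have h2 : (0 : ℝ) ≤ (2 : ℝ) ^ (-α * i0) := by positivity
    have h3 := qS_nonneg f α M
    linarith
  · obtain ⟨k, rfl⟩ := Nat.exists_eq_add_of_le hM
    have h1 := key k
    have h2 : (0 : ℝ) ≤ (if SS f (2 ^ i0 + k) = 0 then 0 else ((2 ^ i0 + k : ℕ) : ℝ) ^ (-α)) := by
      split_ifs
      · exact le_rfl
      · exact Real.rpow_nonneg (Nat.cast_nonneg _) _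
    linarith

end J6H67.DB
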