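import Pool.Agent.J6H67.DB.Stm

/-!
# Project DB (helper67): assembly
-/

set_option autoImplicit false

namespace J6H67.DB

open Finset Pool.Agent.W76.MO Pool.Agent.Q240.KS
open scoped Classical

theorem gw_nonneg_Fin (i0 p : ℕ) : 0 ≤ gw i0 p := by
  unfold gw
  split_ifs <;> positivity

theorem gw_le_one {i0 : ℕ} (h3 : 3 ≤ i0) (p : ℕ) : gw i0 p ≤ 1 := by
  unfold gw
  split_ifs with h
  · have h8 : (8 : ℕ) < p := lt_of_le_of_lt (by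
      calc (8 : ℕ) = 2 ^ 3 := by norm_num
        _ ≤ 2 ^ i0 := Nat.pow_le_pow_right (by norm_num) h3) h
    have h9 : (8 : ℝ) ≤ p := by exact_mod_cast h8.le
    have hl : 1 ≤ Real.log p := by
      rw [Real.le_log_iff_exp_le (by linarith)]
      have := Real.exp_one_lt_d9
      linarith
    rw [div_le_one (by positivity)]
    nlinarith
  · exact zero_le_one

theorem LP_gw_le_one {i0 : ℕ} (h3 : 3 ≤ i0) {n : ℕ} (hn : n ≠ 0) : Q236.CM.LP (gw i0) n ≤ 1 := by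
  have h1 := Q236.CM.LP_le (gw i0) (fun _ => (1 : ℝ)) (gw_nonneg_Fin i0) hn (fun p _ _ => gw_le_one h3 p)
  have h2 : Q236.CM.LP (fun _ => (1 : ℝ)) n = 1 := by unfold Q236.CM.LP; simp
  rwa [h2] at h1

theorem pack (hBAD : S_BAD) (hONE : S_ONE) (hSC : S_SC) (hDEB : S_DEB) (hOUT : S_OUT) {lam e : ℝ}
    (h1 : 1 / 10 ≤ lam) (h2 : lam < 1) (he : 0 < e) (hel : e ≤ lam) (hM : MAINP lam e) :
    ∃ η₁ : ℝ, 0 < η₁ ∧ ∀ η ε : ℝ, 0 < η → η ≤ η₁ → 0 < ε → ε ≤ η / 8 → ∃ I : ℕ, ∀ i0 : ℕ, I ≤ i0 →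
      ∀ f : ℕ → ℝ, GP ε i0 f → ∃ C : ℝ, 0 < C ∧
        (∀ N : ℕ, 1 ≤ N → |SS f N| ≤ C * (N : ℝ) ^ (-(lam - e + η / 4))) ∧
        ∀ X : ℕ, 1 ≤ X → (((Icc 1 X).filter (fun N : ℕ => C * (N : ℝ) ^ (-(lam + η / 4)) < |SS f N|)).card : ℝ) ≤
          C * (X : ℝ) ^ (1 - lam + e - η) := by
  obtain ⟨c, η₁, hc, hη₁, hB⟩ := hBAD lam e h1 h2 hM
  refine ⟨min η₁ (min e (1 - lam)), lt_min hη₁ (lt_min he (by linarith)), ?_⟩
  intro η ε hη hηle hε hεη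
  have ha : η ≤ η₁ := hηle.trans (min_le_left _ _)
  have hb : η ≤ e := hηle.trans ((min_le_right _ _).trans (min_le_left _ _))
  have hd : η ≤ 1 - lam := hηle.trans ((min_le_right _ _).trans (min_le_right _ _))
  have hε1 : ε < 1 := by linarith
  obtain ⟨I1, hI1⟩ := hB η hη ha
  obtain ⟨I2, hI2, hI2'⟩ := hSC c ε (lam - 1 / 2 + η / 2) hc hε hε1 (by linarith) (by linarith)
  obtain ⟨I3, hI3, hI3'⟩ := hDEB c ε η lam e hc hε hε1 hη hb hel (by linarith)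
  refine ⟨max I1 (max I2 I3), ?_⟩
  intro i0 hi0 f hf
  have hi1 : I1 ≤ i0 := (le_max_left _ _).trans hi0
  have hi2 : I2 ≤ i0 := ((le_max_left _ _).trans (le_max_right _ _)).trans hi0
  have hi3 : I3 ≤ i0 := ((le_max_right _ _).trans (le_max_right _ _)).trans hi0
  have hS := hI2' i0 hi2 f hf
  have hCo := hI3' i0 hi3 f (hONE ε i0 f hf) hS (fun i hi => hI1 i (hi1.trans hi))
  exact hOUT c ε η lam e hc hε hεη hη hb hel (by linarith) i0 f (hI2.trans hi2) hS hCo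

theorem main (hBAD : S_BAD) (hGF : S_GF) (hONE : S_ONE) (hSC : S_SC) (hDEB : S_DEB) (hOUT : S_OUT)
    (hM1 : MAINP (13 / 16) (13 / 16)) (hM2 : MAINP (1 / 2) 0.306) (hM3 : MAINP 0.43 0.045) :
    ∃ c : ℝ, 0 < c ∧ ∀ ε : ℝ, 0 < ε → ∃ (f : ℕ → ℝ) (C : ℝ), f 1 = 1 ∧
      (∀ m n : ℕ, 1 ≤ m → 1 ≤ n → f (m * n) = f m * f n) ∧
      (∀ n : ℕ, 1 ≤ n → |f n| ≤ (n : ℝ) ^ (-1 + ε)) ∧
      (∀ N : ℕ, 1 ≤ N → |∑ n ∈ Icc 1 N, f n| ≤ C * (N : ℝ) ^ (-(0.385 + c))) ∧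
      (∀ X : ℕ, 1 ≤ X → (((Icc 1 X).filter (fun N : ℕ =>
        C * (N : ℝ) ^ (-(13 / 16 + c)) < |∑ n ∈ Icc 1 N, f n|)).card : ℝ) ≤ C * (X : ℝ) ^ (1 - c)) ∧
      (∀ X : ℕ, 1 ≤ X → (((Icc 1 X).filter (fun N : ℕ =>
        C * (N : ℝ) ^ (-(1 / 2 + c)) < |∑ n ∈ Icc 1 N, f n|)).card : ℝ) ≤ C * (X : ℝ) ^ (0.806 - c)) := by
  obtain ⟨η1, hη1, H1⟩ := pack hBAD hONE hSC hDEB hOUT (lam := 13 / 16) (e := 13 / 16) (by norm_num) (by norm_num)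
    (by norm_num) le_rfl hM1
  obtain ⟨η2, hη2, H2⟩ := pack hBAD hONE hSC hDEB hOUT (lam := 1 / 2) (e := 0.306) (by norm_num) (by norm_num)
    (by norm_num) (by norm_num) hM2
  obtain ⟨η3, hη3, H3⟩ := pack hBAD hONE hSC hDEB hOUT (lam := 0.43) (e := 0.045) (by norm_num) (by norm_num)
    (by norm_num) (by norm_num) hM3
  set η : ℝ := min η1 (min η2 η3) with hη
  have hη0 : 0 < η := lt_min hη1 (lt_min hη2 hη3)
  refine ⟨η / 4, by positivity, ?_⟩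
  intro ε hε
  set ε' : ℝ := min ε (η / 8) with hε'
  have hε0 : 0 < ε' := lt_min hε (by positivity)
  have hε1 : ε' ≤ ε := min_le_left _ _
  have hε2 : ε' ≤ η / 8 := min_le_right _ _
  obtain ⟨I1, hI1⟩ := H1 η ε' hη0 (min_le_left _ _) hε0 hε2
  obtain ⟨I2, hI2⟩ := H2 η ε' hη0 ((min_le_right _ _).trans (min_le_left _ _)) hε0 hε2
  obtain ⟨I3, hI3⟩ := H3 η ε' hη0 ((min_le_right _ _).trans (min_le_right _ _)) hε0 hε2
  set i0 : ℕ := max 3 (max I1 (max I2 I3)) with hi0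
  have h3 : 3 ≤ i0 := le_max_left _ _
  have hi1 : I1 ≤ i0 := (le_max_left _ _).trans (le_max_right _ _)
  have hi2 : I2 ≤ i0 := ((le_max_left _ _).trans (le_max_right _ _)).trans (le_max_right _ _)
  have hi3 : I3 ≤ i0 := ((le_max_right _ _).trans (le_max_right _ _)).trans (le_max_right _ _)
  obtain ⟨f, hf⟩ := hGF ε' i0
  obtain ⟨C1, hC1, -, hA1⟩ := hI1 i0 hi1 f hf
  obtain ⟨C2, hC2, -, hA2⟩ := hI2 i0 hi2 f hf
  obtain ⟨C3, hC3, hA3, -⟩ := hI3 i0 hi3 f hf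
  set C : ℝ := max C1 (max C2 C3) with hC
  have hCC1 : C1 ≤ C := le_max_left _ _
  have hCC2 : C2 ≤ C := (le_max_left _ _).trans (le_max_right _ _)
  have hCC3 : C3 ≤ C := (le_max_right _ _).trans (le_max_right _ _)
  refine ⟨f, C, hf.1, hf.2.1, ?_, ?_, ?_, ?_⟩
  · intro n hn
    have hn1 : (1 : ℝ) ≤ n := by exact_mod_cast hn
    refine (hf.2.2.1 n hn).trans ?_
    have h4 := LP_gw_le_one h3 (n := n) (by omega)
    have h5 : (n : ℝ) ^ (ε' - 1) * Q236.CM.LP (gw i0) n ≤ (n : ℝ) ^ (ε' - 1) * 1 :=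
      mul_le_mul_of_nonneg_left h4 (by positivity)
    rw [mul_one] at h5
    exact h5.trans (Real.rpow_le_rpow_of_exponent_le hn1 (by linarith))
  · intro N hN
    have h4 := hA3 N hN
    have hN1 : (0 : ℝ) ≤ (N : ℝ) ^ (-(0.385 + η / 4)) := by positivity
    have e1 : (-((0.43 : ℝ) - 0.045 + η / 4)) = -(0.385 + η / 4) := by ring
    rw [e1] at h4
    exact h4.trans (mul_le_mul_of_nonneg_right hCC3 hN1)
  · intro X hX
    have hX1 : (1 : ℝ) ≤ X := by exact_mod_cast hX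
    have h4 := hA1 X hX
    have e1 : (1 : ℝ) - 13 / 16 + 13 / 16 - η = 1 - η := by ring
    rw [e1] at h4
    have h5 : ((Icc 1 X).filter (fun N : ℕ => C * (N : ℝ) ^ (-(13 / 16 + η / 4)) < |∑ n ∈ Icc 1 N, f n|)).card ≤
        ((Icc 1 X).filter (fun N : ℕ => C1 * (N : ℝ) ^ (-(13 / 16 + η / 4)) < |SS f N|)).card := by
      apply card_le_card
      intro N hN
      rw [mem_filter] at hN ⊢
      refine ⟨hN.1, lt_of_le_of_lt ?_ hN.2⟩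
      exact mul_le_mul_of_nonneg_right hCC1 (by positivity)
    calc (((Icc 1 X).filter (fun N : ℕ => C * (N : ℝ) ^ (-(13 / 16 + η / 4)) < |∑ n ∈ Icc 1 N, f n|)).card : ℝ)
        ≤ (((Icc 1 X).filter (fun N : ℕ => C1 * (N : ℝ) ^ (-(13 / 16 + η / 4)) < |SS f N|)).card : ℝ) := by
          exact_mod_cast h5
      _ ≤ C1 * (X : ℝ) ^ (1 - η) := h4
      _ ≤ C * (X : ℝ) ^ (1 - η / 4) := by
          have h6 : (X : ℝ) ^ (1 - η) ≤ (X : ℝ) ^ (1 - η / 4) :=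
            Real.rpow_le_rpow_of_exponent_le hX1 (by linarith)
          exact mul_le_mul hCC1 h6 (by positivity) (hC1.le.trans hCC1)
  · intro X hX
    have hX1 : (1 : ℝ) ≤ X := by exact_mod_cast hX
    have h4 := hA2 X hX
    have e1 : (1 : ℝ) - 1 / 2 + 0.306 - η = 0.806 - η := by ring
    rw [e1] at h4
    have h5 : ((Icc 1 X).filter (fun N : ℕ => C * (N : ℝ) ^ (-(1 / 2 + η / 4)) < |∑ n ∈ Icc 1 N, f n|)).card ≤
        ((Icc 1 X).filter (fun N : ℕ => C2 * (N : ℝ) ^ (-(1 / 2 + η / 4)) < |SS f N|)).card := by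
      apply card_le_card
      intro N hN
      rw [mem_filter] at hN ⊢
      refine ⟨hN.1, lt_of_le_of_lt ?_ hN.2⟩
      exact mul_le_mul_of_nonneg_right hCC2 (by positivity)
    calc (((Icc 1 X).filter (fun N : ℕ => C * (N : ℝ) ^ (-(1 / 2 + η / 4)) < |∑ n ∈ Icc 1 N, f n|)).card : ℝ)
        ≤ (((Icc 1 X).filter (fun N : ℕ => C2 * (N : ℝ) ^ (-(1 / 2 + η / 4)) < |SS f N|)).card : ℝ) := by
          exact_mod_cast h5
      _ ≤ C2 * (X : ℝ) ^ (0.806 - η) := h4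
      _ ≤ C * (X : ℝ) ^ (0.806 - η / 4) := by
          have h6 : (X : ℝ) ^ (0.806 - η) ≤ (X : ℝ) ^ (0.806 - η / 4) :=
            Real.rpow_le_rpow_of_exponent_le hX1 (by linarith)
          exact mul_le_mul hCC2 h6 (by positivity) (hC2.le.trans hCC2)

end J6H67.DB
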