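import Pool.Agent.J6H67.DB.GQ
import Pool.Agent.J6H67.DB.Fin

/-!
# Project DB (helper67): assembly of the second part
-/

set_option autoImplicit false

namespace J6H67.DB

open Finset Pool.Agent.W76.MO Pool.Agent.Q240.KS
open scoped Classical

theorem pack_pt (hBAD : S_BAD) (hONE : S_ONE) (hSC : S_SC) (hDEB : S_DEB) {lam e : ℝ}
    (h1 : 1 / 10 ≤ lam) (h2 : lam < 1) (he : 0 < e) (hel : e ≤ lam) (hM : MAINP lam e) :
    ∃ η₁ : ℝ, 0 < η₁ ∧ ∀ η ε : ℝ, 0 < η → η ≤ η₁ → 0 < ε → ε < 1 → 0 ≤ lam - e - ε + η / 4 → ∃ I : ℕ, ∀ i0 : ℕ, I ≤ i0 →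
      ∀ f : ℕ → ℝ, GP ε i0 f → ∃ C : ℝ, 0 < C ∧ ∀ N : ℕ, 1 ≤ N → |SS f N| ≤ C * (N : ℝ) ^ (-(lam - e - ε + η / 4)) := by
  obtain ⟨c, η₁, hc, hη₁, hB⟩ := hBAD lam e h1 h2 hM
  refine ⟨min η₁ (min e (1 - lam)), lt_min hη₁ (lt_min he (by linarith)), ?_⟩
  intro η ε hη hηle hε hε1 hx
  have ha : η ≤ η₁ := hηle.trans (min_le_left _ _)
  have hb : η ≤ e := hηle.trans ((min_le_right _ _).trans (min_le_left _ _))
  have hd : η ≤ 1 - lam := hηle.trans ((min_le_right _ _).trans (min_le_right _ _))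
  obtain ⟨I1, hI1⟩ := hB η hη ha
  obtain ⟨I2, hI2, hI2'⟩ := hSC c ε (lam - 1 / 2 + η / 2) hc hε hε1 (by linarith) (by linarith)
  obtain ⟨I3, hI3, hI3'⟩ := hDEB c ε η lam e hc hε hε1 hη hb hel (by linarith)
  refine ⟨max I1 (max I2 I3), ?_⟩
  intro i0 hi0 f hf
  have hi1 : I1 ≤ i0 := (le_max_left _ _).trans hi0
  have hi2 : I2 ≤ i0 := ((le_max_left _ _).trans (le_max_right _ _)).trans hi0
  have hi3 : I3 ≤ i0 := ((le_max_right _ _).trans (le_max_right _ _)).trans hi0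
  have hS := hI2' i0 hi2 f hf
  have hCo := hI3' i0 hi3 f (hONE ε i0 f hf) hS (fun i hi => hI1 i (hi1.trans hi))
  exact out2 c ε η lam e hc hη hb (by linarith) hx i0 f (by linarith) hS hCo

theorem pack_ct (hBAD : S_BAD) (hGROW : S_GROW) (hCNT : S_CNT) {lam e : ℝ}
    (h1 : 1 / 10 ≤ lam) (h2 : lam < 1) (he : 0 < e) (hel : e ≤ lam) (hM : MAINP lam e) :
    ∃ η₁ : ℝ, 0 < η₁ ∧ ∀ η ε α : ℝ, 0 < η → η ≤ η₁ → 0 < ε → ε < 1 → 1 - ε < α → ∃ I : ℕ, ∀ i0 : ℕ, I ≤ i0 →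
      ∀ f : ℕ → ℝ, GQ ε i0 f → ∃ C : ℝ, 0 < C ∧ ∀ X : ℕ, 1 ≤ X →
        (((Icc 1 X).filter (fun N : ℕ => SS f N ≠ 0)).card : ℝ) ≤
          C * ((X : ℝ) ^ (1 - lam + α) + (X : ℝ) ^ (1 - lam + e - η)) := by
  obtain ⟨c, η₁, hc, hη₁, hB⟩ := hBAD lam e h1 h2 hM
  refine ⟨min η₁ (min e (1 - lam)), lt_min hη₁ (lt_min he (by linarith)), ?_⟩
  intro η ε α hη hηle hε hε1 hα
  have ha : η ≤ η₁ := hηle.trans (min_le_left _ _)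
  have hb : η ≤ e := hηle.trans ((min_le_right _ _).trans (min_le_left _ _))
  have hd : η ≤ 1 - lam := hηle.trans ((min_le_right _ _).trans (min_le_right _ _))
  obtain ⟨I1, hI1⟩ := hB η hη ha
  obtain ⟨I2, hI2, hI2'⟩ := hGROW ε α hε hε1 hα
  refine ⟨max I1 I2, ?_⟩
  intro i0 hi0 f hf
  have hi1 : I1 ≤ i0 := (le_max_left _ _).trans hi0
  have hi2 : I2 ≤ i0 := (le_max_right _ _).trans hi0
  exact hCNT c ε η lam e α hc hε hε1 hη hb hel (by linarith) (by linarith) i0 f (hI2.trans hi2) hf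
    (hI2' i0 f hi2 hf) (fun i hi => hI1 i (hi1.trans hi))

theorem main2 (hBAD : S_BAD) (hONE : S_ONE) (hSC : S_SC) (hDEB : S_DEB) (hGROW : S_GROW) (hCNT : S_CNT)
    (hM1 : MAINP (13 / 16) (13 / 16)) (hM3 : MAINP 0.43 0.045) :
    ∀ β : ℝ, 0.615 < β → β < 13 / 16 → ∃ (f : ℕ → ℝ) (C c : ℝ), 0 < c ∧ f 1 = 1 ∧
      (∀ m n : ℕ, 1 ≤ m → 1 ≤ n → f (m * n) = f m * f n) ∧
      (∀ n : ℕ, 1 ≤ n → |f n| ≤ (n : ℝ) ^ (-β)) ∧
      (∀ N : ℕ, 1 ≤ N → |∑ n ∈ Icc 1 N, f n| ≤ C * (N : ℝ) ^ (-(β - 0.615))) ∧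
      (∀ X : ℕ, 1 ≤ X → (((Icc 1 X).filter (fun N : ℕ => ∑ n ∈ Icc 1 N, f n ≠ 0)).card : ℝ) ≤
        C * (X : ℝ) ^ (1 - c)) := by
  intro β hβ1 hβ2
  obtain ⟨η1, hη1, H1⟩ := pack_ct hBAD hGROW hCNT (lam := 13 / 16) (e := 13 / 16) (by norm_num) (by norm_num)
    (by norm_num) le_rfl hM1
  obtain ⟨η3, hη3, H3⟩ := pack_pt hBAD hONE hSC hDEB (lam := 0.43) (e := 0.045) (by norm_num) (by norm_num)
    (by norm_num) (by norm_num) hM3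
  set ε : ℝ := 1 - β with hε
  set α : ℝ := (β + 13 / 16) / 2 with hα
  have hε0 : 0 < ε := by rw [hε]; linarith
  have hε1 : ε < 1 := by rw [hε]; linarith
  obtain ⟨I1, hI1⟩ := H1 η1 ε α hη1 le_rfl hε0 hε1 (by rw [hε, hα]; linarith)
  obtain ⟨I3, hI3⟩ := H3 η3 ε hη3 le_rfl hε0 hε1 (by rw [hε]; linarith)
  set i0 : ℕ := max 3 (max I1 I3) with hi0
  have h3 : 3 ≤ i0 := le_max_left _ _
  have hi1 : I1 ≤ i0 := (le_max_left _ _).trans (le_max_right _ _)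
  have hi3 : I3 ≤ i0 := (le_max_right _ _).trans (le_max_right _ _)
  obtain ⟨f, hf⟩ := exists_GQ ε i0
  obtain ⟨C1, hC1, hA1⟩ := hI1 i0 hi1 f hf
  obtain ⟨C3, hC3, hA3⟩ := hI3 i0 hi3 f hf.1
  set C : ℝ := max (2 * C1) C3 with hC
  have hCC1 : 2 * C1 ≤ C := le_max_left _ _
  have hCC3 : C3 ≤ C := le_max_right _ _
  set c : ℝ := min (13 / 16 - α) η1 with hc
  have hca : c ≤ 13 / 16 - α := min_le_left _ _
  have hcb : c ≤ η1 := min_le_right _ _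
  refine ⟨f, C, c, lt_min (by rw [hα]; linarith) hη1, hf.1.1, hf.1.2.1, ?_, ?_, ?_⟩
  · intro n hn
    refine (hf.1.2.2.1 n hn).trans ?_
    have h4 := LP_gw_le_one h3 (n := n) (by omega)
    have h5 : (n : ℝ) ^ (ε - 1) * Q236.CM.LP (gw i0) n ≤ (n : ℝ) ^ (ε - 1) * 1 :=
      mul_le_mul_of_nonneg_left h4 (by positivity)
    rw [mul_one] at h5
    have e1 : ε - 1 = -β := by rw [hε]; ring
    rw [e1] at h5 ⊢
    exact h5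
  · intro N hN
    have hN1 : (1 : ℝ) ≤ N := by exact_mod_cast hN
    have h4 := hA3 N hN
    have h5 : (N : ℝ) ^ (-((0.43 : ℝ) - 0.045 - ε + η3 / 4)) ≤ (N : ℝ) ^ (-(β - 0.615)) := by
      apply Real.rpow_le_rpow_of_exponent_le hN1
      rw [hε]
      linarith
    calc |∑ n ∈ Icc 1 N, f n| ≤ C3 * (N : ℝ) ^ (-((0.43 : ℝ) - 0.045 - ε + η3 / 4)) := h4
      _ ≤ C * (N : ℝ) ^ (-(β - 0.615)) := mul_le_mul hCC3 h5 (by positivity) (hC3.le.trans hCC3)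
  · intro X hX
    have hX1 : (1 : ℝ) ≤ X := by exact_mod_cast hX
    have h4 := hA1 X hX
    have h5 : (X : ℝ) ^ (1 - (13 : ℝ) / 16 + α) ≤ (X : ℝ) ^ (1 - c) :=
      Real.rpow_le_rpow_of_exponent_le hX1 (by linarith)
    have h6 : (X : ℝ) ^ (1 - (13 : ℝ) / 16 + 13 / 16 - η1) ≤ (X : ℝ) ^ (1 - c) :=
      Real.rpow_le_rpow_of_exponent_le hX1 (by linarith)
    have h7 : (0 : ℝ) ≤ (X : ℝ) ^ (1 - c) := by positivity
    calc (((Icc 1 X).filter (fun N : ℕ => ∑ n ∈ Icc 1 N, f n ≠ 0)).card : ℝ)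
        ≤ C1 * ((X : ℝ) ^ (1 - (13 : ℝ) / 16 + α) + (X : ℝ) ^ (1 - (13 : ℝ) / 16 + 13 / 16 - η1)) := h4
      _ ≤ C1 * (2 * (X : ℝ) ^ (1 - c)) := mul_le_mul_of_nonneg_left (by linarith) hC1.le
      _ = 2 * C1 * (X : ℝ) ^ (1 - c) := by ring
      _ ≤ C * (X : ℝ) ^ (1 - c) := mul_le_mul_of_nonneg_right hCC1 h7

end J6H67.DB
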