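import Pool.Agent.J6H67.DB.Stm2

/-! GROW: the support of the greedy function is thin. -/

set_option autoImplicit false

namespace J6H67.DB

open Finset Pool.Agent.W76.MO Pool.Agent.Q240.KS
open scoped Classical

namespace GROW

theorem pS_nonneg (f : ℕ → ℝ) (α : ℝ) (M : ℕ) : 0 ≤ pS f α M :=
  Finset.sum_nonneg fun _ _ => Real.rpow_nonneg (Nat.cast_nonneg _) _

theorem qS_nonneg (f : ℕ → ℝ) (α : ℝ) (M : ℕ) : 0 ≤ qS f α M :=
  Finset.sum_nonneg fun _ _ => Real.rpow_nonneg (Nat.cast_nonneg _) _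

/-- the nontrivial support -/
theorem sum_big (f : ℕ → ℝ) (α : ℝ) (M : ℕ) :
    ∑ n ∈ (Icc 1 M).filter (fun n => 1 < n ∧ f n ≠ 0), (n : ℝ) ^ (-α) = pS f α M + qS f α M := by
  unfold pS qS
  rw [Finset.sum_filter, Finset.sum_filter, Finset.sum_filter, ← Finset.sum_add_distrib]
  refine Finset.sum_congr rfl fun n _ => ?_
  by_cases hp : n.Prime
  · have h1 := hp.one_lt
    by_cases hf : f n ≠ 0
    · rw [if_pos ⟨h1, hf⟩, if_pos ⟨hp, hf⟩, if_neg (fun h => h.1 hp), add_zero]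
    · rw [if_neg (fun h => hf h.2), if_neg (fun h => hf h.2), if_neg (fun h => h.1 hp), add_zero]
  · by_cases h : 1 < n ∧ f n ≠ 0
    · rw [if_pos h, if_neg (fun h => hp h.1), if_pos ⟨hp, h.1, h.2⟩, zero_add]
    · rw [if_neg h, if_neg (fun h => hp h.1), if_neg (fun h' => h h'.2), add_zero]

theorem sum_all {f : ℕ → ℝ} (α : ℝ) (M : ℕ) :
    ∑ n ∈ (Icc 1 M).filter (fun n => f n ≠ 0), (n : ℝ) ^ (-α) ≤ 1 + (pS f α M + qS f α M) := by
  rw [← sum_big]
  have h1 : (Icc 1 M).filter (fun n => f n ≠ 0) ⊆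
      {1} ∪ (Icc 1 M).filter (fun n => 1 < n ∧ f n ≠ 0) := by
    intro n hn
    rw [mem_filter, mem_Icc] at hn
    rw [mem_union, mem_singleton, mem_filter, mem_Icc]
    by_cases h : n = 1
    · exact Or.inl h
    · exact Or.inr ⟨hn.1, by omega, hn.2⟩
  calc _ ≤ ∑ n ∈ {1} ∪ (Icc 1 M).filter (fun n => 1 < n ∧ f n ≠ 0), (n : ℝ) ^ (-α) :=
        Finset.sum_le_sum_of_subset_of_nonneg h1 fun _ _ _ => Real.rpow_nonneg (Nat.cast_nonneg _) _
    _ = _ := by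
        rw [Finset.sum_union]
        · simp
        · rw [Finset.disjoint_singleton_left, mem_filter]
          rintro ⟨_, h, _⟩
          exact lt_irrefl _ h

theorem sum_le_inj {s : Finset ℕ} {t : Finset (ℕ × ℕ)} {F : ℕ → ℝ} {G : ℕ × ℕ → ℝ} (g : ℕ → ℕ × ℕ)
    (h1 : ∀ n ∈ s, g n ∈ t) (h2 : ∀ n ∈ s, ∀ n' ∈ s, g n = g n' → n = n')
    (h3 : ∀ n ∈ s, F n ≤ G (g n)) (h4 : ∀ x ∈ t, 0 ≤ G x) : ∑ n ∈ s, F n ≤ ∑ x ∈ t, G x := by
  calc ∑ n ∈ s, F n ≤ ∑ n ∈ s, G (g n) := Finset.sum_le_sum h3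
    _ = ∑ x ∈ s.image g, G x := (Finset.sum_image fun a ha b hb h => h2 a ha b hb h).symm
    _ ≤ ∑ x ∈ t, G x := by
        refine Finset.sum_le_sum_of_subset_of_nonneg ?_ fun x hx _ => h4 x hx
        intro x hx
        obtain ⟨n, hn, rfl⟩ := mem_image.1 hx
        exact h1 n hn

theorem qS_step {f : ℕ → ℝ} (hm : ∀ m n : ℕ, 1 ≤ m → 1 ≤ n → f (m * n) = f m * f n) (α : ℝ) (M : ℕ) :
    qS f α (M + 1) ≤ pS f α M * (pS f α M + qS f α M) := by
  rw [← sum_big]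
  unfold qS pS
  rw [Finset.sum_mul_sum, ← Finset.sum_product']
  refine sum_le_inj (fun n => (n.minFac, n / n.minFac)) ?_ ?_ ?_ ?_
  · intro n hn
    rw [mem_filter, mem_Icc] at hn
    obtain ⟨⟨h1, h2⟩, h3, h4, h5⟩ := hn
    have hpr : n.minFac.Prime := Nat.minFac_prime (by omega)
    have hdv : n.minFac ∣ n := Nat.minFac_dvd n
    have hmul : n.minFac * (n / n.minFac) = n := Nat.mul_div_cancel' hdv
    have hm0 : 0 < n / n.minFac := Nat.div_pos (Nat.le_of_dvd (by omega) hdv) hpr.pos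
    have hm1 : 1 < n / n.minFac := by
      by_contra hcon
      have : n / n.minFac = 1 := by omega
      rw [this, mul_one] at hmul
      rw [← hmul] at h3
      exact h3 hpr
    have hf := hm n.minFac (n / n.minFac) hpr.pos hm0
    rw [hmul] at hf
    have hf1 : f n.minFac ≠ 0 := fun h => h5 (by rw [hf, h, zero_mul])
    have hf2 : f (n / n.minFac) ≠ 0 := fun h => h5 (by rw [hf, h, mul_zero])
    have hlt1 : n.minFac < n := by
      calc n.minFac = n.minFac * 1 := (mul_one _).symm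
        _ < n.minFac * (n / n.minFac) := Nat.mul_lt_mul_of_pos_left hm1 hpr.pos
        _ = n := hmul
    have hlt2 : n / n.minFac < n := Nat.div_lt_self (by omega) hpr.one_lt
    rw [mem_product, mem_filter, mem_filter, mem_Icc, mem_Icc]
    exact ⟨⟨⟨hpr.pos, by show n.minFac ≤ M; omega⟩, hpr, hf1⟩,
      ⟨⟨hm0, by show n / n.minFac ≤ M; omega⟩, hm1, hf2⟩⟩
  · intro n hn n' hn' h
    simp only [Prod.mk.injEq] at h
    have e1 := Nat.mul_div_cancel' (Nat.minFac_dvd n)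
    have e2 := Nat.mul_div_cancel' (Nat.minFac_dvd n')
    calc n = n.minFac * (n / n.minFac) := e1.symm
      _ = n'.minFac * (n' / n'.minFac) := by rw [h.2, h.1]
      _ = n' := e2
  · intro n hn
    rw [mem_filter, mem_Icc] at hn
    have e1 := Nat.mul_div_cancel' (Nat.minFac_dvd n)
    show (n : ℝ) ^ (-α) ≤ ((n.minFac : ℕ) : ℝ) ^ (-α) * ((n / n.minFac : ℕ) : ℝ) ^ (-α)
    rw [← Real.mul_rpow (Nat.cast_nonneg _) (Nat.cast_nonneg _), ← Nat.cast_mul, e1]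
  · intro x _
    exact mul_nonneg (Real.rpow_nonneg (Nat.cast_nonneg _) _) (Real.rpow_nonneg (Nat.cast_nonneg _) _)

theorem pS_le {ε α : ℝ} {i0 : ℕ} {f : ℕ → ℝ} (hG : GQ ε i0 f) (M : ℕ) :
    pS f α M ≤ ∑ n ∈ (Icc 1 M).filter (fun n => n.Prime ∧ f n ≠ 0 ∧ SS f n = 0), (n : ℝ) ^ (-α) +
      ∑ n ∈ (Icc 1 M).filter (fun n => n.Prime ∧ f n ≠ 0 ∧ |f n| = (n : ℝ) ^ (ε - 1) * gw i0 n),
        (n : ℝ) ^ (-α) := by
  unfold pS
  rw [Finset.sum_filter, Finset.sum_filter, Finset.sum_filter, ← Finset.sum_add_distrib]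
  refine Finset.sum_le_sum fun n _ => ?_
  have h0 : 0 ≤ (n : ℝ) ^ (-α) := Real.rpow_nonneg (Nat.cast_nonneg _) _
  by_cases h : n.Prime ∧ f n ≠ 0
  · rw [if_pos h]
    rcases (hG.2 n h.1).2 with h1 | h1
    · rw [if_pos (show n.Prime ∧ f n ≠ 0 ∧ SS f n = 0 from ⟨h.1, h.2, h1⟩)]
      split_ifs <;> linarith
    · rw [if_pos (show n.Prime ∧ f n ≠ 0 ∧ |f n| = (n : ℝ) ^ (ε - 1) * gw i0 n from ⟨h.1, h.2, h1⟩)]
      split_ifs <;> linarith
  · rw [if_neg h]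
    split_ifs <;> linarith

open Filter Topology in
theorem exists_iota {α β : ℝ} (hα : 0 < α) (hβ : 0 < β) : ∃ I : ℕ, ∀ i0 : ℕ, I ≤ i0 →
    (2 : ℝ) ^ (-α * i0) + (i0 : ℝ) ^ 2 * (2 : ℝ) ^ (-β * i0) ≤ 1 / 40 := by
  have hr : ∀ γ : ℝ, 0 < γ → |(2 : ℝ) ^ (-γ)| < 1 := by
    intro γ hγ
    rw [abs_of_pos (Real.rpow_pos_of_pos (by norm_num) _)]
    exact Real.rpow_lt_one_of_one_lt_of_neg (by norm_num) (by linarith)
  have e : ∀ (γ : ℝ) (i : ℕ), (2 : ℝ) ^ (-γ * i) = ((2 : ℝ) ^ (-γ)) ^ i := by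
    intro γ i
    rw [Real.rpow_mul (by norm_num), Real.rpow_natCast]
  have h1 : Tendsto (fun i : ℕ => (2 : ℝ) ^ (-α * i) + (i : ℝ) ^ 2 * (2 : ℝ) ^ (-β * i)) atTop
      (𝓝 (0 + 0)) := by
    refine Tendsto.add ?_ ?_
    · simp only [e]
      exact tendsto_pow_atTop_nhds_zero_of_abs_lt_one (hr α hα)
    · simp only [e]
      exact tendsto_pow_const_mul_const_pow_of_abs_lt_one 2 (hr β hβ)
  rw [add_zero] at h1
  obtain ⟨I, hI⟩ := eventually_atTop.1 (h1.eventually (ge_mem_nhds (show (0 : ℝ) < 1 / 40 by norm_num)))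
  exact ⟨I, hI⟩

end GROW

open GROW in
theorem t_GROW (hFULL : S_FULL) (hPART : S_PART) : S_GROW := by
  intro ε α hε hε1 hα
  have hα0 : 0 < α := by linarith
  obtain ⟨I1, hI1, hP⟩ := hPART ε α hε hε1 hα
  obtain ⟨I2, hI2⟩ := exists_iota hα0 (show 0 < α - 1 + ε by linarith)
  refine ⟨max I1 I2, hI1.trans (le_max_left _ _), ?_⟩
  intro i0 f hi0 hG M
  have hi1 : I1 ≤ i0 := (le_max_left _ _).trans hi0
  set ι : ℝ := (2 : ℝ) ^ (-α * i0) + (i0 : ℝ) ^ 2 * (2 : ℝ) ^ (-(α - 1 + ε) * i0) with hι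
  have hι40 : ι ≤ 1 / 40 := hI2 i0 ((le_max_right _ _).trans hi0)
  have hι0 : 0 ≤ ι := by positivity
  have hp : ∀ M, pS f α M ≤ ι + 2 * qS f α M := by
    intro M
    have h1 := hFULL ε α i0 f hε hε1 hα0 (hI1.trans hi1) hG M
    have h2 := hP i0 f hi1 hG M
    have h3 := pS_le (α := α) hG M
    rw [hι]
    linarith
  have key : ∀ M, pS f α M ≤ 2 * ι ∧ qS f α M ≤ ι / 4 := by
    intro M
    induction M with
    | zero =>
      have h1 : pS f α 0 = 0 := by simp [pS]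
      have h2 : qS f α 0 = 0 := by simp [qS]
      rw [h1, h2]
      constructor <;> linarith
    | succ M ih =>
      have h1 := qS_step hG.1.2.1 α M
      have h2 := pS_nonneg f α M
      have h3 := qS_nonneg f α M
      have h4 : qS f α (M + 1) ≤ ι / 4 := by
        have h5 : pS f α M * (pS f α M + qS f α M) ≤ (2 * ι) * (2 * ι + ι / 4) :=
          mul_le_mul ih.1 (by linarith [ih.1, ih.2]) (by linarith) (by linarith)
        have h6 : (2 * ι) * (2 * ι + ι / 4) ≤ ι / 4 := by nlinarith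
        linarith
      refine ⟨?_, h4⟩
      have := hp (M + 1)
      linarith
  have h1 := sum_all (f := f) α M
  have h2 := key M
  linarith

end J6H67.DB
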