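import Pool.Agent.J6H67.DB.Stm

/-!
# The greedy completely multiplicative function
-/

set_option autoImplicit false

namespace J6H67.DB

open Finset Q236.CM
open scoped Classical

/-- a function with prescribed dependence on its smaller values -/
noncomputable def recf (G : ℕ → (ℕ → ℝ) → ℝ) (p : ℕ) : ℝ :=
  G p (fun q => if h : q < p then recf G q else 0)
termination_by p
decreasing_by exact h

theorem recf_eq (G : ℕ → (ℕ → ℝ) → ℝ) (p : ℕ) :
    recf G p = G p (fun q => if q < p then recf G q else 0) := by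
  rw [recf]
  congr 1

theorem LP_congr {h h' : ℕ → ℝ} {n : ℕ} (hn : n ≠ 0)
    (hle : ∀ p : ℕ, p.Prime → p ∣ n → h p = h' p) : LP h n = LP h' n := by
  induction n using induction_on_primes with
  | zero => exact absurd rfl hn
  | one => rw [LP_one, LP_one]
  | prime_mul p a hp ih =>
    have ha : a ≠ 0 := by rintro rfl; simp at hn
    rw [LP_mul h hp.ne_zero ha, LP_mul h' hp.ne_zero ha, LP_prime h hp, LP_prime h' hp,
      hle p hp (dvd_mul_right p a), ih ha fun q hq hqa => hle q hq (hqa.mul_left p)]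

theorem abs_LP_le {h c : ℕ → ℝ} (hle : ∀ p : ℕ, p.Prime → |h p| ≤ c p) {n : ℕ} (hn : n ≠ 0) :
    |LP h n| ≤ LP c n := by
  induction n using induction_on_primes with
  | zero => exact absurd rfl hn
  | one => rw [LP_one, LP_one, abs_one]
  | prime_mul p a hp ih =>
    have ha : a ≠ 0 := by rintro rfl; simp at hn
    rw [LP_mul h hp.ne_zero ha, LP_mul c hp.ne_zero ha, LP_prime h hp, LP_prime c hp, abs_mul]
    exact mul_le_mul (hle p hp) (ih ha) (abs_nonneg _) ((abs_nonneg _).trans (hle p hp))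

theorem clamp (x c : ℝ) (hc : 0 ≤ c) :
    |x + max (-c) (min c (-x))| ≤ max 0 (|x| - c) := by
  rcases le_total c (-x) with h | h
  · rw [min_eq_left h, max_eq_right (by linarith), abs_of_nonpos (by linarith),
      abs_of_nonpos (by linarith)]
    exact le_trans (by linarith) (le_max_right _ _)
  · rw [min_eq_right h]
    rcases le_total (-c) (-x) with h1 | h1
    · rw [max_eq_right h1, add_neg_cancel, abs_zero]
      exact le_max_left _ _
    · rw [max_eq_left h1, abs_of_nonneg (by linarith), abs_of_nonneg (by linarith)]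
      exact le_trans (by linarith) (le_max_right _ _)

theorem abs_clamp (x c : ℝ) (hc : 0 ≤ c) : |max (-c) (min c x)| ≤ c := by
  rw [abs_le]
  exact ⟨le_max_left _ _, max_le (by linarith) (min_le_left _ _)⟩

theorem gw_nonneg (i0 p : ℕ) : 0 ≤ gw i0 p := by
  unfold gw
  split_ifs
  · positivity
  · exact le_rfl

/-- the greedy function, with the exact value at the primes -/
theorem t_GF2 : ∀ (ε : ℝ) (i0 : ℕ), ∃ f : ℕ → ℝ, GP ε i0 f ∧ ∀ p : ℕ, p.Prime →
    f p = max (-((p : ℝ) ^ (ε - 1) * gw i0 p))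
      (min ((p : ℝ) ^ (ε - 1) * gw i0 p) (-(SS f (p - 1)))) := by
  intro ε i0
  set cap : ℕ → ℝ := fun p => (p : ℝ) ^ (ε - 1) * gw i0 p with hcap
  have hc : ∀ p, 0 ≤ cap p := fun p => mul_nonneg (Real.rpow_nonneg (Nat.cast_nonneg p) _) (gw_nonneg i0 p)
  set h : ℕ → ℝ := recf fun p g => max (-cap p) (min (cap p) (-(∑ n ∈ Icc 1 (p - 1), LP g n))) with hh
  have hp1 : ∀ p : ℕ, p.Prime → h p = max (-cap p) (min (cap p) (-(SS (LP h) (p - 1)))) := by
    intro p hp
    rw [hh, recf_eq]
    congr 2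
    unfold SS
    congr 1
    refine Finset.sum_congr rfl fun n hn => ?_
    rw [Finset.mem_Icc] at hn
    have hp0 := hp.pos
    refine LP_congr (by omega) fun q hq hqn => ?_
    have := Nat.le_of_dvd (by omega) hqn
    rw [if_pos (by omega)]
  have habs : ∀ p : ℕ, p.Prime → |h p| ≤ cap p := fun p hp => by
    rw [hp1 p hp]
    exact abs_clamp _ _ (hc p)
  refine ⟨LP h, ⟨LP_one h, fun m n hm hn => LP_mul h (by omega) (by omega), fun n hn => ?_,
    fun p hp => ?_⟩, fun p hp => by rw [LP_prime h hp, hp1 p hp]⟩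
  · refine (abs_LP_le habs (by omega)).trans (le_of_eq ?_)
    rw [hcap, LP_mul_fun, LP_pow _ (by omega)]
  · have h1 : SS (LP h) p = SS (LP h) (p - 1) + h p := by
      obtain ⟨k, rfl⟩ : ∃ k, p = k + 1 := ⟨p - 1, by have := hp.pos; omega⟩
      unfold SS
      rw [Finset.sum_Icc_succ_top (by omega), LP_prime h hp, Nat.add_sub_cancel]
    rw [h1, hp1 p hp]
    exact clamp _ _ (hc p)

theorem t_GF : S_GF := fun ε i0 => by
  obtain ⟨f, hf, -⟩ := t_GF2 ε i0
  exact ⟨f, hf⟩

theorem t_ONE : S_ONE := by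
  intro ε i0 f hf
  obtain ⟨h1, -, h3, -⟩ := hf
  unfold SS
  rw [Finset.sum_eq_single_of_mem 1 (Finset.mem_Icc.2 ⟨le_rfl, Nat.one_le_two_pow⟩), h1]
  intro n hn hn1
  rw [Finset.mem_Icc] at hn
  have h4 := h3 n hn.1
  have hp := Nat.minFac_prime hn1
  have h5 : n.minFac ≤ 2 ^ i0 := (Nat.minFac_le hn.1).trans hn.2
  have h6 : gw i0 n.minFac = 0 := by
    unfold gw
    rw [if_neg (by omega)]
  rw [LP_div _ (by omega) hp (Nat.minFac_dvd n), h6, zero_mul, mul_zero] at h4
  exact abs_nonpos_iff.1 h4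

end J6H67.DB
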