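import Pool.Agent.J6H67.DB.Stm2
import Pool.Agent.J6H67.DB.GF

/-!
# Project DB: PART (helper60)
-/

set_option autoImplicit false

namespace J6H67.DB

open Finset Q236.CM
open scoped Classical

/-- the weight `t^(-σ) (log t)^2` -/
noncomputable def wt60 (σ : ℝ) (n : ℕ) : ℝ := (n : ℝ) ^ (-σ) * Real.log n ^ 2

theorem wt60_nonneg (σ : ℝ) (n : ℕ) : 0 ≤ wt60 σ n := by
  unfold wt60
  positivity

theorem expdec60 (σ x y : ℝ) (hσ : 0 < σ) (hx : 2 ≤ σ * x) (hxy : x ≤ y) :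
    Real.exp (-(σ * y)) * y ^ 2 ≤ Real.exp (-(σ * x)) * x ^ 2 := by
  have hx0 : 0 < x := by
    by_contra h
    push Not at h
    nlinarith
  have h1 : y / x ≤ Real.exp (σ * (y - x) / 2) := by
    have h2 : y / x = (y - x) / x + 1 := by field_simp; ring
    have h3 : (y - x) / x ≤ σ * (y - x) / 2 := by
      rw [div_le_iff₀ hx0]
      nlinarith [mul_nonneg (sub_nonneg.2 hxy) (sub_nonneg.2 hx)]
    have h4 := Real.add_one_le_exp (σ * (y - x) / 2)
    linarith
  have h5 : (y / x) ^ 2 ≤ Real.exp (σ * (y - x)) := by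
    have h6 : Real.exp (σ * (y - x)) = Real.exp (σ * (y - x) / 2) ^ 2 := by
      rw [← Real.exp_nat_mul]
      congr 1
      push_cast
      ring
    rw [h6]
    exact pow_le_pow_left₀ (div_nonneg (hx0.le.trans hxy) hx0.le) h1 2
  have h7 : y ^ 2 ≤ Real.exp (σ * (y - x)) * x ^ 2 := by
    rw [div_pow, div_le_iff₀ (by positivity)] at h5
    exact h5
  calc Real.exp (-(σ * y)) * y ^ 2 ≤ Real.exp (-(σ * y)) * (Real.exp (σ * (y - x)) * x ^ 2) :=
        mul_le_mul_of_nonneg_left h7 (Real.exp_nonneg _)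
    _ = Real.exp (-(σ * x)) * x ^ 2 := by
        rw [← mul_assoc, ← Real.exp_add]
        congr 2
        ring

theorem wt60_anti (σ : ℝ) (hσ : 0 < σ) (m : ℕ) (hm : 1 ≤ m) (h2 : 2 ≤ σ * Real.log m) :
    wt60 σ (m + 1) ≤ wt60 σ m := by
  have hm0 : (0 : ℝ) < m := by exact_mod_cast hm
  have hm1 : (0 : ℝ) < ((m + 1 : ℕ) : ℝ) := by positivity
  have h3 : Real.log m ≤ Real.log ((m + 1 : ℕ) : ℝ) :=
    Real.log_le_log hm0 (by push_cast; linarith)
  unfold wt60
  rw [Real.rpow_def_of_pos hm0, Real.rpow_def_of_pos hm1]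
  have h4 := expdec60 σ _ _ hσ h2 h3
  have e1 : Real.log ((m + 1 : ℕ) : ℝ) * -σ = -(σ * Real.log ((m + 1 : ℕ) : ℝ)) := by ring
  have e2 : Real.log (m : ℝ) * -σ = -(σ * Real.log (m : ℝ)) := by ring
  rw [e1, e2]
  exact h4

theorem SS_succ60 (f : ℕ → ℝ) (M : ℕ) : SS f (M + 1) = SS f M + f (M + 1) := by
  unfold SS
  rw [Finset.sum_Icc_succ_top (by omega)]

/-- the invariant -/
theorem inv60 (ε σ : ℝ) (hσ : 0 < σ) (i0 : ℕ) (f : ℕ → ℝ) (hf : GQ ε i0 f)
    (h2 : 2 ≤ σ * Real.log ((2 ^ i0 : ℕ) : ℝ)) (M : ℕ) (hM : 2 ^ i0 ≤ M) :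
    ∑ n ∈ (Icc 1 M).filter Nat.Prime, wt60 σ n * |f n| + wt60 σ M * |SS f M| ≤
      wt60 σ (2 ^ i0) + ∑ n ∈ (Icc 1 M).filter (fun n => ¬ n.Prime ∧ 1 < n), wt60 σ n * |f n| := by
  obtain ⟨hg, hq⟩ := hf
  have hone := t_ONE ε i0 f hg
  induction M, hM using Nat.le_induction with
  | base =>
    rw [hone, abs_one, mul_one]
    have h0 : ∑ n ∈ (Icc 1 (2 ^ i0)).filter Nat.Prime, wt60 σ n * |f n| = 0 := by
      apply Finset.sum_eq_zero
      intro n hn
      rw [mem_filter, mem_Icc] at hn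
      have h3 := hg.2.2.1 n hn.1.1
      have h4 : gw i0 n = 0 := by
        unfold gw
        rw [if_neg (by omega)]
      rw [LP_prime _ hn.2, h4, mul_zero] at h3
      rw [abs_nonpos_iff.1 h3, abs_zero, mul_zero]
    rw [h0, zero_add]
    have h1 : 0 ≤ ∑ n ∈ (Icc 1 (2 ^ i0)).filter (fun n => ¬ n.Prime ∧ 1 < n), wt60 σ n * |f n| :=
      Finset.sum_nonneg fun n _ => mul_nonneg (wt60_nonneg σ n) (abs_nonneg _)
    linarith
  | succ M hM ih =>
    have h2i : 1 ≤ 2 ^ i0 := Nat.one_le_two_pow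
    have hM1 : 1 ≤ M := h2i.trans hM
    have hlog : 2 ≤ σ * Real.log M := by
      refine h2.trans (mul_le_mul_of_nonneg_left (Real.log_le_log ?_ ?_) hσ.le)
      · exact_mod_cast h2i
      · exact_mod_cast hM
    have hw := wt60_anti σ hσ M hM1 hlog
    have hI : Icc 1 (M + 1) = insert (M + 1) (Icc 1 M) := by
      ext x
      simp only [mem_Icc, mem_insert]
      omega
    have hnot : M + 1 ∉ Icc 1 M := by simp
    by_cases hp : (M + 1).Prime
    · have e1 : ∑ n ∈ (Icc 1 (M + 1)).filter Nat.Prime, wt60 σ n * |f n| =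
          wt60 σ (M + 1) * |f (M + 1)| + ∑ n ∈ (Icc 1 M).filter Nat.Prime, wt60 σ n * |f n| := by
        rw [hI, filter_insert, if_pos hp, sum_insert (by simp)]
      have e2 : ∑ n ∈ (Icc 1 (M + 1)).filter (fun n => ¬ n.Prime ∧ 1 < n), wt60 σ n * |f n| =
          ∑ n ∈ (Icc 1 M).filter (fun n => ¬ n.Prime ∧ 1 < n), wt60 σ n * |f n| := by
        rw [hI, filter_insert, if_neg (by tauto)]
      rw [e1, e2]
      have h5 := (hq (M + 1) hp).1
      rw [Nat.add_sub_cancel] at h5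
      have h6 : wt60 σ (M + 1) * |SS f (M + 1)| + wt60 σ (M + 1) * |f (M + 1)| =
          wt60 σ (M + 1) * |SS f M| := by rw [h5]; ring
      have h7 := mul_le_mul_of_nonneg_right hw (abs_nonneg (SS f M))
      linarith
    · have e1 : ∑ n ∈ (Icc 1 (M + 1)).filter Nat.Prime, wt60 σ n * |f n| =
          ∑ n ∈ (Icc 1 M).filter Nat.Prime, wt60 σ n * |f n| := by
        rw [hI, filter_insert, if_neg hp]
      have e2 : ∑ n ∈ (Icc 1 (M + 1)).filter (fun n => ¬ n.Prime ∧ 1 < n), wt60 σ n * |f n| =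
          wt60 σ (M + 1) * |f (M + 1)| +
            ∑ n ∈ (Icc 1 M).filter (fun n => ¬ n.Prime ∧ 1 < n), wt60 σ n * |f n| := by
        rw [hI, filter_insert, if_pos ⟨hp, by omega⟩, sum_insert (by simp)]
      rw [e1, e2, SS_succ60]
      have h5 : |SS f M + f (M + 1)| ≤ |SS f M| + |f (M + 1)| := abs_add_le _ _
      have h6 := mul_le_mul_of_nonneg_left h5 (wt60_nonneg σ (M + 1))
      have h7 := mul_le_mul_of_nonneg_right hw (abs_nonneg (SS f M))
      linarith

theorem gw_cases60 (i0 p : ℕ) (h3 : 3 ≤ i0) :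
    gw i0 p = 0 ∨ (2 ≤ Real.log p ∧ gw i0 p = 1 / Real.log p ^ 2) := by
  unfold gw
  split_ifs with h
  · right
    refine ⟨?_, rfl⟩
    have h1 : (2 : ℝ) ^ i0 ≤ (p : ℝ) := by exact_mod_cast h.le
    have h2 : Real.log ((2 : ℝ) ^ i0) ≤ Real.log p :=
      Real.log_le_log (by positivity) h1
    rw [Real.log_pow] at h2
    have h4 : (3 : ℝ) ≤ (i0 : ℝ) := by exact_mod_cast h3
    have h5 := Real.log_two_gt_d9
    nlinarith
  · exact Or.inl rfl

theorem t_PART (hGW : S_GW) : S_PART := by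
  intro ε α hε0 hε1 hα
  set σ : ℝ := α - 1 + ε with hσd
  have hσ : 0 < σ := by linarith
  refine ⟨max 3 (⌈4 / σ⌉₊), le_max_left _ _, fun i0 f hi hf M => ?_⟩
  have hi3 : 3 ≤ i0 := (le_max_left _ _).trans hi
  have hi4 : 4 / σ ≤ (i0 : ℝ) := by
    have := (le_max_right 3 (⌈4 / σ⌉₊)).trans hi
    exact (Nat.le_ceil _).trans (by exact_mod_cast this)
  have hlog2 : (i0 : ℝ) / 2 ≤ Real.log ((2 ^ i0 : ℕ) : ℝ) := by
    push_cast
    rw [Real.log_pow]
    have := Real.log_two_gt_d9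
    have h0 : (0 : ℝ) ≤ i0 := Nat.cast_nonneg _
    nlinarith
  have h2 : 2 ≤ σ * Real.log ((2 ^ i0 : ℕ) : ℝ) := by
    rw [div_le_iff₀ hσ] at hi4
    nlinarith
  have hq0 : 0 ≤ qS f α M := by
    unfold qS
    exact Finset.sum_nonneg fun n _ => Real.rpow_nonneg (Nat.cast_nonneg _) _
  have hg := hf.1
  rcases lt_or_ge M (2 ^ i0) with hM | hM
  · have h0 : ∑ n ∈ (Icc 1 M).filter (fun n => n.Prime ∧ f n ≠ 0 ∧
        |f n| = (n : ℝ) ^ (ε - 1) * gw i0 n), (n : ℝ) ^ (-α) = 0 := by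
      apply Finset.sum_eq_zero
      intro n hn
      rw [mem_filter, mem_Icc] at hn
      have h4 : gw i0 n = 0 := by
        unfold gw
        rw [if_neg (by omega)]
      have h5 := hn.2.2.2
      rw [h4, mul_zero] at h5
      exact absurd (abs_eq_zero.1 h5) hn.2.2.1
    rw [h0]
    positivity
  · have hinv := inv60 ε σ hσ i0 f hf h2 M hM
    have hA : ∑ n ∈ (Icc 1 M).filter (fun n => n.Prime ∧ f n ≠ 0 ∧
        |f n| = (n : ℝ) ^ (ε - 1) * gw i0 n), (n : ℝ) ^ (-α) ≤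
          ∑ n ∈ (Icc 1 M).filter Nat.Prime, wt60 σ n * |f n| := by
      have h6 : ∑ n ∈ (Icc 1 M).filter (fun n => n.Prime ∧ f n ≠ 0 ∧
          |f n| = (n : ℝ) ^ (ε - 1) * gw i0 n), (n : ℝ) ^ (-α) =
          ∑ n ∈ (Icc 1 M).filter (fun n => n.Prime ∧ f n ≠ 0 ∧
          |f n| = (n : ℝ) ^ (ε - 1) * gw i0 n), wt60 σ n * |f n| := by
        refine Finset.sum_congr rfl fun n hn => ?_
        rw [mem_filter, mem_Icc] at hn
        have hn0 : (0 : ℝ) < n := by exact_mod_cast hn.1.1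
        rcases gw_cases60 i0 n hi3 with hz | ⟨hl, hz⟩
        · have h5 := hn.2.2.2
          rw [hz, mul_zero] at h5
          exact absurd (abs_eq_zero.1 h5) hn.2.2.1
        · rw [hn.2.2.2, hz]
          unfold wt60
          have hl0 : Real.log n ≠ 0 := by
            intro h
            rw [h] at hl
            linarith
          have h7 : (n : ℝ) ^ (-α) = (n : ℝ) ^ (-σ) * (n : ℝ) ^ (ε - 1) := by
            rw [← Real.rpow_add hn0]
            congr 1
            rw [hσd]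
            ring
          rw [h7]
          field_simp
      rw [h6]
      refine Finset.sum_le_sum_of_subset_of_nonneg ?_ fun n _ _ =>
        mul_nonneg (wt60_nonneg σ n) (abs_nonneg _)
      intro n hn
      rw [mem_filter] at hn ⊢
      exact ⟨hn.1, hn.2.1⟩
    have hB : ∑ n ∈ (Icc 1 M).filter (fun n => ¬ n.Prime ∧ 1 < n), wt60 σ n * |f n| ≤ qS f α M := by
      have h6 : ∑ n ∈ (Icc 1 M).filter (fun n => ¬ n.Prime ∧ 1 < n), wt60 σ n * |f n| =
          ∑ n ∈ (Icc 1 M).filter (fun n => ¬ n.Prime ∧ 1 < n ∧ f n ≠ 0), wt60 σ n * |f n| := by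
        symm
        apply Finset.sum_subset
        · intro n hn
          rw [mem_filter] at hn ⊢
          exact ⟨hn.1, hn.2.1, hn.2.2.1⟩
        · intro n hn hn'
          rw [mem_filter] at hn hn'
          have : f n = 0 := by
            by_contra hne
            exact hn' ⟨hn.1, hn.2.1, hn.2.2, hne⟩
          rw [this, abs_zero, mul_zero]
      rw [h6]
      unfold qS
      refine Finset.sum_le_sum fun n hn => ?_
      rw [mem_filter, mem_Icc] at hn
      have hn0 : (0 : ℝ) < n := by exact_mod_cast hn.1.1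
      have h8 := hg.2.2.1 n hn.1.1
      have h9 := hGW i0 n hi3 hn.2.2.1
      have hlog : 0 < Real.log n := Real.log_pos (by exact_mod_cast hn.2.2.1)
      have h10 : (0 : ℝ) ≤ (n : ℝ) ^ (ε - 1) := Real.rpow_nonneg hn0.le _
      have h11 : |f n| ≤ (n : ℝ) ^ (ε - 1) * (1 / Real.log n ^ 2) :=
        h8.trans (mul_le_mul_of_nonneg_left h9 h10)
      refine (mul_le_mul_of_nonneg_left h11 (wt60_nonneg σ n)).trans (le_of_eq ?_)
      unfold wt60
      have h7 : (n : ℝ) ^ (-α) = (n : ℝ) ^ (-σ) * (n : ℝ) ^ (ε - 1) := by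
        rw [← Real.rpow_add hn0]
        congr 1
        rw [hσd]
        ring
      rw [h7]
      field_simp
    have hC : wt60 σ (2 ^ i0) ≤ (i0 : ℝ) ^ 2 * (2 : ℝ) ^ (-(α - 1 + ε) * i0) := by
      unfold wt60
      have h12 : (((2 ^ i0 : ℕ) : ℝ)) ^ (-σ) = (2 : ℝ) ^ (-(α - 1 + ε) * i0) := by
        push_cast
        rw [← Real.rpow_natCast, ← Real.rpow_mul (by norm_num)]
        congr 1
        rw [hσd]
        ring
      have h13 : Real.log ((2 ^ i0 : ℕ) : ℝ) ^ 2 ≤ (i0 : ℝ) ^ 2 := by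
        push_cast
        rw [Real.log_pow]
        have h14 := Real.log_two_lt_d9
        have h15 := Real.log_two_gt_d9
        have h0 : (0 : ℝ) ≤ i0 := Nat.cast_nonneg _
        apply pow_le_pow_left₀ (by positivity)
        nlinarith
      rw [h12, mul_comm]
      exact mul_le_mul_of_nonneg_right h13 (Real.rpow_nonneg (by norm_num) _)
    have hD : 0 ≤ wt60 σ M * |SS f M| := mul_nonneg (wt60_nonneg σ M) (abs_nonneg _)
    linarith

end J6H67.DB
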