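import Pool.Agent.J6H67.DB.All
import Pool.Agent.J6H67.DB.Fin3
import Pool.Agent.J6H67.DB.FULL
import Pool.Agent.J6H67.DB.GROW
import Pool.Agent.J6H67.DB.CNT
import Pool.Agent.J6H67.DB.PART

/-!
# Project DB (helper67): the theorem on the greedy functions, without hypotheses
-/

set_option autoImplicit false

namespace J6H67.DB

open Finset
open scoped Classical

theorem all_main3 : ∃ c : ℝ, 0 < c ∧ ∀ β : ℝ, 0.615 ≤ β → β < 1 → ∃ (f : ℕ → ℝ) (C : ℝ), f 1 = 1 ∧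
    (∀ m n : ℕ, 1 ≤ m → 1 ≤ n → f (m * n) = f m * f n) ∧
    (∀ n : ℕ, 1 ≤ n → |f n| ≤ (n : ℝ) ^ (-β)) ∧
    (∀ N : ℕ, 1 ≤ N → |∑ n ∈ Icc 1 N, f n| ≤ C * (N : ℝ) ^ (-(β - 0.615 + c))) ∧
    (∀ X : ℕ, 1 ≤ X → (((Icc 1 X).filter (fun N : ℕ =>
      C * (N : ℝ) ^ (-(β - 3 / 16 + c)) < |∑ n ∈ Icc 1 N, f n|)).card : ℝ) ≤ C * (X : ℝ) ^ (1 - c)) ∧
    (β < 13 / 16 → ∃ c' : ℝ, 0 < c' ∧ ∀ X : ℕ, 1 ≤ X →
      (((Icc 1 X).filter (fun N : ℕ => ∑ n ∈ Icc 1 N, f n ≠ 0)).card : ℝ) ≤ C * (X : ℝ) ^ (1 - c')) :=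
  main3 t_BAD t_ONE all_SC (t_DEB t_ABS) (t_GROW t_FULL (t_PART t_GW)) t_CNT Pool.Agent.Q278.KT.mainp_1316
    Pool.Agent.Q278.KT.mainp_043

end J6H67.DB
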