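import Pool.Agent.J6H67.DB.Stm2
import Pool.Agent.J6H67.DB.GF
import Pool.Agent.J6H67.DB.OUT

/-!
# Project DB (helper67): existence of the exact greedy function, pointwise bound for general `ε`
-/

set_option autoImplicit false

namespace J6H67.DB

open Finset Pool.Agent.W76.MO Pool.Agent.Q240.KS
open scoped Classical

theorem exists_GQ (ε : ℝ) (i0 : ℕ) : ∃ f : ℕ → ℝ, GQ ε i0 f := by
  obtain ⟨f, hf, hfp⟩ := t_GF2 ε i0
  refine ⟨f, hf, ?_⟩
  intro p hp
  set cap : ℝ := (p : ℝ) ^ (ε - 1) * gw i0 p with hcap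
  have hcap0 : 0 ≤ cap := mul_nonneg (by positivity) (gw_nonneg i0 p)
  have h1 : SS f p = SS f (p - 1) + f p := by
    unfold SS
    have e1 : p = (p - 1) + 1 := by have := hp.one_lt; omega
    conv_lhs => rw [e1, sum_Icc_succ_top (by omega)]
    rw [← e1]
  have h2 := hfp p hp
  set x : ℝ := SS f (p - 1) with hx
  rcases le_total 0 x with hx0 | hx0
  · rcases le_total x cap with hc | hc
    · have h3 : f p = -x := by
        rw [h2, min_eq_right (by linarith), max_eq_right (by linarith)]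
      have h4 : SS f p = 0 := by rw [h1, h3]; ring
      refine ⟨?_, Or.inl h4⟩
      rw [h4, h3, abs_neg]
      simp
    · have h3 : f p = -cap := by
        rw [h2, min_eq_right (by linarith), max_eq_left (by linarith)]
      have h4 : SS f p = x - cap := by rw [h1, h3]; ring
      refine ⟨?_, Or.inr ?_⟩
      · rw [h4, h3, abs_neg, abs_of_nonneg (by linarith : 0 ≤ x - cap), abs_of_nonneg hx0, abs_of_nonneg hcap0]
      · rw [h3, abs_neg, abs_of_nonneg hcap0]
  · rcases le_total (-x) cap with hc | hc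
    · have h3 : f p = -x := by
        rw [h2, min_eq_right (by linarith), max_eq_right (by linarith)]
      have h4 : SS f p = 0 := by rw [h1, h3]; ring
      refine ⟨?_, Or.inl h4⟩
      rw [h4, h3, abs_neg]
      simp
    · have h3 : f p = cap := by
        rw [h2, min_eq_left (by linarith), max_eq_right (by linarith)]
      have h4 : SS f p = x + cap := by rw [h1, h3]
      refine ⟨?_, Or.inr ?_⟩
      · rw [h4, h3, abs_of_nonpos (by linarith : x + cap ≤ 0), abs_of_nonpos hx0, abs_of_nonneg hcap0]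
        ring
      · rw [h3, abs_of_nonneg hcap0]

theorem tau_le2 {c ε η lam : ℝ} (hc : 0 < c) (hlam : lam + η / 2 < 1) {i : ℕ} (hi : 1 ≤ i) :
    tau c ε (lam - 1 / 2 + η / 2) i ≤ c / 32 * (2 : ℝ) ^ (-(lam + η / 2 - ε) * i) := by
  have hi1 : (1 : ℝ) ≤ i := by exact_mod_cast hi
  have h1 := hh_le (δ := lam - 1 / 2 + η / 2) (by linarith) i
  unfold tau
  have h2 : c / 32 * (hh (lam - 1 / 2 + η / 2) i : ℝ) * (2 : ℝ) ^ ((ε - 1) * i) / (i : ℝ) ^ 3 ≤
      c / 32 * (hh (lam - 1 / 2 + η / 2) i : ℝ) * (2 : ℝ) ^ ((ε - 1) * i) := by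
    apply div_le_self (by positivity)
    exact one_le_pow₀ hi1
  refine h2.trans ?_
  rw [mul_assoc]
  apply mul_le_mul_of_nonneg_left _ (by positivity)
  calc (hh (lam - 1 / 2 + η / 2) i : ℝ) * (2 : ℝ) ^ ((ε - 1) * i)
      ≤ (2 : ℝ) ^ ((1 / 2 - (lam - 1 / 2 + η / 2)) * i) * (2 : ℝ) ^ ((ε - 1) * i) :=
        mul_le_mul_of_nonneg_right h1 (by positivity)
    _ = (2 : ℝ) ^ (-(lam + η / 2 - ε) * i) := by
        rw [← Real.rpow_add (by norm_num)]
        congr 1
        ring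

/-- pointwise bound for general `ε` -/
theorem out2 (c ε η lam e : ℝ) (hc : 0 < c) (hη : 0 < η) (hηe : η ≤ e)
    (hlam : lam + η / 2 < 1) (hx0 : 0 ≤ lam - e - ε + η / 4) (i0 : ℕ) (f : ℕ → ℝ)
    (hδ1 : -(1 / 2) ≤ lam - 1 / 2 + η / 2)
    (hST : STEP c ε (lam - 1 / 2 + η / 2) i0 f)
    (hCO : ∀ i : ℕ, i0 < i → CONC c ε (lam - 1 / 2 + η / 2) (e - η) f i) :
    ∃ C : ℝ, 0 < C ∧ ∀ N : ℕ, 1 ≤ N → |SS f N| ≤ C * (N : ℝ) ^ (-(lam - e - ε + η / 4)) := by
  set δ : ℝ := lam - 1 / 2 + η / 2 with hδ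
  have hstep : ∀ i k j : ℕ, i0 < i → k < nc δ i → j ≤ hh δ i →
      |SS f (2 ^ i + k * hh δ i + j)| ≤ |SS f (2 ^ i + k * hh δ i)| + tau c ε δ i :=
    fun i k j hi hk hj => (hST i hi.le k hk).1 j hj
  have htau : ∀ i : ℕ, i0 < i → tau c ε δ i ≤ c / 32 * (2 : ℝ) ^ (-(lam + η / 2 - ε) * i) := by
    intro i hi
    exact tau_le2 hc hlam (by omega)
  have htau0 : ∀ i : ℕ, 0 ≤ tau c ε δ i := by
    intro i
    unfold tau
    positivity
  set x : ℝ := lam - e - ε + η / 4 with hx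
  have hA : ∀ N : ℕ, 2 ^ (i0 + 1) < N → |SS f N| ≤ (5 * c * (2 : ℝ) ^ x) * (N : ℝ) ^ (-x) := by
    intro N hN
    obtain ⟨i, k, j, hi, hk, hj1, hj2, hNe, hN1, hN2⟩ := locate hδ1 i0 N hN
    have hi1 : (0 : ℝ) ≤ i := Nat.cast_nonneg i
    have h1 : |SS f N| ≤ |SS f (2 ^ i + k * hh δ i)| + tau c ε δ i := by
      rw [hNe]
      exact hstep i k j hi hk hj2
    have h2 := (hCO i hi).2 k hk
    have hb1 : (1 : ℝ) ≤ (2 : ℝ) ^ ((e - η) * i) := by
      apply Real.one_le_rpow (by norm_num)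
      have : 0 ≤ e - η := by linarith
      positivity
    have h3 : tau c ε δ i ≤ tau c ε δ i * (2 : ℝ) ^ ((e - η) * i) :=
      le_mul_of_one_le_right (htau0 i) hb1
    have h4 : |SS f N| ≤ 151 * (tau c ε δ i * (2 : ℝ) ^ ((e - η) * i)) := by linarith
    have h5 : tau c ε δ i * (2 : ℝ) ^ ((e - η) * i) ≤ c / 32 * (2 : ℝ) ^ (-x * i) := by
      calc tau c ε δ i * (2 : ℝ) ^ ((e - η) * i)
          ≤ (c / 32 * (2 : ℝ) ^ (-(lam + η / 2 - ε) * i)) * (2 : ℝ) ^ ((e - η) * i) :=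
            mul_le_mul_of_nonneg_right (htau i hi) (by positivity)
        _ = c / 32 * (2 : ℝ) ^ (-(lam + η / 2 - ε) * i + (e - η) * i) := by
            rw [mul_assoc, ← Real.rpow_add (by norm_num)]
        _ ≤ c / 32 * (2 : ℝ) ^ (-x * i) := by
            apply mul_le_mul_of_nonneg_left _ (by positivity)
            apply Real.rpow_le_rpow_of_exponent_le (by norm_num)
            rw [hx]
            nlinarith
    have h6 := back hx0 (i := i) (N := N) (by omega) hN2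
    have h7 : (0 : ℝ) ≤ (2 : ℝ) ^ (-x * i) := by positivity
    calc |SS f N| ≤ 151 * (c / 32 * (2 : ℝ) ^ (-x * i)) := by linarith
      _ ≤ 5 * c * (2 : ℝ) ^ (-x * i) := by nlinarith [mul_nonneg hc.le h7]
      _ ≤ 5 * c * ((2 : ℝ) ^ x * (N : ℝ) ^ (-x)) := mul_le_mul_of_nonneg_left h6 (by positivity)
      _ = _ := by ring
  set M0 : ℝ := ∑ n ∈ Icc 1 (2 ^ (i0 + 1)), |f n| with hM0
  have hM00 : 0 ≤ M0 := sum_nonneg fun _ _ => abs_nonneg _
  have hsmall : ∀ N : ℕ, N ≤ 2 ^ (i0 + 1) → |SS f N| ≤ M0 := by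
    intro N hN
    unfold SS
    refine (abs_sum_le_sum_abs _ _).trans ?_
    apply sum_le_sum_of_subset_of_nonneg
    · exact Icc_subset_Icc_right hN
    · intro _ _ _
      exact abs_nonneg _
  set P : ℝ := (2 : ℝ) ^ (i0 + 1) with hP
  have hP0 : 0 < P := by positivity
  set C : ℝ := 5 * c * (2 : ℝ) ^ x + M0 * P ^ x with hC
  have p1 : 0 < 5 * c * (2 : ℝ) ^ x := by positivity
  have p2 : 0 ≤ M0 * P ^ x := by positivity
  refine ⟨C, by rw [hC]; linarith, ?_⟩
  intro N hN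
  have hN0 : (0 : ℝ) < N := by exact_mod_cast hN
  by_cases hb : 2 ^ (i0 + 1) < N
  · refine (hA N hb).trans ?_
    apply mul_le_mul_of_nonneg_right _ (by positivity)
    rw [hC]
    linarith
  · push Not at hb
    have h1 := hsmall N hb
    have h2 : P ^ (-x) ≤ (N : ℝ) ^ (-x) := by
      apply Real.rpow_le_rpow_of_nonpos hN0 _ (by linarith)
      rw [hP]
      exact_mod_cast hb
    have h3 : M0 = M0 * P ^ x * P ^ (-x) := by
      rw [mul_assoc, ← Real.rpow_add hP0]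
      simp
    calc |SS f N| ≤ M0 := h1
      _ = M0 * P ^ x * P ^ (-x) := h3
      _ ≤ M0 * P ^ x * (N : ℝ) ^ (-x) := mul_le_mul_of_nonneg_left h2 p2
      _ ≤ C * (N : ℝ) ^ (-x) := by
        apply mul_le_mul_of_nonneg_right _ (by positivity)
        rw [hC]
        linarith

end J6H67.DB
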