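import Pool.Agent.J6H67.DB.GQ

/-!
# Project DB (helper67): small debt for almost all `N`, general `ε`
-/

set_option autoImplicit false

namespace J6H67.DB

open Finset Pool.Agent.W76.MO Pool.Agent.Q240.KS
open scoped Classical

theorem out3 (c ε η lam e : ℝ) (hc : 0 < c) (hη : 0 < η)
    (hlam : lam + η / 2 < 1) (hy0 : 0 ≤ lam - ε + η / 4) (hz0 : 0 < 1 - lam + e - η) (i0 : ℕ) (f : ℕ → ℝ)
    (hδ1 : -(1 / 2) ≤ lam - 1 / 2 + η / 2)
    (hST : STEP c ε (lam - 1 / 2 + η / 2) i0 f)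
    (hCO : ∀ i : ℕ, i0 < i → CONC c ε (lam - 1 / 2 + η / 2) (e - η) f i) :
    ∃ C : ℝ, 0 < C ∧ ∀ X : ℕ, 1 ≤ X → (((Icc 1 X).filter (fun N : ℕ =>
      C * (N : ℝ) ^ (-(lam - ε + η / 4)) < |SS f N|)).card : ℝ) ≤ C * (X : ℝ) ^ (1 - lam + e - η) := by
  set δ : ℝ := lam - 1 / 2 + η / 2 with hδ
  have hδ2 : δ < 1 / 2 := by rw [hδ]; linarith
  have hstep : ∀ i k j : ℕ, i0 < i → k < nc δ i → j ≤ hh δ i →
      |SS f (2 ^ i + k * hh δ i + j)| ≤ |SS f (2 ^ i + k * hh δ i)| + tau c ε δ i :=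
    fun i k j hi hk hj => (hST i hi.le k hk).1 j hj
  have htau : ∀ i : ℕ, i0 < i → tau c ε δ i ≤ c / 32 * (2 : ℝ) ^ (-(lam + η / 2 - ε) * i) := by
    intro i hi
    exact tau_le2 hc hlam (by omega)
  set P : ℝ := (2 : ℝ) ^ (i0 + 1) with hP
  have hP0 : 0 < P := by positivity
  set y : ℝ := lam - ε + η / 4 with hy
  set z : ℝ := 1 - lam + e - η with hz
  obtain ⟨K, hK, hsum⟩ := sum_pow_le (x := 1 - lam + e - 3 * η / 2) (z := z) (by rw [hz]; linarith) hz0
  set C : ℝ := c / 16 * (2 : ℝ) ^ y + P + 50 * K with hC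
  have p3 : 0 ≤ c / 16 * (2 : ℝ) ^ y := by positivity
  have p4 : 0 ≤ 50 * K := by positivity
  refine ⟨C, by rw [hC]; linarith, ?_⟩
  intro X hX
  have hX1 : (1 : ℝ) ≤ X := by exact_mod_cast hX
  set dirty : ℕ → Finset ℕ := fun i =>
    (range (nc δ i)).filter (fun k => tau c ε δ i < |SS f (2 ^ i + k * hh δ i)|) with hdirty
  have hsub : (Icc 1 X).filter (fun N : ℕ => C * (N : ℝ) ^ (-y) < |SS f N|) ⊆
      Icc 1 (2 ^ (i0 + 1)) ∪ (Ioc i0 (Nat.log 2 X)).biUnion (fun i => (dirty i).biUnion (fun k => cell δ i k)) := by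
    intro N hN
    rw [mem_filter, mem_Icc] at hN
    obtain ⟨⟨hN1, hNX⟩, hNC⟩ := hN
    rw [mem_union]
    by_cases hb : 2 ^ (i0 + 1) < N
    · right
      obtain ⟨i, k, j, hi, hk, hj1, hj2, hNe, hNa, hNb⟩ := locate hδ1 i0 N hb
      rw [mem_biUnion]
      refine ⟨i, ?_, ?_⟩
      · rw [mem_Ioc]
        refine ⟨hi, (Nat.le_log_iff_pow_le (by norm_num) (by omega)).2 (by omega)⟩
      · rw [mem_biUnion]
        refine ⟨k, ?_, ?_⟩
        · rw [hdirty]
          simp only [mem_filter, mem_range]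
          refine ⟨hk, ?_⟩
          by_contra hcl
          push Not at hcl
          have h1 : |SS f N| ≤ |SS f (2 ^ i + k * hh δ i)| + tau c ε δ i := by
            rw [hNe]
            exact hstep i k j hi hk hj2
          have h2 := htau i hi
          have hi1 : (0 : ℝ) ≤ i := Nat.cast_nonneg i
          have h3 : (2 : ℝ) ^ (-(lam + η / 2 - ε) * i) ≤ (2 : ℝ) ^ (-y * i) := by
            apply Real.rpow_le_rpow_of_exponent_le (by norm_num)
            rw [hy]
            nlinarith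
          have h4 := back hy0 (i := i) (N := N) (by omega) hNb
          have hN0 : (0 : ℝ) ≤ (N : ℝ) ^ (-y) := by positivity
          have h5 : |SS f N| ≤ c / 16 * (2 : ℝ) ^ y * (N : ℝ) ^ (-y) := by
            calc |SS f N| ≤ 2 * (c / 32 * (2 : ℝ) ^ (-(lam + η / 2 - ε) * i)) := by linarith
              _ ≤ 2 * (c / 32 * ((2 : ℝ) ^ y * (N : ℝ) ^ (-y))) := by
                  have h6 := h3.trans h4
                  have h7 : (0 : ℝ) < c / 32 := by positivity
                  nlinarith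
              _ = _ := by ring
          have h6 : c / 16 * (2 : ℝ) ^ y * (N : ℝ) ^ (-y) ≤ C * (N : ℝ) ^ (-y) := by
            apply mul_le_mul_of_nonneg_right _ hN0
            rw [hC]
            linarith
          linarith
        · unfold cell
          rw [mem_Ioc, hNe]
          constructor
          · omega
          · rw [add_mul, one_mul]
            omega
    · left
      rw [mem_Icc]
      omega
  have hcard := card_le_card hsub
  have h1 : ((Icc 1 X).filter (fun N : ℕ => C * (N : ℝ) ^ (-y) < |SS f N|)).card ≤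
      2 ^ (i0 + 1) + ∑ i ∈ Ioc i0 (Nat.log 2 X), (dirty i).card * hh δ i := by
    refine hcard.trans ((card_union_le _ _).trans ?_)
    apply add_le_add
    · simp
    · refine card_biUnion_le.trans ?_
      apply sum_le_sum
      intro i _
      refine card_biUnion_le.trans ?_
      have : ∀ k, (cell δ i k).card = hh δ i := by
        intro k
        unfold cell
        rw [Nat.card_Ioc, add_mul, one_mul]
        omega
      simp [this]
  have h2 : (((Icc 1 X).filter (fun N : ℕ => C * (N : ℝ) ^ (-y) < |SS f N|)).card : ℝ) ≤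
      P + ∑ i ∈ Ioc i0 (Nat.log 2 X), ((dirty i).card : ℝ) * hh δ i := by
    rw [hP]
    exact_mod_cast h1
  have h3 : ∑ i ∈ Ioc i0 (Nat.log 2 X), ((dirty i).card : ℝ) * hh δ i ≤
      50 * ∑ i ∈ Ioc i0 (Nat.log 2 X), (2 : ℝ) ^ ((1 - lam + e - 3 * η / 2) * i) := by
    rw [mul_sum]
    apply sum_le_sum
    intro i hi
    rw [mem_Ioc] at hi
    have h4 := (hCO i hi.1).1
    have h5 := hh_le hδ2 i
    calc ((dirty i).card : ℝ) * hh δ i
        ≤ (50 * (2 : ℝ) ^ ((e - η) * i)) * (2 : ℝ) ^ ((1 / 2 - δ) * i) :=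
          mul_le_mul h4 h5 (by positivity) (by positivity)
      _ = 50 * (2 : ℝ) ^ ((1 - lam + e - 3 * η / 2) * i) := by
          rw [mul_assoc, ← Real.rpow_add (by norm_num)]
          congr 2
          rw [hδ]
          ring
  have h4 := hsum i0 X hX
  have h5 : (1 : ℝ) ≤ (X : ℝ) ^ z := Real.one_le_rpow hX1 hz0.le
  have h6 : P ≤ P * (X : ℝ) ^ z := le_mul_of_one_le_right hP0.le h5
  have h7 : 0 ≤ (c / 16 * (2 : ℝ) ^ y) * (X : ℝ) ^ z := by positivity
  calc _ ≤ P + ∑ i ∈ Ioc i0 (Nat.log 2 X), ((dirty i).card : ℝ) * hh δ i := h2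
    _ ≤ P * (X : ℝ) ^ z + 50 * (K * (X : ℝ) ^ z) := by linarith
    _ ≤ C * (X : ℝ) ^ z := by
      rw [hC]
      linarith

end J6H67.DB
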