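import Pool.Agent.Q240.KS.Stm2
import Pool.Agent.W761.MO.BTR
import Pool.Agent.Q236.CM.Base

/-!
# Project DB (helper67): MP_768c9c_nt, a CMO function with `S_f(x) = O(x^(-13/16-c))` for almost all `x`.

The function is greedy: at a prime `p` the value `f(p)` is the best correction of the partial sum `S(p-1)` with
`|f(p)| ≤ cap(p) = p^(ε-1)/(log p)²` (`0` for `p ≤ 2^i0`). All composites of a cell `(a, a + h]`, `h = 2^⌊θ i⌋`, `2^i ≤ a`, together cost at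
most `τ_i`, a quarter of the capacity of the primes of a cell that is not poor in primes (`S_KEY`, `S_SC`). So a good cell reduces the debt
`|S|` by `3 τ_i` or makes it `≤ τ_i`; a bad cell increases it by at most `τ_i`. There are few bad cells (`S_BAD`).

From the library: `hh δ i = 2 ^ ⌊(1/2-δ) i⌋₊`, `nc δ i = 2 ^ i / hh δ i`, `cell δ i k = Ioc (2^i + k hh) (2^i + (k+1) hh)`, `Rough`, `BTR`
(`Pool.Agent.W76.MO`, file `Pool/Agent/W76/MO/Defs.lean`; proof of `BTR`: `Pool.Agent.W761.MO.btr`), `MAINP`, `pic`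
(`Pool.Agent.Q240.KS`, file `Stm2.lean`), `LP` (`Q236.CM`, file `Pool/Agent/Q236/CM/Base.lean`).
-/

set_option autoImplicit false

namespace J6H67.DB

open Finset Pool.Agent.W76.MO Pool.Agent.Q240.KS
open scoped Classical

/-- partial sums -/
noncomputable def SS (f : ℕ → ℝ) (N : ℕ) : ℝ := ∑ n ∈ Icc 1 N, f n

/-- the weight `1/(log p)^2` of the primes `> 2^i0` -/
noncomputable def gw (i0 p : ℕ) : ℝ := if 2 ^ i0 < p then 1 / Real.log p ^ 2 else 0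

/-- the properties of the greedy function -/
def GP (ε : ℝ) (i0 : ℕ) (f : ℕ → ℝ) : Prop :=
  f 1 = 1 ∧ (∀ m n : ℕ, 1 ≤ m → 1 ≤ n → f (m * n) = f m * f n) ∧
  (∀ n : ℕ, 1 ≤ n → |f n| ≤ (n : ℝ) ^ (ε - 1) * Q236.CM.LP (gw i0) n) ∧
  (∀ p : ℕ, p.Prime → |SS f p| ≤ max 0 (|SS f (p - 1)| - (p : ℝ) ^ (ε - 1) * gw i0 p))

/-- the cells poor in primes -/
noncomputable def BB (c δ : ℝ) (i : ℕ) : Finset ℕ := (range (nc δ i)).filter (fun k =>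
  (((cell δ i k).filter Nat.Prime).card : ℝ) < c * hh δ i / i)

/-- cost of the composites of a cell -/
noncomputable def tau (c ε δ : ℝ) (i : ℕ) : ℝ := c / 32 * hh δ i * (2 : ℝ) ^ ((ε - 1) * i) / (i : ℝ) ^ 3

/-- the behaviour of the debt `|SS f|` on the cells -/
def STEP (c ε δ : ℝ) (i0 : ℕ) (f : ℕ → ℝ) : Prop := ∀ i : ℕ, i0 ≤ i → ∀ k : ℕ, k < nc δ i →
  (∀ j : ℕ, j ≤ hh δ i → |SS f (2 ^ i + k * hh δ i + j)| ≤ |SS f (2 ^ i + k * hh δ i)| + tau c ε δ i) ∧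
  (k ∉ BB c δ i → |SS f (2 ^ i + (k + 1) * hh δ i)| ≤
    max (tau c ε δ i) (|SS f (2 ^ i + k * hh δ i)| - 3 * tau c ε δ i))

/-! ### the greedy function -/

/-- **GF** existence of the greedy function. Proof. Let `cap p = p^(ε-1) * gw i0 p ≥ 0`. Define `f` by strong recursion: `f 0 = 0`, `f 1 = 1`,
for a prime `p`: `f p = max (-cap p) (min (cap p) (-(∑ n ∈ Icc 1 (p-1), f n)))` and for a composite `n`: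
`f n = f n.minFac * f (n / n.minFac)` (for instance: `g : ℕ → (ℕ → ℝ)` or `Nat.strongRec`, or a `def` with `termination_by` and the
sum written with `(Finset.range n).attach`). Then `f n = LP f n` for `n ≥ 1` by strong induction (`LP_mul`, `LP_prime`), so `f` is completely
multiplicative by `LP_mul`. `|f p| ≤ cap p`, so by induction on primes `|f n| ≤ LP cap n = n^(ε-1) * LP (gw i0) n`
(`LP_mul_fun`, `LP_pow`). And `SS f p = x + f p`, `x = SS f (p-1)`, so `|SS f p| = max 0 (|x| - cap p)`. -/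
def S_GF : Prop := ∀ (ε : ℝ) (i0 : ℕ), ∃ f : ℕ → ℝ, GP ε i0 f

/-- **ONE**: for `2 ≤ n ≤ 2^i0` some prime `p ∣ n` has `gw i0 p = 0`, so `LP (gw i0) n = 0` and `f n = 0`. -/
def S_ONE : Prop := ∀ (ε : ℝ) (i0 : ℕ) (f : ℕ → ℝ), GP ε i0 f → SS f (2 ^ i0) = 1

/-! ### composites in short intervals -/

/-- **GW**. Proof. Let `G = LP (gw i0)`. By induction on primes (`induction_on_primes`) show: `n = 0 ∨ n = 1 ∨ G n = 0 ∨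
(2 ≤ log n ∧ G n ≤ 1/(log n)^2)`, and `0 ≤ G n` (`LP_nonneg`). For `n = p a`: `G (p a) = gw p * G a`; if `gw p ≠ 0` then `p > 2^i0 ≥ 8`,
`log p ≥ 2` (`3 log 2 ≥ 2`); if `a = 1` done; otherwise `G a ≤ 1/(log a)^2`, `log a ≥ 2`, and
`log p * log a ≥ log p + log a = log (p a)` as `(x-1)(y-1) ≥ 1` for `x, y ≥ 2`. -/
def S_GW : Prop := ∀ i0 n : ℕ, 3 ≤ i0 → 2 ≤ n → Q236.CM.LP (gw i0) n ≤ 1 / Real.log n ^ 2

/-- **TS**. Proof. Let `G = LP (gw i0)`, `T = ∑_{1 ≤ m ≤ M} G m / m`, `d = ∑_{p ≤ M prime} gw i0 p / p`. Each `m ∈ [2, M]` is `p m'` with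
`p = minFac m`, `m' = m / p ∈ [1, M]`, and `G m / m = (gw p / p)(G m' / m')`; `m ↦ (p, m')` is injective, so `T - 1 ≤ d T`. For `n ≥ 3`:
`1/(n log² n) ≤ 1/log (n-1) - 1/log n` (as `log n - log (n-1) ≥ 1/n`, `log (n-1) ≤ log n`), so by induction
`∑_{2^i0 < n ≤ M} 1/(n log² n) ≤ 1/log (2^i0) = 1/(i0 log 2)`, `d ≤ 1.45/i0 ≤ 0.484`. So `T - 1 ≤ d/(1-d) ≤ 2 d ≤ 4/i0`. -/
def S_TS : Prop := ∀ i0 M : ℕ, 3 ≤ i0 → ∑ m ∈ Icc 2 M, Q236.CM.LP (gw i0) m / m ≤ 4 / i0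

/-- **SPL**. Proof. Let `u` be the least divisor of `n` with `u ≥ s` and `v = n / u`. If `v ≥ s` the first alternative holds. So let `v < s`.
Then `u > 1` (if `u = 1` then `v = n ≥ s`). Let `p` be a prime factor of `u`; `u / p` is a divisor of `n` smaller than `u`, so `u / p < s`, and
`n / p = (u / p) v < s^2`. -/
def S_SPL : Prop := ∀ s n : ℕ, 1 ≤ s → s ≤ n →
  (∃ u v : ℕ, n = u * v ∧ s ≤ u ∧ s ≤ v) ∨ ∃ p : ℕ, p.Prime ∧ p ∣ n ∧ n / p < s ^ 2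

/-- the threshold `s`, `s^4 ≤ hh δ i` -/
noncomputable def sq (δ : ℝ) (i : ℕ) : ℕ := 2 ^ (⌊(1 / 2 - δ) * i⌋₊ / 4)

/-- **KA** composites `n = m p` with a large prime `p`. Proof. `θ = 1/2 - δ ∈ (0, 1)`, `h = hh δ i = 2^⌊θ i⌋`, `s = sq δ i`, `s^4 ≤ h ≤ 2^i`,
`G = LP (gw i0) ≥ 0`. For such an `n` put `m = n / p ∈ [2, s^2)`; `G n = G m * gw i0 p` and `p = n / m > 2^i / s^2 ≥ 2^(i/2)`
(`s^4 ≤ 2^i`), so `gw i0 p ≤ 1/(log p)^2 ≤ 4/(i log 2)^2 ≤ 9/i^2`. Hence the sum is at most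
`∑_{2 ≤ m < s^2} G m (9/i^2) #{n ∈ (a, a+h] : m ∣ n, n/m prime}` (bound each `G n` by the sum over all `m ∈ Ico 2 (s^2)` with `m ∣ n`, `n/m`
prime). The last set is mapped injectively by `n ↦ n/m` to the primes in `(⌊a/m⌋, ⌊a/m⌋ + L]`, `L = h/m + 1` (nat division),
which are `Rough (2^(i/2))`. Here `L ≥ h/m ≥ h/s^2 ≥ h^(1/2) ≥ 2^((θ i - 1)/2) ≥ 2^((θ/3) i)` for large `i`, so `BTR` (with `γ = 1/2`,
`σ = θ/3`) gives `≤ C L/i ≤ 2 C h/(m i)` (as `m ≤ h`). Total: `≤ (18 C h/i^3) ∑_{2 ≤ m < s^2} G m/m ≤ (18 C h/i^3)(4/i0)` by `TS`. -/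
def S_KA : Prop := ∀ δ : ℝ, -(1 / 2) < δ → δ < 1 / 2 → ∃ C : ℝ, 0 < C ∧ ∃ I : ℕ, 3 ≤ I ∧ ∀ i0 i : ℕ, 3 ≤ i0 → I ≤ i →
  ∀ a : ℕ, 2 ^ i ≤ a → ∑ n ∈ (Ioc a (a + hh δ i)).filter (fun n => ∃ p : ℕ, p.Prime ∧ p ∣ n ∧ 1 < n / p ∧
    n / p < sq δ i ^ 2), Q236.CM.LP (gw i0) n ≤ C * hh δ i / (i : ℝ) ^ 3 * (4 / i0)

/-- **KEY** (from GW, SPL, KA). Proof. `θ = 1/2 - δ ∈ (0,1)`, `h = hh δ i`, `s = sq δ i`, `G = LP (gw i0) ≥ 0`. For `n ∈ (a, a+h]` composite,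
`n > 2^i ≥ s`, use `SPL`: if `n = u v` with `u, v ≥ s` (`≥ 2` for large `i`) then `G n = G u * G v ≤ 1/(log s)^4`, and
`log s ≥ ((θ i - 1)/4 - 1) log 2 ≥ c₁ i`, `c₁ = θ/10`, for large `i`; the sum over these `n` is
`≤ h/(c₁ i)^4 ≤ (κ/2) h/i^3` for `i ≥ 2/(κ c₁^4)`. The other `n` have a prime `p ∣ n` with `n/p < s^2`, and `n / p > 1` as `n` is not prime:
`KA` gives `≤ 4 C h/(i^3 i0) ≤ (κ/2) h/i^3` for `i0 ≥ 8 C/κ`. -/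
def S_KEY : Prop := ∀ δ : ℝ, -(1 / 2) < δ → δ < 1 / 2 → ∀ κ : ℝ, 0 < κ → ∃ I : ℕ, 3 ≤ I ∧ ∀ i0 i : ℕ, I ≤ i0 → i0 ≤ i →
  ∀ a : ℕ, 2 ^ i ≤ a → ∑ n ∈ (Ioc a (a + hh δ i)).filter (fun n => ¬ n.Prime), Q236.CM.LP (gw i0) n ≤
    κ * hh δ i / (i : ℝ) ^ 3

/-! ### the process -/

/-- **CELL**. Proof. For `j ≤ h` let `A_j = ∑_{n ∈ (a, a+j], n not prime} |f n|`, `Q_j = ∑_{p ∈ (a, a+j] prime} cap p`. By induction on `j`: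
`|SS f (a+j)| ≤ max A_j (|SS f a| + A_j - Q_j)`. -/
def S_CELL : Prop := ∀ (f cap : ℕ → ℝ) (a h : ℕ) (τ : ℝ), (∀ p, 0 ≤ cap p) →
  (∀ p : ℕ, p.Prime → |SS f p| ≤ max 0 (|SS f (p - 1)| - cap p)) →
  ∑ n ∈ (Ioc a (a + h)).filter (fun n => ¬ n.Prime), |f n| ≤ τ →
  (∀ j : ℕ, j ≤ h → |SS f (a + j)| ≤ |SS f a| + τ) ∧
  (4 * τ ≤ ∑ p ∈ (Ioc a (a + h)).filter Nat.Prime, cap p → |SS f (a + h)| ≤ max τ (|SS f a| - 3 * τ))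

/-- **SC** (from KEY and CELL). Proof. Take `I` from `KEY` with `κ = c/32`. For `n` in the cell, `n > 2^i`, so
`|f n| ≤ n^(ε-1) G n ≤ (2^i)^(ε-1) G n` (`ε < 1`, `G = LP (gw i0) ≥ 0`), and by `KEY` the composites have
`∑ |f n| ≤ tau c ε δ i`. If `k ∉ BB c δ i` there are `≥ c h/i` primes `p` in the cell; `2^i < p ≤ 2^(i+1)` (as `(k+1) h ≤ 2^i`), so
`p^(ε-1) ≥ (2^(i+1))^(ε-1) ≥ (2^i)^(ε-1)/2` and `gw i0 p = 1/(log p)^2 ≥ 1/(i+1)^2 ≥ 1/(4 i^2)`; the sum of `cap p = p^(ε-1) gw i0 p` is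
`≥ (c h/i)(2^i)^(ε-1)/(8 i^2) = 4 tau`. Apply `CELL`. -/
def S_SC : Prop := ∀ c ε δ : ℝ, 0 < c → 0 < ε → ε < 1 → -(1 / 2) < δ → δ < 1 / 2 → ∃ I : ℕ, 3 ≤ I ∧ ∀ i0 : ℕ, I ≤ i0 →
  ∀ f : ℕ → ℝ, GP ε i0 f → STEP c ε δ i0 f

/-- **ABS**. Proof. `Φ k = ⌈(d k - τ)/(3 τ)⌉₊`, so `d k ≤ τ + 3 τ Φ k`, `Φ 0 ≤ R`, `Φ k ≠ 0 ↔ τ < d k`. If `k ∉ bad`: `Φ (k+1) ≤ Φ k - 1`
(nat subtraction); if `k ∈ bad`: `Φ (k+1) ≤ Φ k + 1`. Induction on `n ≤ N`: `Φ n + #{k < n : Φ k ≠ 0} ≤ R + 2 #{k < n, k ∈ bad}` and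
`Φ n ≤ R + #{k < n, k ∈ bad}`. For the last claim: by the first inequality some `k < N` has `Φ k = 0`, and from there `Φ` grows by at most
`#bad`. -/
def S_ABS : Prop := ∀ (d : ℕ → ℝ) (τ : ℝ) (N R : ℕ) (bad : Finset ℕ), 0 < τ →
  (∀ k, k < N → k ∉ bad → d (k + 1) ≤ max τ (d k - 3 * τ)) → (∀ k, k < N → k ∈ bad → d (k + 1) ≤ d k + τ) →
  d 0 ≤ τ + 3 * τ * R →
  (((range N).filter (fun k => τ < d k)).card ≤ R + 2 * bad.card) ∧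
  (∀ k, k ≤ N → d k ≤ τ + 3 * τ * (R + bad.card)) ∧
  (R + 2 * bad.card < N → d N ≤ τ + 3 * τ * bad.card)

/-- few dirty cells and a bound for the debt -/
def CONC (c ε δ x : ℝ) (f : ℕ → ℝ) (i : ℕ) : Prop :=
  (((range (nc δ i)).filter (fun k => tau c ε δ i < |SS f (2 ^ i + k * hh δ i)|)).card : ℝ) ≤ 50 * (2 : ℝ) ^ (x * i) ∧
  ∀ k : ℕ, k < nc δ i → |SS f (2 ^ i + k * hh δ i)| ≤ 150 * (tau c ε δ i * (2 : ℝ) ^ (x * i))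

/-- **DEB** (from ABS). Proof. `δ = lam - 1/2 + η/2`, `1/2 - δ = 1 - lam - η/2 =: θ ∈ (0, 1)`, `h_i = 2^⌊θ i⌋ ∣ 2^i`,
`N_i = nc δ i = 2^i/h_i ≥ 2^((lam + η/2) i)`, `τ_i = tau c ε δ i`, `b_i = 2^((e-η) i) ≥ 1`, `B_i = #(BB c δ i) ≤ b_i`. For `i ≥ i0` apply `ABS` to
`d k = |SS f (2^i + k h_i)|` with `N = N_i`; `d N_i = |SS f (2^(i+1))|`. Show by induction for `i ≥ i0` that there is `R_i : ℕ` with
`|SS f (2^i)| ≤ τ_i + 3 τ_i R_i` and `R_i + 2 B_i < N_i`, and with `R_i ≤ 24 b_i` for `i > i0`.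
`i = i0`: `R = ⌈1/(3 τ_i)⌉₊ ≤ 1 + 1/(3τ_i)`; `N_i τ_i = (c/32) 2^(ε i)/i^3 → ∞` so `1/(3τ_i) ≤ N_i/4` for large `i`, and
`1 + 2 b_i < N_i/2`. Step: `d N_i ≤ τ_i + 3 τ_i B_i ≤ 4 τ_i b_i` by ABS, and `τ_i ≤ 16 τ_{i+1}` (`h_i ≤ h_{i+1}`, `2^(1-ε) ≤ 2`,
`((i+1)/i)^3 ≤ 8`), so `R_{i+1} = ⌈64 b_i/3⌉₊ ≤ 24 b_i ≤ 24 b_{i+1}` works; and `26 b_{i+1} < N_{i+1}` for large `i` since
`e - η < lam + η/2`. The conclusions: `R_i + 2 B_i ≤ 26 b_i` dirty cells, and `d k ≤ τ_i (1 + 3 · 25 b_i) ≤ 76 τ_i b_i`. -/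
def S_DEB : Prop := ∀ c ε η lam e : ℝ, 0 < c → 0 < ε → ε < 1 → 0 < η → η ≤ e → e ≤ lam → lam + η / 2 < 1 →
  ∃ I : ℕ, 3 ≤ I ∧ ∀ i0 : ℕ, I ≤ i0 → ∀ f : ℕ → ℝ, SS f (2 ^ i0) = 1 → STEP c ε (lam - 1 / 2 + η / 2) i0 f →
    (∀ i : ℕ, i0 ≤ i → ((BB c (lam - 1 / 2 + η / 2) i).card : ℝ) ≤ (2 : ℝ) ^ ((e - η) * i)) →
    ∀ i : ℕ, i0 < i → CONC c ε (lam - 1 / 2 + η / 2) (e - η) f i

/-- **OUT**. Proof. `δ = lam - 1/2 + η/2`, `h = hh δ i ≤ 2^((1 - lam - η/2) i)`, so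
`τ_i = tau c ε δ i ≤ (c/32) 2^((-lam - η/2 + ε) i) ≤ (c/32) 2^(-(lam + 3η/8) i)`. Every `N > 2^(i0+1)` is in `(2^i, 2^(i+1)]` for one
`i > i0` (`i = Nat.log 2 (N-1)`), and `N = 2^i + k h + j`, `k < nc δ i`, `1 ≤ j ≤ h` (`h ∣ 2^i`; `k = (N - 1 - 2^i)/h`). By `STEP`,
`|SS f N| ≤ |SS f (2^i + k h)| + τ_i`.
(1) So `|SS f N| ≤ 151 τ_i 2^((e-η) i) ≤ 151 (c/32) 2^(-(lam - e) i) 2^(-(11η/8) i)`, and `2^(-x i) ≤ 2^x N^(-x)` for `x ≥ 0`, `N ≤ 2^(i+1)`.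
(2) If the cell is not dirty (`|SS f (2^i + k h)| ≤ τ_i`) then `|SS f N| ≤ 2 τ_i ≤ C N^(-(lam + η/4))`. The `N ∈ (2^i, 2^(i+1)]` in dirty cells
are at most `h · 50 · 2^((e-η) i) ≤ 50 · 2^((1 - lam + e - 3η/2) i)`. Sum over `i0 < i ≤ L`, `L = Nat.log 2 X`, `2^L ≤ X`: at most
`50 L 2^(max(x,0) L) ≤ C 2^((1 - lam + e - η) L)`, where `x = 1 - lam + e - 3η/2`, since `L ≤ C 2^((η/2) L)` and `L ≤ C 2^((1 - lam + e - η) L)` (`1 - lam + e - η ≥ 1 - lam > 0`). Add the `N ≤ 2^(i0+1)` to the constant. In (1) and (2) the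
`N ≤ 2^(i0+1)` are finitely many (`N^(-x) > 0`), so a constant `C` works for them too. -/
def S_OUT : Prop := ∀ c ε η lam e : ℝ, 0 < c → 0 < ε → ε ≤ η / 8 → 0 < η → η ≤ e → e ≤ lam → lam + η / 2 < 1 →
  ∀ (i0 : ℕ) (f : ℕ → ℝ), 3 ≤ i0 → STEP c ε (lam - 1 / 2 + η / 2) i0 f →
    (∀ i : ℕ, i0 < i → CONC c ε (lam - 1 / 2 + η / 2) (e - η) f i) →
    ∃ C : ℝ, 0 < C ∧ (∀ N : ℕ, 1 ≤ N → |SS f N| ≤ C * (N : ℝ) ^ (-(lam - e + η / 4))) ∧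
      ∀ X : ℕ, 1 ≤ X → (((Icc 1 X).filter (fun N : ℕ => C * (N : ℝ) ^ (-(lam + η / 4)) < |SS f N|)).card : ℝ) ≤
        C * (X : ℝ) ^ (1 - lam + e - η)

/-- **BAD**: few cells poor in primes. Proof: as `Pool.Agent.Q241.KS.fin1` (file `Pool/Agent/Q241/KS/Fin.lean`), with other exponents.
`Y = (i + 1/2) log 2`, `h = hh (lam - 1/2 + η/2) i = 2^⌊(1 - lam - η/2) i⌋`. With `η₀` from `MAINP`, `η₁ = min (η₀/2) ((1-lam)/2)` and so on: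
`2^((1 - lam - η/2) i - 1) ≥ e^((1 - lam - η₀) Y)` for large `i` as `η/2 < η₀`; `h ≤ 2^(0.9 i) ≤ e^(0.9 Y)`; `U` = left ends of the poor
cells; `c h/i ≤ c h/Y`. The bound is `e^((e - η₀) Y) = 2^((e-η₀)(i+1/2)) ≤ 2^((e-η) i)` for large `i`. -/
def S_BAD : Prop := ∀ lam e : ℝ, 1 / 10 ≤ lam → lam < 1 → MAINP lam e → ∃ c η₁ : ℝ, 0 < c ∧ 0 < η₁ ∧
  ∀ η : ℝ, 0 < η → η ≤ η₁ → ∃ I : ℕ, ∀ i : ℕ, I ≤ i →
    ((BB c (lam - 1 / 2 + η / 2) i).card : ℝ) ≤ (2 : ℝ) ^ ((e - η) * i)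

end J6H67.DB
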